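import Pool.Agent.SPP.Defs

/-!
# [SPP-Ext] smooth polytopes which are intersections of `N` half spaces

`hP : IsSmooth P` (SPB/Smo): `P = hull A₀`; at each extreme point `x` vectors `b i` (`i : Fin d`) generating `ℤ^d`, `x + b i ∈ P`, `P ⊆ x + cone (b)`. `x = emb v` (`extremePoints_convexHull_subset`).
(1) Dual basis `a i` (`∑ k, a i k * b j k = δ`): `C k i` with `∑ i, C k i • b i = e_k`, so `C * B = 1`, hence `B * C = 1` (square integer matrices, `Matrix.mul_eq_one_comm`); `a i k = C k i`.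
(2) For every row `c = A j` the maximum over `P` is attained at an extreme point `x` (compactness; the face of maximisers is an extreme set), `c · b i ≤ 0` there; so if `a i · (y - v) ≥ 0` for all vertices and all `i` then `y ∈ P`.
(3) For every vertex `v` and `i` there is `j` with `A j · v = b j` (tight), `A j · b k = 0` for `k ≠ i`, `A j · b i < 0`; so `A j = (A j · b i) a i`. Otherwise `v + δ (∑_{k ≠ i} b k - ε b i) ∈ P` for small `ε`, then small `δ`, but `a i` of it minus `v` is `- δ ε < 0`.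
(4) Let `𝓕` be the set of the pairs `(a i, - a i · v)` over all vertices; by (3) each `f ∈ 𝓕` comes with `j f : Fin N`; `j` is injective: `A j = - c a = - c' a'` with `c, c' > 0`, `a · β = 1`, `a' · β' = 1` (`β, β'` integer vectors) gives `a = a'`; then the constants agree.
Put `ρ j = f` if `j = j f` for an `f ∈ 𝓕`, and `ρ j = (0, 1)` otherwise.
(5) `TS`: let `x ∈ P`, let `v` be an extreme point of the face `{y ∈ P | f y = 0 for all f ∈ 𝓕 with f x = 0}` (an extreme set of `P`). If `f = (a', - a' · v') ∈ 𝓕` (vertex `v'`, index `k`, basis `b'`) vanishes at `v`, then `a' = ∑ n_i a_i` with `n_i = a' · b_i ≥ 0`; all of `n_i a_i` vanish on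
`v' - v`, `v' + b'_l - v` (`l ≠ k`); if `n_i > 0` then `a_i = (a_i · b'_k) a'`, so `1 = a_i · b_i = (a_i · b'_k) n_i` and `a_i = a'`. Then for `c` take `y = ∑_i c (j_i) b_i` with `j_i` the index of the facet `(a_i, - a_i · v)`.
-/

open Finset

set_option autoImplicit false

namespace Pool.Agent.SPP

open Pool.Agent.SPB

private theorem ext_dual {d : ℕ} {b : Fin d → Fin d → ℤ}
    (hb : ∀ y : Fin d → ℤ, ∃ c : Fin d → ℤ, ∑ i, c i • b i = y) :
    ∃ a : Fin d → Fin d → ℤ, (∀ i j, ∑ k, a i k * b j k = if i = j then 1 else 0) ∧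
      ∀ k l, ∑ i, a i k * b i l = if k = l then 1 else 0 := by
  choose C hC using fun k : Fin d => hb (Pi.single k 1)
  have h1 : Matrix.of C * Matrix.of b = 1 := by
    ext k l
    rw [Matrix.mul_apply]
    have := congrFun (hC k) l
    rw [Finset.sum_apply] at this
    simp only [Pi.smul_apply, smul_eq_mul] at this
    simp only [Matrix.of_apply]
    rw [this, Matrix.one_apply, Pi.single_apply]
    simp only [eq_comm]
  have h2 : Matrix.of b * Matrix.of C = 1 := mul_eq_one_comm.1 h1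
  refine ⟨fun i k => C k i, fun i j => ?_, fun k l => ?_⟩
  · have h3 := congrFun (congrFun h2 j) i
    rw [Matrix.mul_apply, Matrix.one_apply] at h3
    simp only [Matrix.of_apply] at h3
    rw [← Finset.sum_congr rfl fun k _ => mul_comm (b j k) (C k i), h3]
    simp only [eq_comm]
  · have h3 := congrFun (congrFun h1 k) l
    rw [Matrix.mul_apply, Matrix.one_apply] at h3
    simp only [Matrix.of_apply] at h3
    exact h3

/-- vertex data: vertex `v`, edge vectors `b`, dual basis `a` -/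
private structure Vd {d : ℕ} (P : Set (Fin d → ℝ)) (v : Fin d → ℤ) (b a : Fin d → Fin d → ℤ) : Prop where
  mem : emb v ∈ P
  dual : ∀ i j, ∑ k, a i k * b j k = if i = j then 1 else 0
  comp : ∀ k l, ∑ i, a i k * b i l = if k = l then 1 else 0
  edge : ∀ i, emb v + emb (b i) ∈ P
  pos : ∀ y ∈ P, ∀ i, 0 ≤ emb (a i) ⬝ᵥ (y - emb v)

private theorem emb_dot {d : ℕ} (a y : Fin d → ℤ) : emb a ⬝ᵥ emb y = ((∑ k, a k * y k : ℤ) : ℝ) := by
  simp only [dotProduct, emb]
  push_cast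
  rfl

private theorem Vd.dualR {d : ℕ} {P : Set (Fin d → ℝ)} {v : Fin d → ℤ} {b a : Fin d → Fin d → ℤ}
    (h : Vd P v b a) (i j : Fin d) : emb (a i) ⬝ᵥ emb (b j) = if i = j then 1 else 0 := by
  rw [emb_dot, h.dual]
  split_ifs <;> simp

private theorem Vd.compR {d : ℕ} {P : Set (Fin d → ℝ)} {v : Fin d → ℤ} {b a : Fin d → Fin d → ℤ}
    (h : Vd P v b a) (k l : Fin d) : ∑ i, emb (a i) k * emb (b i) l = if k = l then 1 else 0 := by
  have h2 : ((∑ i, a i k * b i l : ℤ) : ℝ) = ((if k = l then 1 else 0 : ℤ) : ℝ) := by rw [h.comp]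
  push_cast at h2
  exact h2

/-- expansion of a vector -/
private theorem Vd.exp {d : ℕ} {P : Set (Fin d → ℝ)} {v : Fin d → ℤ} {b a : Fin d → Fin d → ℤ}
    (h : Vd P v b a) (y : Fin d → ℝ) : ∑ i, (emb (a i) ⬝ᵥ y) • emb (b i) = y := by
  funext l
  rw [Finset.sum_apply]
  simp only [Pi.smul_apply, smul_eq_mul, dotProduct, Finset.sum_mul]
  rw [Finset.sum_comm]
  have : ∀ k, ∑ i, emb (a i) k * y k * emb (b i) l = (if k = l then 1 else 0) * y k := by
    intro k
    rw [← h.compR, Finset.sum_mul]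
    exact Finset.sum_congr rfl fun i _ => by ring
  simp only [this, ite_mul, one_mul, zero_mul, Finset.sum_ite_eq', Finset.mem_univ, if_true]

/-- expansion of a functional -/
private theorem Vd.exp' {d : ℕ} {P : Set (Fin d → ℝ)} {v : Fin d → ℤ} {b a : Fin d → Fin d → ℤ}
    (h : Vd P v b a) (c : Fin d → ℝ) : ∑ i, (c ⬝ᵥ emb (b i)) • emb (a i) = c := by
  funext k
  rw [Finset.sum_apply]
  simp only [Pi.smul_apply, smul_eq_mul, dotProduct, Finset.sum_mul]
  rw [Finset.sum_comm]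
  have : ∀ l, ∑ i, c l * emb (b i) l * emb (a i) k = (if k = l then 1 else 0) * c l := by
    intro l
    rw [← h.compR, Finset.sum_mul]
    exact Finset.sum_congr rfl fun i _ => by ring
  simp only [this, ite_mul, one_mul, zero_mul, Finset.sum_ite_eq, Finset.mem_univ, if_true]

/-- value of a functional on a vector -/
private theorem Vd.val {d : ℕ} {P : Set (Fin d → ℝ)} {v : Fin d → ℤ} {b a : Fin d → Fin d → ℤ}
    (h : Vd P v b a) (c y : Fin d → ℝ) : c ⬝ᵥ y = ∑ i, (c ⬝ᵥ emb (b i)) * (emb (a i) ⬝ᵥ y) := by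
  conv_lhs => rw [← h.exp y, dotProduct_sum]
  exact Finset.sum_congr rfl fun i _ => by rw [dotProduct_smul, smul_eq_mul, mul_comm]

private theorem exists_vd {d : ℕ} {P : Set (Fin d → ℝ)} (hP : IsSmooth P) {x : Fin d → ℝ}
    (hx : x ∈ P.extremePoints ℝ) : ∃ v b a, emb v = x ∧ Vd P v b a := by
  obtain ⟨⟨A₀, -, hA₀⟩, h2⟩ := hP
  have hx' : x ∈ (convexHull ℝ (emb '' (A₀ : Set (Fin d → ℤ)))).extremePoints ℝ := by
    have : P = convexHull ℝ (emb '' (A₀ : Set (Fin d → ℤ))) := hA₀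
    rw [← this]
    exact hx
  obtain ⟨v, -, hv⟩ := extremePoints_convexHull_subset hx'
  obtain ⟨b, hb1, hb2, hb3⟩ := h2 x hx
  obtain ⟨a, ha1, ha2⟩ := ext_dual hb1
  refine ⟨v, b, a, hv, ⟨by rw [hv]; exact hx.1, ha1, ha2, by rw [hv]; exact hb2, ?_⟩⟩
  intro y hy i
  obtain ⟨t, ht0, rfl⟩ := hb3 y hy
  rw [hv, add_sub_cancel_left, dotProduct_sum]
  have : ∀ j, emb (a i) ⬝ᵥ (t j • emb (b j)) = if i = j then t j else 0 := by
    intro j
    rw [dotProduct_smul, emb_dot, ha1]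
    split_ifs <;> simp
  simp only [this, Finset.sum_ite_eq, Finset.mem_univ, if_true]
  exact ht0 i

/-- a face of a compact set contains an extreme point -/
private theorem ext_face {d : ℕ} {P : Set (Fin d → ℝ)} (hP : IsCompact P) (G : Set ((Fin d → ℝ) × ℝ))
    (hG : ∀ g ∈ G, ∀ y ∈ P, 0 ≤ g.1 ⬝ᵥ y + g.2) {x₀ : Fin d → ℝ} (hx : x₀ ∈ P)
    (h0 : ∀ g ∈ G, g.1 ⬝ᵥ x₀ + g.2 = 0) :
    ∃ x ∈ P.extremePoints ℝ, ∀ g ∈ G, g.1 ⬝ᵥ x + g.2 = 0 := by
  let F : Set (Fin d → ℝ) := P ∩ ⋂ g ∈ G, {y | g.1 ⬝ᵥ y + g.2 = 0}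
  have hmF : ∀ y, y ∈ F ↔ y ∈ P ∧ ∀ g ∈ G, g.1 ⬝ᵥ y + g.2 = 0 := by
    intro y
    simp [F]
  have hF : IsExtreme ℝ P F := by
    refine ⟨fun y hy => ((hmF y).1 hy).1, ?_⟩
    intro x1 h1 x2 h2 z hz hzs
    refine (hmF _).2 ⟨h1, fun g hg => ?_⟩
    obtain ⟨s, t, hs, ht, hst, rfl⟩ := hzs
    have e1 := ((hmF _).1 hz).2 g hg
    have e2 := hG g hg x1 h1
    have e3 := hG g hg x2 h2
    rw [dotProduct_add, dotProduct_smul, dotProduct_smul, smul_eq_mul, smul_eq_mul] at e1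
    have e4 : s * (g.1 ⬝ᵥ x1 + g.2) + t * (g.1 ⬝ᵥ x2 + g.2) = 0 := by
      have : g.2 = (s + t) * g.2 := by rw [hst, one_mul]
      linear_combination e1 + (-1 : ℝ) * this
    have e5 : s * (g.1 ⬝ᵥ x1 + g.2) ≤ 0 := by
      have := mul_nonneg ht.le e3
      linarith
    have e6 : g.1 ⬝ᵥ x1 + g.2 ≤ 0 := by
      by_contra hne
      push Not at hne
      have := mul_pos hs hne
      linarith
    exact le_antisymm e6 e2
  have hcl : IsClosed (⋂ g ∈ G, {y : Fin d → ℝ | g.1 ⬝ᵥ y + g.2 = 0}) := by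
    refine isClosed_biInter fun g _ => isClosed_eq ?_ continuous_const
    simp only [dotProduct]
    fun_prop
  have hFc : IsCompact F := hP.inter_right hcl
  obtain ⟨x, hx1⟩ := hFc.extremePoints_nonempty ⟨x₀, (hmF _).2 ⟨hx, h0⟩⟩
  exact ⟨x, hF.extremePoints_subset_extremePoints hx1, ((hmF _).1 hx1.1).2⟩

private theorem ev_dot {d : ℕ} (a : Fin d → ℤ) (h : ℤ) (x : Fin d → ℝ) : ev a h x = emb a ⬝ᵥ x + h := rfl

/-- facets -/
private def Fa {d : ℕ} (P : Set (Fin d → ℝ)) (f : (Fin d → ℤ) × ℤ) : Prop :=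
  ∃ (v : Fin d → ℤ) (b a : Fin d → Fin d → ℤ) (i : Fin d), Vd P v b a ∧ f.1 = a i ∧ f.2 = -∑ k, a i k * v k

private theorem Fa.eval {d : ℕ} {f : (Fin d → ℤ) × ℤ} {v a : Fin d → ℤ} (h1 : f.1 = a)
    (h2 : f.2 = -∑ k, a k * v k) (y : Fin d → ℝ) : ev f.1 f.2 y = emb a ⬝ᵥ (y - emb v) := by
  rw [ev_dot, h1, h2, dotProduct_sub, emb_dot]
  push_cast
  ring

private theorem Fa.nonneg {d : ℕ} {P : Set (Fin d → ℝ)} {f : (Fin d → ℤ) × ℤ} (h : Fa P f)
    {y : Fin d → ℝ} (hy : y ∈ P) : 0 ≤ ev f.1 f.2 y := by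
  obtain ⟨v, b, a, i, hv, h1, h2⟩ := h
  rw [Fa.eval h1 h2]
  exact hv.pos y hy i

private theorem Fa.prim {d : ℕ} {P : Set (Fin d → ℝ)} {f : (Fin d → ℤ) × ℤ} (h : Fa P f) :
    ∃ β : Fin d → ℤ, emb f.1 ⬝ᵥ emb β = 1 := by
  obtain ⟨v, b, a, i, hv, h1, -⟩ := h
  refine ⟨b i, ?_⟩
  rw [h1, hv.dualR, if_pos rfl]

/-- (2) -/
private theorem mem_of_fa {d N : ℕ} {P : Set (Fin d → ℝ)} (hP : IsSmooth P) (A : Fin N → Fin d → ℝ)
    (β : Fin N → ℝ) (hA : P = {x | ∀ j, A j ⬝ᵥ x ≤ β j}) {y : Fin d → ℝ}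
    (hy : ∀ f, Fa P f → 0 ≤ ev f.1 f.2 y) : y ∈ P := by
  have hcomp : IsCompact P ∧ P.Nonempty := by
    obtain ⟨⟨A₀, hne, hA₀⟩, -⟩ := hP
    rw [hA₀]
    refine ⟨hull_isCompact A₀, ?_⟩
    obtain ⟨a, ha⟩ := hne
    exact ⟨emb a, subset_convexHull ℝ _ ⟨a, ha, rfl⟩⟩
  have hPm : ∀ x, x ∈ P ↔ ∀ j, A j ⬝ᵥ x ≤ β j := by
    intro x
    rw [hA]
    rfl
  rw [hPm]
  intro j
  have hcont : Continuous (fun x : Fin d → ℝ => A j ⬝ᵥ x) := by
    simp only [dotProduct]
    fun_prop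
  obtain ⟨x₀, hx₀, hmax⟩ := hcomp.1.exists_isMaxOn hcomp.2 hcont.continuousOn
  obtain ⟨x, hx, hx1⟩ := ext_face hcomp.1 {(-A j, A j ⬝ᵥ x₀)} (by
    intro g hg z hz
    rw [Set.mem_singleton_iff] at hg
    subst hg
    have := hmax hz
    simp only [Set.mem_ofPred_eq] at this
    simp only [neg_dotProduct]
    linarith) hx₀ (by
    intro g hg
    rw [Set.mem_singleton_iff] at hg
    subst hg
    simp only [neg_dotProduct]
    ring)
  obtain ⟨v, b, a, rfl, hv⟩ := exists_vd hP hx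
  have h1 := hx1 _ (Set.mem_singleton _)
  simp only [neg_dotProduct] at h1
  have h2 : ∀ i, A j ⬝ᵥ emb (b i) ≤ 0 := by
    intro i
    have := hmax (hv.edge i)
    simp only [Set.mem_ofPred_eq, dotProduct_add] at this
    linarith
  have h3 : A j ⬝ᵥ (y - emb v) ≤ 0 := by
    rw [hv.val]
    refine Finset.sum_nonpos fun i _ => ?_
    refine mul_nonpos_of_nonpos_of_nonneg (h2 i) ?_
    have := hy (a i, -∑ k, a i k * v k) ⟨v, b, a, i, hv, rfl, rfl⟩
    rwa [Fa.eval rfl rfl] at this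
  rw [dotProduct_sub] at h3
  have h4 := (hPm _).1 hv.mem j
  linarith

/-- (3) every facet comes from a row -/
private theorem Fa.row {d N : ℕ} {P : Set (Fin d → ℝ)} (A : Fin N → Fin d → ℝ)
    (β : Fin N → ℝ) (hA : P = {x | ∀ j, A j ⬝ᵥ x ≤ β j}) {f : (Fin d → ℤ) × ℤ} (hf : Fa P f) :
    ∃ j, ∃ c : ℝ, 0 < c ∧ A j = -c • emb f.1 ∧ β j = c * (f.2 : ℝ) := by
  obtain ⟨v, b, a, i, hv, h1, h2⟩ := hf
  have hPm : ∀ x, x ∈ P ↔ ∀ j, A j ⬝ᵥ x ≤ β j := by
    intro x
    rw [hA]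
    rfl
  have key : ∃ j, A j ⬝ᵥ emb v = β j ∧ (∀ k, k ≠ i → A j ⬝ᵥ emb (b k) = 0) ∧ A j ⬝ᵥ emb (b i) < 0 := by
    by_contra hcon
    push Not at hcon
    let D : Fin d → ℝ := ∑ k ∈ univ.erase i, emb (b k)
    have hpt : ∀ (j : Fin N) (δ : ℝ), A j ⬝ᵥ (emb v + δ • D - δ ^ 2 • emb (b i)) =
        A j ⬝ᵥ emb v + δ * (A j ⬝ᵥ D - δ * (A j ⬝ᵥ emb (b i))) := by
      intro j δ
      rw [dotProduct_sub, dotProduct_add, dotProduct_smul, dotProduct_smul, smul_eq_mul, smul_eq_mul]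
      ring
    have hev : ∀ᶠ δ in nhdsWithin (0 : ℝ) (Set.Ioi 0), ∀ j,
        A j ⬝ᵥ (emb v + δ • D - δ ^ 2 • emb (b i)) ≤ β j := by
      rw [Filter.eventually_all]
      intro j
      have hle : A j ⬝ᵥ emb v ≤ β j := (hPm _).1 hv.mem j
      rcases lt_or_eq_of_le hle with hlt | heq
      · have htend : Filter.Tendsto (fun δ : ℝ => A j ⬝ᵥ emb v + δ * (A j ⬝ᵥ D - δ * (A j ⬝ᵥ emb (b i))))
            (nhdsWithin 0 (Set.Ioi 0))
            (nhds (A j ⬝ᵥ emb v + 0 * (A j ⬝ᵥ D - 0 * (A j ⬝ᵥ emb (b i))))) := by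
          apply Filter.Tendsto.mono_left _ nhdsWithin_le_nhds
          apply Continuous.tendsto
          fun_prop
        rw [zero_mul, add_zero] at htend
        filter_upwards [htend.eventually (gt_mem_nhds hlt)] with δ hδ
        rw [hpt]
        exact hδ.le
      · have hb : ∀ k, A j ⬝ᵥ emb (b k) ≤ 0 := by
          intro k
          have := (hPm _).1 (hv.edge k) j
          rw [dotProduct_add] at this
          linarith
        have hD : A j ⬝ᵥ D = ∑ k ∈ univ.erase i, A j ⬝ᵥ emb (b k) := dotProduct_sum _ _ _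
        by_cases hall : ∀ k, k ≠ i → A j ⬝ᵥ emb (b k) = 0
        · have h3 : A j ⬝ᵥ emb (b i) = 0 := le_antisymm (hb i) (hcon j heq hall)
          have h4 : A j ⬝ᵥ D = 0 := by
            rw [hD]
            exact Finset.sum_eq_zero fun k hk => hall k (Finset.ne_of_mem_erase hk)
          refine Filter.Eventually.of_forall fun δ => ?_
          rw [hpt, h3, h4, heq]
          simp
        · push Not at hall
          obtain ⟨k, hk, hkn⟩ := hall
          have h4 : A j ⬝ᵥ D < 0 := by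
            rw [hD]
            exact Finset.sum_neg' (fun k _ => hb k)
              ⟨k, Finset.mem_erase.2 ⟨hk, Finset.mem_univ _⟩, lt_of_le_of_ne (hb k) hkn⟩
          have htend : Filter.Tendsto (fun δ : ℝ => A j ⬝ᵥ D - δ * (A j ⬝ᵥ emb (b i)))
              (nhdsWithin 0 (Set.Ioi 0)) (nhds (A j ⬝ᵥ D - 0 * (A j ⬝ᵥ emb (b i)))) := by
            apply Filter.Tendsto.mono_left _ nhdsWithin_le_nhds
            apply Continuous.tendsto
            fun_prop
          rw [zero_mul, sub_zero] at htend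
          filter_upwards [htend.eventually (gt_mem_nhds h4), self_mem_nhdsWithin] with δ hδ hδ0
          rw [hpt, heq]
          have : δ * (A j ⬝ᵥ D - δ * (A j ⬝ᵥ emb (b i))) ≤ 0 :=
            mul_nonpos_of_nonneg_of_nonpos (le_of_lt hδ0) hδ.le
          linarith
    obtain ⟨δ, hδ, hδ0⟩ := (hev.and self_mem_nhdsWithin).exists
    have hδ0 : 0 < δ := hδ0
    have h3 := hv.pos _ ((hPm _).2 hδ) i
    have h4 : emb (a i) ⬝ᵥ D = 0 := by
      show emb (a i) ⬝ᵥ (∑ k ∈ univ.erase i, emb (b k)) = 0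
      rw [dotProduct_sum]
      exact Finset.sum_eq_zero fun k hk => by
        rw [hv.dualR, if_neg (Finset.ne_of_mem_erase hk).symm]
    rw [dotProduct_sub, dotProduct_sub, dotProduct_add, dotProduct_smul, dotProduct_smul, h4, hv.dualR,
      if_pos rfl, smul_eq_mul, smul_eq_mul] at h3
    have : 0 < δ ^ 2 := by positivity
    linarith
  obtain ⟨j, hj1, hj2, hj3⟩ := key
  have h3 : A j = (A j ⬝ᵥ emb (b i)) • emb (a i) := by
    conv_lhs => rw [← hv.exp' (A j)]
    rw [Finset.sum_eq_single i]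
    · intro k _ hk
      rw [hj2 k hk, zero_smul]
    · intro h
      exact absurd (Finset.mem_univ i) h
  refine ⟨j, -(A j ⬝ᵥ emb (b i)), by linarith, ?_, ?_⟩
  · rw [neg_neg, h1]
    exact h3
  · rw [← hj1, h2]
    conv_lhs => rw [h3]
    rw [smul_dotProduct, smul_eq_mul, emb_dot]
    push_cast
    ring

/-- (4) -/
private theorem Fa.uniq {d : ℕ} {P : Set (Fin d → ℝ)} {f g : (Fin d → ℤ) × ℤ} (hf : Fa P f) (hg : Fa P g)
    {c e : ℝ} (hc : 0 < c) (he : 0 < e) (h1 : c • emb f.1 = e • emb g.1) (h2 : c * (f.2 : ℝ) = e * (g.2 : ℝ)) :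
    f = g := by
  obtain ⟨β, hβ⟩ := hf.prim
  obtain ⟨γ, hγ⟩ := hg.prim
  have e1 : c = e * (emb g.1 ⬝ᵥ emb β) := by
    have := congrArg (fun u => u ⬝ᵥ emb β) h1
    simp only [smul_dotProduct, smul_eq_mul, hβ, mul_one] at this
    exact this
  have e2 : c * (emb f.1 ⬝ᵥ emb γ) = e := by
    have := congrArg (fun u => u ⬝ᵥ emb γ) h1
    simp only [smul_dotProduct, smul_eq_mul, hγ, mul_one] at this
    exact this
  rw [emb_dot] at e1 e2
  obtain ⟨m, hm⟩ : ∃ m : ℤ, m = ∑ k, g.1 k * β k := ⟨_, rfl⟩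
  obtain ⟨m', hm'⟩ : ∃ m' : ℤ, m' = ∑ k, f.1 k * γ k := ⟨_, rfl⟩
  rw [← hm] at e1
  rw [← hm'] at e2
  have hmpos : (0 : ℝ) < m := by
    by_contra h
    push Not at h
    have := mul_nonpos_of_nonneg_of_nonpos he.le h
    linarith
  have hmpos' : (0 : ℝ) < m' := by
    by_contra h
    push Not at h
    have := mul_nonpos_of_nonneg_of_nonpos hc.le h
    linarith
  have h3 : e * ((m : ℝ) * m' - 1) = 0 := by
    rw [e1] at e2
    linear_combination e2
  have h4 : (m : ℝ) * m' = 1 := by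
    rcases mul_eq_zero.1 h3 with h | h
    · linarith
    · linarith
  have h5 : m * m' = 1 := by exact_mod_cast h4
  have h6 : 0 < m := by exact_mod_cast hmpos
  have h7 : m = 1 := by
    rcases Int.eq_one_or_neg_one_of_mul_eq_one h5 with h | h
    · exact h
    · omega
  have h8 : c = e := by rw [e1, h7]; push_cast; ring
  rw [h8] at h1 h2
  refine Prod.ext (emb_injective ?_) ?_
  · exact smul_right_injective _ he.ne' h1
  · have := mul_left_cancel₀ he.ne' h2
    exact_mod_cast this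

/-- (5) -/
private theorem Fa.vert {d : ℕ} {P : Set (Fin d → ℝ)} {f : (Fin d → ℤ) × ℤ} (hf : Fa P f)
    {v : Fin d → ℤ} {b a : Fin d → Fin d → ℤ} (hv : Vd P v b a) (h0 : ev f.1 f.2 (emb v) = 0) :
    ∃ i, f = (a i, -∑ k, a i k * v k) := by
  have hfn := fun {y : Fin d → ℝ} (hy : y ∈ P) => hf.nonneg hy
  obtain ⟨v', b', a', k, hv', h1, h2⟩ := hf
  -- integral coefficients
  have hn : ∀ i, 0 ≤ emb f.1 ⬝ᵥ emb (b i) := by
    intro i
    have := hfn (hv.edge i)
    rw [ev_dot, dotProduct_add] at this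
    rw [ev_dot] at h0
    linarith
  have hex : ∃ i, 0 < emb f.1 ⬝ᵥ emb (b i) := by
    by_contra hcon
    push Not at hcon
    have h3 : emb f.1 = 0 := by
      rw [← hv.exp' (emb f.1)]
      refine Finset.sum_eq_zero fun i _ => ?_
      rw [le_antisymm (hcon i) (hn i), zero_smul]
    have h4 := hv'.dualR k k
    rw [← h1, h3, zero_dotProduct, if_pos rfl] at h4
    exact zero_ne_one h4
  obtain ⟨i, hi⟩ := hex
  have hz : ∀ z ∈ P, ev f.1 f.2 z = 0 → emb (a i) ⬝ᵥ (z - emb v) = 0 := by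
    intro z hz hz0
    have h3 : emb f.1 ⬝ᵥ (z - emb v) = 0 := by
      rw [dotProduct_sub]
      rw [ev_dot] at hz0 h0
      linarith
    rw [hv.val] at h3
    have h4 := (Finset.sum_eq_zero_iff_of_nonneg (fun l _ => mul_nonneg (hn l) (hv.pos z hz l))).1 h3 i
      (Finset.mem_univ i)
    rcases mul_eq_zero.1 h4 with h5 | h5
    · exact absurd h5 hi.ne'
    · exact h5
  have hz1 := hz _ hv'.mem (by rw [Fa.eval h1 h2]; simp)
  have hz2 : ∀ l, l ≠ k → emb (a i) ⬝ᵥ emb (b' l) = 0 := by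
    intro l hl
    have := hz _ (hv'.edge l) (by
      rw [Fa.eval h1 h2, add_sub_cancel_left, hv'.dualR, if_neg hl.symm])
    have e : emb v' + emb (b' l) - emb v = (emb v' - emb v) + emb (b' l) := by abel
    rw [e, dotProduct_add, hz1, zero_add] at this
    exact this
  have h3 : emb (a i) = (emb (a i) ⬝ᵥ emb (b' k)) • emb f.1 := by
    conv_lhs => rw [← hv'.exp' (emb (a i))]
    rw [Finset.sum_eq_single k, h1]
    · intro l _ hl
      rw [hz2 l hl, zero_smul]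
    · intro h
      exact absurd (Finset.mem_univ k) h
  have h4 : (emb (a i) ⬝ᵥ emb (b' k)) * (emb f.1 ⬝ᵥ emb (b i)) = 1 := by
    have := hv.dualR i i
    rw [if_pos rfl] at this
    rw [← this]
    conv_rhs => rw [h3]
    rw [smul_dotProduct, smul_eq_mul]
  rw [emb_dot, emb_dot] at h4
  have h5 : (∑ l, a i l * b' k l) * (∑ l, f.1 l * b i l) = 1 := by exact_mod_cast h4
  have h6 : 0 < ∑ l, f.1 l * b i l := by
    rw [emb_dot] at hi
    exact_mod_cast hi
  have h7 : ∑ l, a i l * b' k l = 1 := by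
    rcases Int.eq_one_or_neg_one_of_mul_eq_one h5 with h | h
    · exact h
    · rw [h] at h5
      omega
  have h8 : f.1 = a i := by
    apply emb_injective
    conv_rhs => rw [h3]
    rw [emb_dot, h7]
    simp
  refine ⟨i, Prod.ext h8 ?_⟩
  rw [ev_dot, h8, emb_dot] at h0
  have h9 : ∑ l, a i l * v l + f.2 = 0 := by exact_mod_cast h0
  show f.2 = -∑ l, a i l * v l
  omega

theorem extract {d N : ℕ} {P : Set (Fin d → ℝ)} (hP : IsSmooth P) (A : Fin N → Fin d → ℝ) (b : Fin N → ℝ)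
    (hA : P = {x | ∀ j, ∑ i, A j i * x i ≤ b j}) :
    ∃ (a : Fin N → Fin d → ℤ) (h : Fin N → ℤ), P = pol a h ∧ TS a h := by
  classical
  have hA' : P = {x | ∀ j, A j ⬝ᵥ x ≤ b j} := hA
  have hcomp : IsCompact P := by
    obtain ⟨⟨A₀, -, hA₀⟩, -⟩ := hP
    rw [hA₀]
    exact hull_isCompact A₀
  have hrow : ∀ f : (Fin d → ℤ) × ℤ, ∃ j : Option (Fin N), Fa P f → ∃ j', j = some j' ∧
      ∃ c : ℝ, 0 < c ∧ A j' = -c • emb f.1 ∧ b j' = c * (f.2 : ℝ) := by
    intro f
    by_cases hf : Fa P f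
    · obtain ⟨j, hj⟩ := Fa.row A b hA' hf
      exact ⟨some j, fun _ => ⟨j, rfl, hj⟩⟩
    · exact ⟨none, fun h => absurd h hf⟩
  choose J hJ using hrow
  have hJinj : ∀ f g, Fa P f → Fa P g → J f = J g → f = g := by
    intro f g hf hg hfg
    obtain ⟨j, hj, c, hc, h1, h2⟩ := hJ f hf
    obtain ⟨j', hj', e, he, h3, h4⟩ := hJ g hg
    have hjj : j = j' := by
      rw [hj, hj'] at hfg
      exact Option.some_injective _ hfg
    subst hjj
    refine Fa.uniq hf hg hc he ?_ ?_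
    · rw [h1] at h3
      rw [neg_smul, neg_smul] at h3
      exact neg_injective h3
    · rw [← h2, ← h4]
  let ρ : Fin N → (Fin d → ℤ) × ℤ := fun j => if h : ∃ f, Fa P f ∧ J f = some j then h.choose else (0, 1)
  have hρ1 : ∀ j, (Fa P (ρ j) ∧ J (ρ j) = some j) ∨ ρ j = (0, 1) := by
    intro j
    by_cases h : ∃ f, Fa P f ∧ J f = some j
    · left
      simp only [ρ, dif_pos h]
      exact h.choose_spec
    · right
      simp only [ρ, dif_neg h]
  have hρ2 : ∀ f, Fa P f → ∃ j, J f = some j ∧ ρ j = f := by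
    intro f hf
    obtain ⟨j, hj, -⟩ := hJ f hf
    refine ⟨j, hj, ?_⟩
    have h : ∃ f, Fa P f ∧ J f = some j := ⟨f, hf, hj⟩
    simp only [ρ, dif_pos h]
    exact hJinj _ _ h.choose_spec.1 hf (h.choose_spec.2.trans hj.symm)
  have hev01 : ∀ x : Fin d → ℝ, ev (0 : Fin d → ℤ) 1 x = 1 := by
    intro x
    simp [ev]
  have hPpol : P = pol (fun j => (ρ j).1) (fun j => (ρ j).2) := by
    ext y
    constructor
    · intro hy j
      rcases hρ1 j with h | h
      · exact h.1.nonneg hy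
      · show 0 ≤ ev (ρ j).1 (ρ j).2 y
        rw [h, hev01]
        exact zero_le_one
    · intro hy
      refine mem_of_fa hP A b hA' fun f hf => ?_
      obtain ⟨j, -, hj⟩ := hρ2 f hf
      rw [← hj]
      exact hy j
  refine ⟨fun j => (ρ j).1, fun j => (ρ j).2, hPpol, ?_⟩
  intro x hx c
  rw [← hPpol] at hx
  obtain ⟨x', hx', hx'0⟩ := ext_face hcomp {g | ∃ f, Fa P f ∧ ev f.1 f.2 x = 0 ∧ g = (emb f.1, (f.2 : ℝ))}
    (by
      rintro g ⟨f, hf, -, rfl⟩ y hy
      exact hf.nonneg hy) hx (by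
      rintro g ⟨f, hf, h, rfl⟩
      exact h)
  obtain ⟨v, b', a', rfl, hv⟩ := exists_vd hP hx'
  have hfi : ∀ i, Fa P (a' i, -∑ k, a' i k * v k) := fun i => ⟨v, b', a', i, hv, rfl, rfl⟩
  choose j hj1 hj2 using fun i => hρ2 _ (hfi i)
  refine ⟨∑ i, c (j i) • b' i, fun l hl => ?_⟩
  rcases hρ1 l with h | h
  · have h0 : ev (ρ l).1 (ρ l).2 (emb v) = 0 := hx'0 _ ⟨ρ l, h.1, hl, rfl⟩
    obtain ⟨i, hi⟩ := h.1.vert hv h0
    have hli : l = j i := by
      have := hj1 i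
      rw [← hi, h.2] at this
      exact Option.some_injective _ this
    have e1 : (ρ l).1 = a' i := by rw [hi]
    have e2 : ∑ k, (ρ l).1 k * (∑ m, c (j m) • b' m) k = ∑ m, c (j m) * ∑ k, a' i k * b' m k := by
      rw [e1]
      simp only [Finset.sum_apply, Pi.smul_apply, smul_eq_mul, Finset.mul_sum]
      rw [Finset.sum_comm]
      exact Finset.sum_congr rfl fun m _ => Finset.sum_congr rfl fun k _ => by ring
    show ∑ k, (ρ l).1 k * (∑ m, c (j m) • b' m) k = c l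
    rw [e2]
    simp only [hv.dual, mul_ite, mul_one, mul_zero, Finset.sum_ite_eq, Finset.mem_univ, if_true]
    rw [hli]
  · exfalso
    have : ev (ρ l).1 (ρ l).2 x = 0 := hl
    rw [h, hev01] at this
    exact one_ne_zero this

end Pool.Agent.SPP
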