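import Pool.Agent.SPP.AsmA

/-!
# [SPP-Asm] assembly: systems with three more rows than the dimension
-/

open Finset

set_option autoImplicit false
set_option linter.unusedSectionVars false

namespace Pool.Agent.SPP

open Pool.Agent.SPB

variable {J n : Type} [Fintype J] [Fintype n] [DecidableEq J] [DecidableEq n]

/-- pairing with a dual basis vector -/
private theorem pair_dual {a : J → n → ℤ} {h : J → ℤ} {v : n → ℤ} {b : J → n → ℤ} (hv : Vert a h v b) {i j : J}
    (hi : i ∈ tight a h v) (hj : j ∈ tight a h v) : ∑ k, a i k * b j k = if i = j then 1 else 0 := hv.dual i hi j hj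

/-- a relation between the rows, paired with a dual basis vector -/
private theorem rel_pair {a : J → n → ℤ} {m : J → ℤ} (hm : ∀ k, ∑ j, m j * a j k = 0) (y : n → ℤ) :
    ∑ j, m j * ∑ k, a j k * y k = 0 := by
  simp only [Finset.mul_sum]
  rw [Finset.sum_comm]
  refine Finset.sum_eq_zero fun k _ => ?_
  have := hm k
  have e : ∑ j, m j * (a j k * y k) = (∑ j, m j * a j k) * y k := by
    rw [Finset.sum_mul]
    exact Finset.sum_congr rfl fun j _ => by ring
  rw [e, this, zero_mul]

theorem sys_rut (hJ : Fintype.card J = Fintype.card n + 3) {a : J → n → ℤ} {h : J → ℤ}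
    (hK : IsCompact (pol a h)) (hne : (pol a h).Nonempty) (hT : TS a h) : HasRUT (pol a h) := by
  classical
  obtain ⟨x₀, hx₀⟩ := hne
  obtain ⟨v₀, b₀, hv₀, -, -⟩ := exists_vert hK hT ∅ ⟨x₀, hx₀, fun j hj => absurd hj (Finset.notMem_empty j)⟩ 0
  by_cases h0 : (∅ : Finset J) = tight a h v₀
  · -- dimension zero
    have hcard := hv₀.card
    rw [← h0, Finset.card_empty] at hcard
    have hemp : IsEmpty n := Fintype.card_eq_zero_iff.1 hcard.symm
    have hset : pol a h = PI (0 : Fin 3 → n → ℤ) (fun _ => 0) ∅ ∅ := by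
      ext x
      constructor
      · intro _
        exact ⟨fun i => (hemp.false i).elim, fun i => (hemp.false i).elim,
          fun k hk => absurd hk (Finset.notMem_empty k)⟩
      · intro _
        have : x = x₀ := funext fun i => (hemp.false i).elim
        rw [this]
        exact hx₀
    rw [hset]
    exact hasRUT_of_RT (base0 (fun k hk => absurd hk (Finset.notMem_empty k)) 0)
  -- the first collection
  obtain ⟨C, m, ⟨i₀, hi₀⟩, -, hmC, hm0, hmr, hCn, hCe, -⟩ := exists_coll hK hT ∅ hv₀ (Finset.empty_subset _) h0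
  rw [Finset.empty_union] at hCn
  have hCe' : ∀ j ∈ C, IsF a h (C.erase j) := by
    intro j hj
    have := hCe j hj
    rwa [Finset.empty_union] at this
  have hm : ∀ j, m j = if j ∈ C then 1 else 0 := by
    intro j
    by_cases hj : j ∈ C
    · rw [hmC j hj, if_pos hj]
    · rw [hm0 j hj (Finset.notMem_empty j), if_neg hj]
  set D := C.erase i₀ with hDdef
  have hDF : IsF a h D := hCe' i₀ hi₀
  have hDC : ∀ j ∈ D, j ∈ C ∧ j ≠ i₀ := fun j hj => ⟨Finset.mem_of_mem_erase hj, Finset.ne_of_mem_erase hj⟩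
  have hi₀D : i₀ ∉ D := by simp [hDdef]
  -- `i₀` is not tight at the vertices of the face `D`
  have hi₀t : ∀ v : n → ℤ, emb v ∈ pol a h → D ⊆ tight a h v → i₀ ∉ tight a h v := by
    intro v hv hDv hi
    apply hCn
    refine ⟨emb v, hv, fun j hj => ?_⟩
    by_cases hji : j = i₀
    · rw [hji]
      exact mem_tight.1 hi
    · exact mem_tight.1 (hDv (Finset.mem_erase.2 ⟨hji, hj⟩))
  -- the row `i₀` in coordinates
  have hrow0 : ∀ (v : n → ℤ) (b : J → n → ℤ), Vert a h v b → D ⊆ tight a h v → ∀ j ∈ tight a h v,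
      ∑ k, a i₀ k * b j k = if j ∈ D then -1 else 0 := by
    intro v b hv hDv j hj
    have h1 := rel_pair hmr (b j)
    rw [← Finset.add_sum_erase univ _ (Finset.mem_univ i₀), hm i₀, if_pos hi₀, one_mul] at h1
    have h2 : ∑ x ∈ univ.erase i₀, m x * ∑ k, a x k * b j k = if j ∈ D then 1 else 0 := by
      have e1 : ∑ x ∈ univ.erase i₀, m x * ∑ k, a x k * b j k = ∑ x ∈ D, ∑ k, a x k * b j k := by
        rw [← Finset.sum_subset (Finset.subset_univ D |> fun _ => (fun x hx => Finset.mem_erase.2
          ⟨(hDC x hx).2, Finset.mem_univ x⟩ : D ⊆ univ.erase i₀)) (f := fun x => m x * ∑ k, a x k * b j k)]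
        · refine Finset.sum_congr rfl fun x hx => ?_
          rw [hm x, if_pos (hDC x hx).1, one_mul]
        · intro x hx hxD
          have hxC : x ∉ C := fun h' => hxD (Finset.mem_erase.2 ⟨Finset.ne_of_mem_erase hx, h'⟩)
          rw [hm x, if_neg hxC, zero_mul]
      rw [e1, Finset.sum_congr rfl fun x hx => pair_dual hv (hDv hx) hj, Finset.sum_ite_eq' D j]
    rw [h2] at h1
    split_ifs at h1 ⊢ with h3
    · linarith
    · linarith
  -- the faces over the vertices
  have hface : ∀ u ∈ D, ∃ x ∈ pol a h, (∀ j ∈ D, j ≠ u → ev (a j) (h j) x = 0) ∧ ev (a i₀) (h i₀) x = 0 := by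
    intro u hu
    obtain ⟨x, hx, hx0⟩ := hCe' u (hDC u hu).1
    exact ⟨x, hx, fun j hj hju => hx0 j (Finset.mem_erase.2 ⟨hju, (hDC j hj).1⟩),
      hx0 i₀ (Finset.mem_erase.2 ⟨fun h' => (hDC u hu).2 h'.symm, hi₀⟩)⟩
  obtain ⟨v₁, b₁, hv₁, hDv₁, -⟩ := exists_vert hK hT D hDF 0
  by_cases h1 : D = tight a h v₁
  · -- the polytope is a simplex
    have hi₀v := hi₀t v₁ hv₁.mem hDv₁
    have hcard : (univ \ tight a h v₁).card = 3 := by
      rw [Finset.card_sdiff_of_subset (Finset.subset_univ _), Finset.card_univ, hv₁.card, hJ]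
      omega
    have hc2 : ((univ \ tight a h v₁).erase i₀).card = 2 := by
      rw [Finset.card_erase_of_mem (by simp [hi₀v]), hcard]
    obtain ⟨i₁, i₂, h12, he⟩ := Finset.card_eq_two.1 hc2
    have hi₁ : i₁ ∈ (univ \ tight a h v₁).erase i₀ := by rw [he]; simp
    have hi₂ : i₂ ∈ (univ \ tight a h v₁).erase i₀ := by rw [he]; simp
    rw [Finset.mem_erase, Finset.mem_sdiff] at hi₁ hi₂
    refine fin_case hT hv₁ ![i₀, i₁, i₂] ?_ ?_ ?_ D ∅ (Finset.disjoint_empty_right D) hDv₁ ?_ ?_ ?_ hface
    · intro j hj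
      by_cases hji : j = i₀
      · exact ⟨0, hji.symm⟩
      · have : j ∈ (univ \ tight a h v₁).erase i₀ := by
          rw [Finset.mem_erase, Finset.mem_sdiff]
          exact ⟨hji, Finset.mem_univ j, hj⟩
        rw [he, Finset.mem_insert, Finset.mem_singleton] at this
        rcases this with rfl | rfl
        · exact ⟨1, rfl⟩
        · exact ⟨2, rfl⟩
    · intro k
      fin_cases k
      · exact hi₀v
      · exact hi₁.2.2
      · exact hi₂.2.2
    · intro k l hkl
      fin_cases k <;> fin_cases l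
      · rfl
      · exact absurd hkl.symm hi₁.1
      · exact absurd hkl.symm hi₂.1
      · exact absurd hkl hi₁.1
      · rfl
      · exact absurd hkl h12
      · exact absurd hkl hi₂.1
      · exact absurd hkl.symm h12
      · rfl
    · exact hrow0 v₁ b₁ hv₁ hDv₁
    · intro j hj hjD
      rw [h1] at hjD
      exact absurd hj hjD
    · intro j hj hjD
      rw [h1] at hjD
      exact absurd hj hjD
  · -- the second collection
    obtain ⟨C', m', hC'ne, hdisj, hm'C, hm'0, hm'r, hC'n, hC'e, hC'i⟩ := exists_coll hK hT D hv₁ hDv₁ h1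
    have hi₀C' : i₀ ∉ C' := by
      intro hi
      apply hCn
      have := hC'i i₀ hi
      rwa [hDdef, Finset.insert_erase hi₀] at this
    set E : Finset J := univ.filter (fun j => j ∉ C ∧ j ∉ C') with hE
    have hEm : ∀ j, j ∈ E ↔ j ∉ C ∧ j ∉ C' := by
      intro j
      rw [hE, Finset.mem_filter]
      simp
    obtain ⟨v, b, hv, hDv, hpos⟩ := exists_vert hK hT D hDF (fun k => - ∑ j ∈ E, a j k)
    have hi₀v := hi₀t v hv.mem hDv
    obtain ⟨i₁, hi₁C', hi₁v⟩ : ∃ i₁ ∈ C', i₁ ∉ tight a h v := by
      by_contra hcon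
      push Not at hcon
      apply hC'n
      refine ⟨emb v, hv.mem, fun j hj => ?_⟩
      rcases Finset.mem_union.1 hj with hj | hj
      · exact mem_tight.1 (hDv hj)
      · exact mem_tight.1 (hcon j hj)
    -- `E` is nonempty
    have hEne : E.Nonempty := by
      by_contra hcon
      rw [Finset.not_nonempty_iff_eq_empty] at hcon
      obtain ⟨v₂, b₂, hv₂, hDv₂, -⟩ := exists_vert hK hT (D ∪ C'.erase i₁) (hC'e i₁ hi₁C') 0
      have k1 := Finset.card_le_card hDv₂
      rw [hv₂.card, Finset.card_union_of_disjoint (Finset.disjoint_left.2 fun j hj hj' =>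
        Finset.disjoint_left.1 hdisj (Finset.mem_of_mem_erase hj') hj), hDdef, Finset.card_erase_of_mem hi₀,
        Finset.card_erase_of_mem hi₁C'] at k1
      have k2 : (univ : Finset J) ⊆ C ∪ C' := by
        intro j _
        by_contra hj
        rw [Finset.mem_union, not_or] at hj
        have := (hEm j).2 hj
        rw [hcon] at this
        exact absurd this (Finset.notMem_empty j)
      have k3 := Finset.card_le_card k2
      rw [Finset.card_univ, hJ] at k3
      have k4 := Finset.card_union_le C C'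
      have k5 : 0 < C.card := Finset.card_pos.2 ⟨i₀, hi₀⟩
      have k6 : 0 < C'.card := Finset.card_pos.2 hC'ne
      omega
    -- the value of the minimised functional on the dual basis
    have hval : ∀ j, ∑ k, (- ∑ i ∈ E, a i k) * b j k = - ∑ i ∈ E, ∑ k, a i k * b j k := by
      intro j
      simp only [neg_mul, Finset.sum_neg_distrib, Finset.sum_mul]
      rw [Finset.sum_comm]
    obtain ⟨i₂, hi₂E, hi₂v⟩ : ∃ i₂ ∈ E, i₂ ∉ tight a h v := by
      by_contra hcon
      push Not at hcon
      obtain ⟨j, hj⟩ := hEne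
      have hjD : j ∉ D := fun h' => ((hEm j).1 hj).1 (hDC j h').1
      have k1 := hpos j (hcon j hj) hjD
      rw [hval, Finset.sum_congr rfl fun i hi => pair_dual hv (hcon i hi) (hcon j hj), Finset.sum_ite_eq' E j,
        if_pos hj] at k1
      omega
    have hi₂ := (hEm i₂).1 hi₂E
    have h01 : i₀ ≠ i₁ := fun h' => hi₀C' (h' ▸ hi₁C')
    have h02 : i₀ ≠ i₂ := fun h' => hi₂.1 (h' ▸ hi₀)
    have h12 : i₁ ≠ i₂ := fun h' => hi₂.2 (h' ▸ hi₁C')
    have hthree : univ \ tight a h v = {i₀, i₁, i₂} := by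
      symm
      apply Finset.eq_of_subset_of_card_le
      · intro j hj
        rw [Finset.mem_sdiff]
        simp only [Finset.mem_insert, Finset.mem_singleton] at hj
        rcases hj with rfl | rfl | rfl
        · exact ⟨Finset.mem_univ _, hi₀v⟩
        · exact ⟨Finset.mem_univ _, hi₁v⟩
        · exact ⟨Finset.mem_univ _, hi₂v⟩
      · rw [Finset.card_sdiff_of_subset (Finset.subset_univ _), Finset.card_univ, hv.card, hJ,
          Finset.card_eq_three.2 ⟨i₀, i₁, i₂, h01, h02, h12, rfl⟩]
        omega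
    have hout : ∀ j, j ∉ tight a h v → j = i₀ ∨ j = i₁ ∨ j = i₂ := by
      intro j hj
      have : j ∈ univ \ tight a h v := Finset.mem_sdiff.2 ⟨Finset.mem_univ j, hj⟩
      rw [hthree] at this
      simpa using this
    have hC't : ∀ j ∈ C', j ≠ i₁ → j ∈ tight a h v := by
      intro j hj hji
      by_contra hcon
      rcases hout j hcon with rfl | rfl | rfl
      · exact hi₀C' hj
      · exact hji rfl
      · exact hi₂.2 hj
    have hEt : ∀ j ∈ E, j ≠ i₂ → j ∈ tight a h v := by
      intro j hj hji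
      by_contra hcon
      rcases hout j hcon with rfl | rfl | rfl
      · exact ((hEm _).1 hj).1 hi₀
      · exact ((hEm _).1 hj).2 hi₁C'
      · exact hji rfl
    refine fin_case hT hv ![i₀, i₁, i₂] ?_ ?_ ?_ D C' hdisj.symm hDv ?_ ?_ ?_ hface
    · intro j hj
      rcases hout j hj with rfl | rfl | rfl
      · exact ⟨0, rfl⟩
      · exact ⟨1, rfl⟩
      · exact ⟨2, rfl⟩
    · intro k
      fin_cases k
      · exact hi₀v
      · exact hi₁v
      · exact hi₂v
    · intro k l hkl
      fin_cases k <;> fin_cases l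
      · rfl
      · exact absurd hkl h01
      · exact absurd hkl h02
      · exact absurd hkl.symm h01
      · rfl
      · exact absurd hkl h12
      · exact absurd hkl.symm h02
      · exact absurd hkl.symm h12
      · rfl
    · exact hrow0 v b hv hDv
    · intro j hj hjD
      show ∑ k, a i₁ k * b j k = if j ∈ C' then -1 else 0
      have k1 := rel_pair hm'r (b j)
      rw [← Finset.add_sum_erase univ _ (Finset.mem_univ i₁), hm'C i₁ hi₁C', one_mul] at k1
      have k2 : ∑ x ∈ univ.erase i₁, m' x * ∑ k, a x k * b j k = if j ∈ C' then 1 else 0 := by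
        have hzero : ∀ x ∈ univ.erase i₁, x ≠ j → m' x * ∑ k, a x k * b j k = 0 := by
          intro x hx hxj
          by_cases hxD : x ∈ D
          · rw [pair_dual hv (hDv hxD) hj, if_neg hxj, mul_zero]
          · by_cases hxC : x ∈ C'
            · rw [pair_dual hv (hC't x hxC (Finset.ne_of_mem_erase hx)) hj, if_neg hxj, mul_zero]
            · rw [hm'0 x hxC hxD, zero_mul]
        have hji₁ : j ≠ i₁ := fun h' => hi₁v (h' ▸ hj)
        rw [Finset.sum_eq_single j hzero (fun h' => absurd (Finset.mem_erase.2 ⟨hji₁, Finset.mem_univ j⟩) h'),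
          pair_dual hv hj hj, if_pos rfl, mul_one]
        by_cases hjC : j ∈ C'
        · rw [hm'C j hjC, if_pos hjC]
        · rw [hm'0 j hjC hjD, if_neg hjC]
      rw [k2] at k1
      split_ifs at k1 ⊢ with h3
      · linarith
      · linarith
    · intro j hj hjD
      show ∑ k, a i₂ k * b j k ≤ if j ∈ C' then 0 else -1
      have k1 := hpos j hj hjD
      rw [hval, ← Finset.add_sum_erase E _ hi₂E] at k1
      have hji₀ : j ≠ i₀ := fun h' => hi₀v (h' ▸ hj)
      have hjC : j ∉ C := fun h' => hjD (Finset.mem_erase.2 ⟨hji₀, h'⟩)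
      have hji₂ : j ≠ i₂ := fun h' => hi₂v (h' ▸ hj)
      have k2 : ∑ x ∈ E.erase i₂, ∑ k, a x k * b j k = if j ∈ C' then 0 else 1 := by
        rw [Finset.sum_congr rfl fun x hx => pair_dual hv (hEt x (Finset.mem_of_mem_erase hx)
          (Finset.ne_of_mem_erase hx)) hj, Finset.sum_ite_eq' _ j]
        by_cases hjC' : j ∈ C'
        · rw [if_pos hjC', if_neg (fun h' => ((hEm j).1 (Finset.mem_of_mem_erase h')).2 hjC')]
        · rw [if_neg hjC', if_pos (Finset.mem_erase.2 ⟨hji₂, (hEm j).2 ⟨hjC, hjC'⟩⟩)]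
      rw [k2] at k1
      split_ifs at k1 ⊢ with h3
      · linarith
      · linarith

end Pool.Agent.SPP
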