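import Pool.Agent.SPP.Defs

/-!
# [SPP-Cov] the lower faces cover the polytope (no interior needed)

Induction on the codimension of `V = vectorSpan ℝ (hull A)`. `A = ∅` trivial. Let `p₀ ∈ A`. If all `e_i ∈ V` then `V = ⊤`, `hull A` has nonempty interior
(`Convex.interior_nonempty_iff_affineSpan_eq_top`, as in `IsSmooth.interior` of SPB/Smo) and `covers` of SPB/Cover applies. Otherwise let `e_i ∉ V`, `A' = A ∪ {p₀ + e_i}`, with the same `w`;
`V(A')` is larger. For `x ∈ hull A ⊆ hull A'` we get `(a, b)` with `x ∈ hull (contact A' w a b)`; write `x = ∑ l_y y`; `x - p₀ ∈ V` and `y - p₀ ∈ V` for `y ∈ A`, so `l_{p₀ + e_i} e_i ∈ V`,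
so this `l` vanishes and `x ∈ hull (contact A w a b)`.
-/

open Finset

set_option autoImplicit false

namespace Pool.Agent.SPP

open Pool.Agent.SPB

private theorem cov_sub {ι : Type} [Fintype ι] {A s : Finset (ι → ℤ)} {p₀ : ι → ℤ} (hp : p₀ ∈ A) (hs : s ⊆ A)
    {l : (ι → ℤ) → ℝ} : ∑ y ∈ s, l y • (emb y - emb p₀) ∈ vectorSpan ℝ (emb '' (A : Set (ι → ℤ))) := by
  refine Submodule.sum_mem _ fun y hy => Submodule.smul_mem _ _ ?_
  exact vsub_mem_vectorSpan ℝ ⟨y, hs hy, rfl⟩ ⟨p₀, hp, rfl⟩

private theorem cov_eq {ι : Type} [Fintype ι] {s : Finset (ι → ℤ)} (p₀ : ι → ℤ) {x : ι → ℝ}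
    {l : (ι → ℤ) → ℝ} (h1 : ∑ y ∈ s, l y = 1) (h2 : ∀ i, ∑ y ∈ s, l y * (y i : ℝ) = x i) :
    ∑ y ∈ s, l y • (emb y - emb p₀) = x - emb p₀ := by
  funext i
  rw [Finset.sum_apply]
  simp only [Pi.smul_apply, Pi.sub_apply, smul_eq_mul, mul_sub, Finset.sum_sub_distrib]
  rw [← Finset.sum_mul, h1, one_mul]
  congr 1
  exact h2 i

private theorem cov_aux {ι : Type} [Fintype ι] (w : (ι → ℤ) → ℝ) : ∀ (d : ℕ) (A : Finset (ι → ℤ)), A.Nonempty →
    Fintype.card ι ≤ Module.finrank ℝ (vectorSpan ℝ (emb '' (A : Set (ι → ℤ)))) + d → Covers (hull A) A w := by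
  classical
  intro d
  induction d with
  | zero =>
    intro A hA hd
    have hne : (hull A).Nonempty := by
      obtain ⟨a, ha⟩ := hA
      exact ⟨emb a, subset_convexHull ℝ _ ⟨a, ha, rfl⟩⟩
    have hne' : (emb '' (A : Set (ι → ℤ))).Nonempty := by
      obtain ⟨a, ha⟩ := hA
      exact ⟨emb a, ⟨a, ha, rfl⟩⟩
    have htop : vectorSpan ℝ (emb '' (A : Set (ι → ℤ))) = ⊤ := by
      apply Submodule.eq_top_of_finrank_eq
      have h1 : Module.finrank ℝ (ι → ℝ) = Fintype.card ι := Module.finrank_fintype_fun_eq_card ℝ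
      have h2 := Submodule.finrank_le (vectorSpan ℝ (emb '' (A : Set (ι → ℤ))))
      omega
    have h3 : affineSpan ℝ (emb '' (A : Set (ι → ℤ))) = ⊤ :=
      (AffineSubspace.affineSpan_eq_top_iff_vectorSpan_eq_top_of_nonempty ℝ _ _ hne').2 htop
    have h4 : (interior (hull A)).Nonempty := by
      unfold hull
      rw [interior_convexHull_nonempty_iff_affineSpan_eq_top]
      exact h3
    exact covers h4 w
  | succ d ih =>
    intro A hA hd
    obtain ⟨p₀, hp₀⟩ := hA
    by_cases hall : ∀ i : ι, (Pi.single i 1 : ι → ℝ) ∈ vectorSpan ℝ (emb '' (A : Set (ι → ℤ)))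
    · apply ih A ⟨p₀, hp₀⟩
      have htop : vectorSpan ℝ (emb '' (A : Set (ι → ℤ))) = ⊤ := by
        rw [eq_top_iff]
        intro v _
        have e : v = ∑ i, v i • (Pi.single i 1 : ι → ℝ) := by
          funext j
          simp [Finset.sum_apply, Pi.single_apply]
        rw [e]
        exact Submodule.sum_mem _ fun i _ => Submodule.smul_mem _ _ (hall i)
      rw [htop, finrank_top, Module.finrank_fintype_fun_eq_card ℝ]
      omega
    · push Not at hall
      obtain ⟨i, hi⟩ := hall
      obtain ⟨q, hq⟩ : ∃ q : ι → ℤ, q = p₀ + Pi.single i 1 := ⟨_, rfl⟩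
      have hqe : emb q - emb p₀ = (Pi.single i 1 : ι → ℝ) := by
        funext j
        rw [hq]
        simp only [emb, Pi.sub_apply, Pi.add_apply]
        push_cast
        by_cases hj : j = i
        · subst hj; simp
        · simp [Pi.single_eq_of_ne hj]
      have hqA : q ∉ A := by
        intro h
        apply hi
        rw [← hqe]
        exact vsub_mem_vectorSpan ℝ ⟨q, h, rfl⟩ ⟨p₀, hp₀, rfl⟩
      have hcov := ih (insert q A) (Finset.insert_nonempty _ _) (by
        have hlt : vectorSpan ℝ (emb '' (A : Set (ι → ℤ))) <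
            vectorSpan ℝ (emb '' ((insert q A : Finset (ι → ℤ)) : Set (ι → ℤ))) := by
          refine lt_of_le_of_ne (vectorSpan_mono ℝ (Set.image_mono fun x hx => ?_)) ?_
          · exact Finset.mem_insert_of_mem hx
          · intro h
            apply hi
            rw [h, ← hqe]
            exact vsub_mem_vectorSpan ℝ ⟨q, Finset.mem_insert_self _ _, rfl⟩
              ⟨p₀, Finset.mem_insert_of_mem hp₀, rfl⟩
        have := Submodule.finrank_lt_finrank_of_lt hlt
        omega)
      intro x hx
      have hx' : x ∈ hull (insert q A) :=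
        convexHull_mono (Set.image_mono fun y hy => Finset.mem_insert_of_mem hy) hx
      obtain ⟨a, b, hab, hxc⟩ := hcov x hx'
      refine ⟨a, b, fun y hy => hab y (Finset.mem_insert_of_mem hy), ?_⟩
      obtain ⟨l, l0, l1, l2⟩ := mem_hull.1 hxc
      obtain ⟨m, m0, m1, m2⟩ := mem_hull.1 hx
      have hxV : x - emb p₀ ∈ vectorSpan ℝ (emb '' (A : Set (ι → ℤ))) := by
        rw [← cov_eq p₀ m1 m2]
        exact cov_sub hp₀ (Finset.Subset.refl A)
      have hmC : ∀ y, y ∈ contact (insert q A) w a b ↔
          (y = q ∨ y ∈ A) ∧ ∑ i, a i * (y i : ℝ) + b = w y := by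
        intro y
        rw [contact, Finset.mem_filter, Finset.mem_insert]
      have hmD : ∀ y, y ∈ contact A w a b ↔ y ∈ A ∧ ∑ i, a i * (y i : ℝ) + b = w y := by
        intro y
        rw [contact, Finset.mem_filter]
      have hqD : q ∉ contact A w a b := fun h => hqA ((hmD q).1 h).1
      have hDA : contact A w a b ⊆ A := fun y hy => ((hmD y).1 hy).1
      by_cases hqC : q ∈ contact (insert q A) w a b
      · have hC : contact (insert q A) w a b = insert q (contact A w a b) := by
          ext y
          rw [hmC, Finset.mem_insert, hmD]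
          constructor
          · rintro ⟨h1 | h1, h2⟩
            · exact Or.inl h1
            · exact Or.inr ⟨h1, h2⟩
          · rintro (h1 | ⟨h1, h2⟩)
            · exact ⟨Or.inl h1, by rw [h1]; exact ((hmC q).1 hqC).2⟩
            · exact ⟨Or.inr h1, h2⟩
        have h3 := cov_eq p₀ l1 l2
        rw [hC, Finset.sum_insert hqD, hqe] at h3
        have h4 : l q • (Pi.single i 1 : ι → ℝ) ∈ vectorSpan ℝ (emb '' (A : Set (ι → ℤ))) := by
          have h5 : l q • (Pi.single i 1 : ι → ℝ) =
              (x - emb p₀) - ∑ y ∈ contact A w a b, l y • (emb y - emb p₀) := by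
            rw [← h3, add_sub_cancel_right]
          rw [h5]
          exact Submodule.sub_mem _ hxV (cov_sub hp₀ hDA)
        have h6 : l q = 0 := by
          by_contra hne
          apply hi
          have := Submodule.smul_mem _ (l q)⁻¹ h4
          rwa [smul_smul, inv_mul_cancel₀ hne, one_smul] at this
        refine mem_hull.2 ⟨l, fun y hy => l0 y ?_, ?_, fun j => ?_⟩
        · rw [hC]; exact Finset.mem_insert_of_mem hy
        · rw [hC, Finset.sum_insert hqD, h6, zero_add] at l1
          exact l1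
        · have := l2 j
          rw [hC, Finset.sum_insert hqD, h6, zero_mul, zero_add] at this
          exact this
      · have hC : contact (insert q A) w a b = contact A w a b := by
          ext y
          rw [hmC, hmD]
          constructor
          · rintro ⟨h1 | h1, h2⟩
            · exact absurd ((hmC q).2 ⟨Or.inl rfl, by rw [← h1]; exact h2⟩) hqC
            · exact ⟨h1, h2⟩
          · rintro ⟨h1, h2⟩
            exact ⟨Or.inr h1, h2⟩
        rw [hC] at hxc
        exact hxc

theorem covers_gen {ι : Type} [Fintype ι] (A : Finset (ι → ℤ)) (w : (ι → ℤ) → ℝ) : Covers (hull A) A w := by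
  rcases A.eq_empty_or_nonempty with rfl | hA
  · intro x hx
    simp [hull] at hx
  · exact cov_aux w (Fintype.card ι) A hA (Nat.le_add_left _ _)

end Pool.Agent.SPP
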