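import Pool.Agent.SPP.NfD

/-!
# [SPP-Nf] the normal form has good heights
-/

open Finset

set_option autoImplicit false
set_option linter.unusedSectionVars false

namespace Pool.Agent.SPP

open Pool.Agent.SPB

variable {ι : Type} [Fintype ι] [DecidableEq ι] {c : Fin 3 → ι → ℤ} {b : Fin 3 → ℤ} {S W : Finset ι}

private theorem sum_S {y : ι → ℝ} (h : ∀ i, i ∉ S → y i = 0) (a : ι → ℤ) :
    ∑ i, (a i : ℝ) * y i = ∑ i ∈ S, (a i : ℝ) * y i := by
  symm
  refine Finset.sum_subset (Finset.subset_univ S) fun i _ hi => ?_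
  rw [h i hi, mul_zero]

/-- an affine function which is nonnegative at the vertices of the simplex is nonnegative on it -/
theorem NfH.nonneg (H : NfH c b S W) {y : ι → ℝ} (hy : y ∈ PI c b {0} S) (a : ι → ℤ) (β : ℤ) (h0 : 0 ≤ β)
    (hv : ∀ v ∈ S, 0 ≤ β + b 0 * a v) : 0 ≤ ev a β y := by
  obtain ⟨hy0, hyS, hy1⟩ := hy
  have hα : (0 : ℝ) < b 0 := by exact_mod_cast H.pos 0
  have hF := hy1 0 (Finset.mem_singleton_self 0)
  unfold ev at hF ⊢
  rw [sum_S hyS] at hF ⊢
  have e1 : ∑ i ∈ S, (c 0 i : ℝ) * y i = - ∑ i ∈ S, y i := by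
    rw [← Finset.sum_neg_distrib]
    refine Finset.sum_congr rfl fun i hi => ?_
    rw [H.c0S i hi]; push_cast; ring
  rw [e1] at hF
  have e2 : (b 0 : ℝ) * (∑ i ∈ S, (a i : ℝ) * y i + β) = (- ∑ i ∈ S, y i + b 0) * β +
      ∑ i ∈ S, y i * ((β : ℝ) + b 0 * a i) := by
    have : ∑ i ∈ S, y i * ((β : ℝ) + b 0 * a i) = β * ∑ i ∈ S, y i + b 0 * ∑ i ∈ S, (a i : ℝ) * y i := by
      rw [Finset.mul_sum, Finset.mul_sum, ← Finset.sum_add_distrib]
      exact Finset.sum_congr rfl fun i _ => by ring
    rw [this]
    ring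
  have e3 : 0 ≤ (b 0 : ℝ) * (∑ i ∈ S, (a i : ℝ) * y i + β) := by
    rw [e2]
    refine add_nonneg (mul_nonneg hF (by exact_mod_cast h0)) (Finset.sum_nonneg fun i hi => mul_nonneg (hy0 i) ?_)
    exact_mod_cast hv i hi
  exact nonneg_of_mul_nonneg_right e3 hα

theorem NfH.nonneg_val (H : NfH c b S W) {y : ι → ℝ} (hy : y ∈ PI c b {0} S) (k : Fin 3)
    (hv : ∀ u, Va S u → 0 ≤ val c b k u) : 0 ≤ ev (c k) (b k) y := by
  refine H.nonneg hy _ _ (H.pos k).le fun v hv' => ?_
  have := hv (some v) (fun w hw => by cases hw; exact hv')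
  simpa [val] using this

private theorem int_prod {p q : ℤ} (h1 : p ≤ q + 1) (h2 : q ≤ p + 1) : 0 ≤ p * q := by
  rcases lt_trichotomy p 0 with h | h | h
  · exact mul_nonneg_of_nonpos_of_nonpos h.le (by omega)
  · rw [h]; simp
  · exact mul_nonneg h.le (by omega)

/-- the tower case -/
theorem NfH.tower (H : NfH c b S W) (hcov : ∀ (A : Finset (ι → ℤ)) (w : (ι → ℤ) → ℝ), Covers (hull A) A w)
    (ht : ∀ u, Va S u → ∀ i ∈ W, 0 ≤ val c b 2 u + val c b 1 u * c 2 i) : ∃ θ, RT (PI c b univ univ) θ := by
  have h0 := simp_rt hcov (c := c) (b := b) (k₀ := 0) (H.pos 0).le S ∅ (Finset.empty_subset _) H.c0S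
  have e1 : PI c b {0} S = PI c b {0, 1} S := by
    ext y
    constructor
    · intro hy
      refine ⟨hy.1, hy.2.1, fun k hk => ?_⟩
      rcases Finset.mem_insert.1 hk with rfl | hk
      · exact hy.2.2 0 (Finset.mem_singleton_self 0)
      · rw [Finset.mem_singleton.1 hk]
        exact H.nonneg_val hy 1 fun u hu => (H.val1_pos hu).le
    · intro hy
      exact ⟨hy.1, hy.2.1, fun k hk => hy.2.2 k (by rw [Finset.mem_singleton.1 hk]; simp)⟩
  rw [e1] at h0
  have h1 := addA hcov h0 W (fun i _ _ => by simp) (k₁ := 1) (by simp) (fun i hi _ => H.c1W i hi)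
    (fun i hi hi' k hk hk' => by
      rcases Finset.mem_insert.1 hk with rfl | hk
      · exact H.c0 i hi'
      · exact absurd (Finset.mem_singleton.1 hk) hk')
  have e2 : PI c b {0, 1} (S ∪ W) = PI c b univ (S ∪ W) := by
    ext y
    constructor
    · intro hy
      refine ⟨hy.1, hy.2.1, fun k _ => ?_⟩
      have hk2 : 0 ≤ ev (c 2) (b 2) y := by
        -- the part in the simplex
        set s : ι → ℝ := fun i => if i ∈ S then y i else 0 with hs
        have hF : ∀ a : ι → ℤ, ∑ i, (a i : ℝ) * y i = ∑ i, (a i : ℝ) * s i + ∑ i ∈ W, (a i : ℝ) * y i := by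
          intro a
          have e3 : ∑ i ∈ W, (a i : ℝ) * y i = ∑ i, if i ∈ W then (a i : ℝ) * y i else 0 := by
            rw [← Finset.sum_filter]
            refine Finset.sum_congr ?_ fun _ _ => rfl
            ext i; simp
          rw [e3, ← Finset.sum_add_distrib]
          refine Finset.sum_congr rfl fun i _ => ?_
          simp only [hs]
          by_cases hiS : i ∈ S
          · have hiW : i ∉ W := fun h' => Finset.disjoint_left.1 H.disj hiS h'
            simp [hiS, hiW]
          · by_cases hiW : i ∈ W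
            · simp [hiS, hiW]
            · simp only [hiS, hiW, if_false, mul_zero, add_zero]
              rw [hy.2.1 i (by simp [hiS, hiW]), mul_zero]
        have hs0 : s ∈ PI c b {0} S := by
          refine ⟨fun i => ?_, fun i hi => by simp [hs, hi], fun k hk => ?_⟩
          · simp only [hs]
            split_ifs
            · exact hy.1 i
            · exact le_rfl
          · rw [Finset.mem_singleton.1 hk]
            have h3 := hy.2.2 0 (by simp)
            unfold ev at h3 ⊢
            rw [hF] at h3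
            have h4 : ∑ i ∈ W, (c 0 i : ℝ) * y i = 0 := by
              refine Finset.sum_eq_zero fun i hi => ?_
              rw [H.c0 i (fun h' => Finset.disjoint_left.1 H.disj h' hi)]
              simp
            linarith
        have hL : 0 < ev (c 1) (b 1) s := by
          have h3 := H.nonneg hs0 (c 1) (b 1 - 1) (by have := H.pos 1; omega) (fun v hv => by
            have := H.val1_pos (u := some v) (fun w hw => by cases hw; exact hv)
            simp only [val, Option.elim_some] at this
            omega)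
          unfold ev at h3 ⊢
          push_cast at h3
          linarith
        have hM : 0 ≤ ev (c 2) (b 2) s := H.nonneg_val hs0 2 fun u hu => (H.val2_pos hu).le
        have hML : ∀ i ∈ W, 0 ≤ ev (c 2) (b 2) s + ev (c 1) (b 1) s * c 2 i := by
          intro i hi
          have h3 := H.nonneg hs0 (fun j => c 2 j + c 1 j * c 2 i) (b 2 + b 1 * c 2 i) (by
            have := ht none (fun v hv => by cases hv) i hi
            simpa [val] using this) (fun v hv => by
            have := ht (some v) (fun w hw => by cases hw; exact hv) i hi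
            simp only [val, Option.elim_some] at this
            have e : b 2 + b 1 * c 2 i + b 0 * (c 2 v + c 1 v * c 2 i) =
                b 2 + b 0 * c 2 v + (b 1 + b 0 * c 1 v) * c 2 i := by ring
            rw [e]
            exact this)
          have e : ev (fun j => c 2 j + c 1 j * c 2 i) (b 2 + b 1 * c 2 i) s =
              ev (c 2) (b 2) s + ev (c 1) (b 1) s * c 2 i := by
            unfold ev
            push_cast
            simp only [add_mul, Finset.sum_add_distrib, Finset.sum_mul]
            have : ∑ j, (c 1 j : ℝ) * (c 2 i : ℝ) * s j = ∑ j, (c 1 j : ℝ) * s j * (c 2 i : ℝ) :=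
              Finset.sum_congr rfl fun j _ => by ring
            rw [this]
            ring
          rw [e] at h3
          exact h3
        have h1y : 0 ≤ ev (c 1) (b 1) s - ∑ i ∈ W, y i := by
          have h3 := hy.2.2 1 (by simp)
          unfold ev at h3 ⊢
          rw [hF] at h3
          have h4 : ∑ i ∈ W, (c 1 i : ℝ) * y i = - ∑ i ∈ W, y i := by
            rw [← Finset.sum_neg_distrib]
            refine Finset.sum_congr rfl fun i hi => ?_
            rw [H.c1W i hi]; push_cast; ring
          linarith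
        have h2y : ev (c 2) (b 2) y = ev (c 2) (b 2) s + ∑ i ∈ W, (c 2 i : ℝ) * y i := by
          unfold ev
          rw [hF]
          ring
        have e4 : ev (c 1) (b 1) s * ev (c 2) (b 2) y = (ev (c 1) (b 1) s - ∑ i ∈ W, y i) * ev (c 2) (b 2) s +
            ∑ i ∈ W, y i * (ev (c 2) (b 2) s + ev (c 1) (b 1) s * c 2 i) := by
          have : ∑ i ∈ W, y i * (ev (c 2) (b 2) s + ev (c 1) (b 1) s * c 2 i) =
              ev (c 2) (b 2) s * ∑ i ∈ W, y i + ev (c 1) (b 1) s * ∑ i ∈ W, (c 2 i : ℝ) * y i := by
            rw [Finset.mul_sum, Finset.mul_sum, ← Finset.sum_add_distrib]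
            exact Finset.sum_congr rfl fun i _ => by ring
          rw [this, h2y]
          ring
        have e5 : 0 ≤ ev (c 1) (b 1) s * ev (c 2) (b 2) y := by
          rw [e4]
          exact add_nonneg (mul_nonneg h1y hM) (Finset.sum_nonneg fun i hi => mul_nonneg (hy.1 i) (hML i hi))
        exact nonneg_of_mul_nonneg_right e5 hL
      have hk : k = 0 ∨ k = 1 ∨ k = 2 := by
        fin_cases k <;> simp
      rcases hk with rfl | rfl | rfl
      · exact hy.2.2 0 (by simp)
      · exact hy.2.2 1 (by simp)
      · exact hk2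
    · intro hy
      exact ⟨hy.1, hy.2.1, fun k _ => hy.2.2 k (Finset.mem_univ k)⟩
  rw [e2] at h1
  have h2 := addA hcov h1 univ (fun i _ _ => by simp) (k₁ := 2) (Finset.mem_univ 2) (fun i _ hi => by
      rw [Finset.mem_union, not_or] at hi
      exact H.c2_eq hi.1 hi.2)
    (fun i _ hi k _ hk => by
      rw [Finset.mem_union, not_or] at hi
      have hk : k = 0 ∨ k = 1 := by
        fin_cases k
        · exact Or.inl rfl
        · exact Or.inr rfl
        · exact absurd rfl hk
      rcases hk with rfl | rfl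
      · exact H.c0 i hi.1
      · exact H.c1 i hi.1 hi.2)
  rw [Finset.union_eq_right.2 (Finset.subset_univ _)] at h2
  exact ⟨_, h2⟩

/-- the case of five primitive collections, and the limit case -/
theorem NfH.bad (H : NfH c b S W) (hcov : ∀ (A : Finset (ι → ℤ)) (w : (ι → ℤ) → ℝ), Covers (hull A) A w)
    (S₁ : Finset ι) (hS₁ : S₁ ⊆ S) {l₀ : ι} (hl₀ : l₀ ∈ W) (hl : c 2 l₀ = -1) (hW : ∀ i ∈ W, c 2 i = -1 ∨ c 2 i = 0)
    (hs : ∀ x y : ι → ℤ, emb x ∈ PI c b univ S → emb y ∈ PI c b univ S →
      ∑ j, (if j ∈ S₁ then 1 else 0) * x j ≤ ∑ j, (if j ∈ S₁ then 1 else 0) * y j + 1 →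
      ∑ j, (if j ∈ S₁ then 1 else 0) * y j ≤ ∑ j, (if j ∈ S₁ then 1 else 0) * x j + 1 →
      0 ≤ (evz (c 1) (b 1) x - evz (c 2) (b 2) x) * (evz (c 1) (b 1) y - evz (c 2) (b 2) y)) :
    ∃ θ, RT (PI c b univ univ) θ := by
  have h0 := simp_rt hcov (c := c) (b := b) (k₀ := 0) (H.pos 0).le S S₁ hS₁ H.c0S
  have h3 : ∀ k : Fin 3, k = 0 ∨ k = 1 ∨ k = 2 := by
    intro k
    fin_cases k <;> simp
  have e1 : PI c b {0} S = PI c b univ S := by
    ext y
    constructor
    · intro hy
      refine ⟨hy.1, hy.2.1, fun k _ => ?_⟩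
      rcases h3 k with rfl | rfl | rfl
      · exact hy.2.2 0 (Finset.mem_singleton_self 0)
      · exact H.nonneg_val hy 1 fun u hu => (H.val1_pos hu).le
      · exact H.nonneg_val hy 2 fun u hu => (H.val2_pos hu).le
    · intro hy
      exact ⟨hy.1, hy.2.1, fun k _ => hy.2.2 k (Finset.mem_univ k)⟩
  rw [e1] at h0
  have hWS : ∀ i ∈ W, i ∉ S := fun i hi h' => Finset.disjoint_left.1 H.disj h' hi
  have hWS₁ : ∀ i ∈ W, (if i ∈ S₁ then (1 : ℤ) else 0) = 0 := fun i hi => by
    have : i ∉ S₁ := fun h' => hWS i hi (hS₁ h')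
    simp [this]
  have h1 := stepA hcov h0 (hWS l₀ hl₀) (hWS₁ l₀ hl₀) (k₁ := 1) (k₂ := 2) (Finset.mem_univ 1) (Finset.mem_univ 2)
    (H.c1W l₀ hl₀) hl (fun k _ hk1 hk2 => by
      rcases h3 k with rfl | rfl | rfl
      · exact H.c0 l₀ (hWS l₀ hl₀)
      · exact absurd rfl hk1
      · exact absurd rfl hk2) hs
  have h2 := addS hcov h1 (Finset.mem_insert_self l₀ S) (W.filter (fun i => c 2 i = -1)) (fun i hi _ => by
      rw [Finset.mem_filter] at hi
      rw [hWS₁ i hi.1, hWS₁ l₀ hl₀])
    (fun i hi _ k _ => by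
      rw [Finset.mem_filter] at hi
      rcases h3 k with rfl | rfl | rfl
      · rw [H.c0 i (hWS i hi.1), H.c0 l₀ (hWS l₀ hl₀)]
      · rw [H.c1W i hi.1, H.c1W l₀ hl₀]
      · rw [hi.2, hl])
  have h4 := addA hcov h2 W (fun i hi _ => hWS₁ i hi) (k₁ := 1) (Finset.mem_univ 1) (fun i hi _ => H.c1W i hi)
    (fun i hi hi' k _ hk => by
      rcases h3 k with rfl | rfl | rfl
      · exact H.c0 i (hWS i hi)
      · exact absurd rfl hk
      · rcases hW i hi with h5 | h5
        · exact absurd (Finset.mem_union_right _ (Finset.mem_filter.2 ⟨hi, h5⟩)) hi'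
        · exact h5)
  have h5 := addA hcov h4 univ (fun i _ hi => by
      have : i ∉ S₁ := fun h' => hi (by
        rw [Finset.mem_union, Finset.mem_union, Finset.mem_insert]
        exact Or.inl (Or.inl (Or.inr (hS₁ h'))))
      simp [this]) (k₁ := 2) (Finset.mem_univ 2) (fun i _ hi => by
      refine H.c2_eq (fun h' => hi ?_) (fun h' => hi (Finset.mem_union_right _ h'))
      rw [Finset.mem_union, Finset.mem_union, Finset.mem_insert]
      exact Or.inl (Or.inl (Or.inr h')))
    (fun i _ hi k _ hk => by
      have hiS : i ∉ S := fun h' => hi (by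
        rw [Finset.mem_union, Finset.mem_union, Finset.mem_insert]
        exact Or.inl (Or.inl (Or.inr h')))
      have hiW : i ∉ W := fun h' => hi (Finset.mem_union_right _ h')
      rcases h3 k with rfl | rfl | rfl
      · exact H.c0 i hiS
      · exact H.c1 i hiS hiW
      · exact absurd rfl hk)
  rw [Finset.union_eq_right.2 (Finset.subset_univ _)] at h5
  exact ⟨_, h5⟩

theorem nf (hcov : ∀ (A : Finset (ι → ℤ)) (w : (ι → ℤ) → ℝ), Covers (hull A) A w) (H : NfH c b S W) :
    ∃ θ, RT (PI c b univ univ) θ := by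
  by_cases ht : ∀ u, Va S u → ∀ i ∈ W, 0 ≤ val c b 2 u + val c b 1 u * c 2 i
  · exact H.tower hcov ht
  · push Not at ht
    obtain ⟨u₀, hu₀, l₀, hl₀, hneg⟩ := ht
    have hl := H.phi_neg hu₀ hl₀ hneg
    have hW : ∀ i ∈ W, c 2 i = -1 ∨ c 2 i = 0 := by
      intro i hi
      have h1 := H.c2W i hi
      by_cases h2 : c 2 i = 0
      · exact Or.inr h2
      · refine Or.inl (H.phi_neg hu₀ hi ?_)
        rw [hl] at hneg
        have h3 := H.val1_pos hu₀
        have h4 : c 2 i ≤ -1 := by omega
        have h5 := mul_le_mul_of_nonneg_left h4 h3.le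
        linarith
    have hpsi0 : psi c b u₀ < 0 := by
      rw [hl] at hneg
      unfold psi
      linarith
    have hpne : ∀ u, Va S u → psi c b u ≠ 0 := by
      intro u hu h
      have := H.phi_ne hu hl₀
      rw [hl] at this
      unfold psi at h
      exact this (by linarith)
    have hα := H.pos 0
    have hdiff : ∀ x : ι → ℤ, emb x ∈ PI c b univ S → evz (c 1) (b 1) x - evz (c 2) (b 2) x =
        - psi c b none - ∑ v ∈ S, (c 2 v - c 1 v) * x v := by
      intro x hx
      have hxS : ∀ i, i ∉ S → x i = 0 := by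
        intro i hi
        have := hx.2.1 i hi
        unfold emb at this
        exact_mod_cast this
      have e : ∀ a : ι → ℤ, ∑ i, a i * x i = ∑ i ∈ S, a i * x i := by
        intro a
        symm
        refine Finset.sum_subset (Finset.subset_univ S) fun i _ hi => ?_
        rw [hxS i hi, mul_zero]
      unfold evz psi val
      rw [e, e]
      simp only [Option.elim_none, sub_mul, Finset.sum_sub_distrib]
      ring
    by_cases hall : ∀ u, Va S u → psi c b u < 0
    · refine H.bad hcov ∅ (Finset.empty_subset _) hl₀ hl hW ?_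
      intro x y hx hy _ _
      have key : ∀ z : ι → ℤ, emb z ∈ PI c b univ S → 0 ≤ evz (c 1) (b 1) z - evz (c 2) (b 2) z := by
        intro z hz
        have h1 := H.nonneg (y := emb z) ⟨hz.1, hz.2.1, fun k _ => hz.2.2 k (Finset.mem_univ k)⟩
          (fun j => c 1 j - c 2 j) (b 1 - b 2) (by
            have := hall none (fun v hv => by cases hv)
            simp only [psi, val, Option.elim_none, mul_zero, add_zero] at this
            omega) (fun v hv => by
            have := hall (some v) (fun w hw => by cases hw; exact hv)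
            simp only [psi, val, Option.elim_some] at this
            have e : b 1 - b 2 + b 0 * (c 1 v - c 2 v) = -(b 2 + b 0 * c 2 v - (b 1 + b 0 * c 1 v)) := by ring
            rw [e]
            omega)
        rw [ev_emb] at h1
        have h2 : 0 ≤ evz (fun j => c 1 j - c 2 j) (b 1 - b 2) z := by exact_mod_cast h1
        have e : evz (fun j => c 1 j - c 2 j) (b 1 - b 2) z = evz (c 1) (b 1) z - evz (c 2) (b 2) z := by
          unfold evz
          simp only [sub_mul, Finset.sum_sub_distrib]
          ring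
        rwa [e] at h2
      exact mul_nonneg (key x hx) (key y hy)
    · push Not at hall
      obtain ⟨u₁, hu₁, hpsi1⟩ := hall
      have hpsi1 : 0 < psi c b u₁ := lt_of_le_of_ne hpsi1 (Ne.symm (hpne u₁ hu₁))
      have hVS : ∀ v ∈ S, Va S (some v) := fun v hv w hw => by cases hw; exact hv
      have hVn : Va S none := fun v hv => by cases hv
      have hd := fun {u u' : Option ι} => H.psi_diff (u := u) (u' := u') hl₀ hl
      -- the slope
      obtain ⟨σ, hσ, S₁, hS₁, hin, hout⟩ : ∃ σ : ℤ, (σ = 1 ∨ σ = -1) ∧ ∃ S₁ ⊆ S, (∀ v ∈ S₁, c 2 v - c 1 v = σ) ∧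
          ∀ v ∈ S, v ∉ S₁ → c 2 v - c 1 v = 0 := by
        rcases lt_or_gt_of_ne (hpne none hVn) with hn | hn
        · refine ⟨1, Or.inl rfl, S.filter (fun v => 0 < psi c b (some v)), Finset.filter_subset _ _, ?_, ?_⟩
          · intro v hv
            rw [Finset.mem_filter] at hv
            have h1 := hd (hVS v hv.1) hVn hv.2 hn
            rw [psi_some] at h1
            have h2 : b 0 * (c 2 v - c 1 v) = b 0 * 1 := by linarith
            exact mul_left_cancel₀ hα.ne' h2
          · intro v hv hv'
            have h0 : psi c b (some v) < 0 := by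
              rcases lt_or_gt_of_ne (hpne (some v) (hVS v hv)) with h | h
              · exact h
              · exact absurd (Finset.mem_filter.2 ⟨hv, h⟩) hv'
            have h1 := hd hu₁ (hVS v hv) hpsi1 h0
            have h2 := hd hu₁ hVn hpsi1 hn
            rw [psi_some] at h1
            have h3 : b 0 * (c 2 v - c 1 v) = b 0 * 0 := by linarith
            exact mul_left_cancel₀ hα.ne' h3
        · refine ⟨-1, Or.inr rfl, S.filter (fun v => psi c b (some v) < 0), Finset.filter_subset _ _, ?_, ?_⟩
          · intro v hv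
            rw [Finset.mem_filter] at hv
            have h1 := hd hVn (hVS v hv.1) hn hv.2
            rw [psi_some] at h1
            have h2 : b 0 * (c 2 v - c 1 v) = b 0 * (-1) := by linarith
            exact mul_left_cancel₀ hα.ne' h2
          · intro v hv hv'
            have h0 : 0 < psi c b (some v) := by
              rcases lt_or_gt_of_ne (hpne (some v) (hVS v hv)) with h | h
              · exact absurd (Finset.mem_filter.2 ⟨hv, h⟩) hv'
              · exact h
            have h1 := hd (hVS v hv) hu₀ h0 hpsi0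
            have h2 := hd hVn hu₀ hn hpsi0
            rw [psi_some] at h1
            have h3 : b 0 * (c 2 v - c 1 v) = b 0 * 0 := by linarith
            exact mul_left_cancel₀ hα.ne' h3
      refine H.bad hcov S₁ hS₁ hl₀ hl hW ?_
      have hsum : ∀ x : ι → ℤ, ∑ v ∈ S, (c 2 v - c 1 v) * x v = σ * ∑ j, (if j ∈ S₁ then 1 else 0) * x j := by
        intro x
        have e1 : ∑ j, (if j ∈ S₁ then (1 : ℤ) else 0) * x j = ∑ j ∈ S, (if j ∈ S₁ then 1 else 0) * x j := by
          symm
          refine Finset.sum_subset (Finset.subset_univ S) fun i _ hi => ?_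
          rw [if_neg (fun h' => hi (hS₁ h')), zero_mul]
        rw [e1, Finset.mul_sum]
        refine Finset.sum_congr rfl fun v hv => ?_
        by_cases hv' : v ∈ S₁
        · rw [hin v hv', if_pos hv']; ring
        · rw [hout v hv hv', if_neg hv']; ring
      intro x y hx hy h1 h2
      rw [hdiff x hx, hdiff y hy, hsum x, hsum y]
      rcases hσ with rfl | rfl
      · exact int_prod (by linarith) (by linarith)
      · exact int_prod (by linarith) (by linarith)

end Pool.Agent.SPP
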