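import Pool.Agent.SPP.Defs

/-!
# [SPP-Tra] transport along unimodular coordinates

`F x = (∑ k, a j k * x k + h j)_j`, inverse `G y = v + ∑ j, y j • b j` (both on lattice points and on real points; `G (F x) = x` by `hb`, `hv`; `F (G y) = y` by `ha`, `hv`).
`Q = hull A`, `RU A w`. Put `A' = A.image G`, `w' = w ∘ F`. `RU A' w'`: for `(c, e)` with `c · x + e ≤ w' x` on `A'`, the pulled back affine function (coefficients `∑ k, c k * b j k`, constant `∑ k, c k * v k + e`) is `≤ w` on `A`, the contact
set of `A'` is the image of the contact set of `A`; `Uni` of the image: given coefficients `d` on the image with integral sums, `d ∘ G` has integral sums because `y j = ∑ k, a j k * (G y) k + h j`.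
`{x | F x ∈ Q} = hull A'` : `mem_hull`, push coefficients forward/backward (both maps are affine and the coefficients sum to one). Then `hasRUT_of_RU` with `covers_gen`.
-/

open Finset

set_option autoImplicit false

namespace Pool.Agent.SPP

open Pool.Agent.SPB

section

variable {n ι : Type} [Fintype n] [Fintype ι] [DecidableEq n] [DecidableEq ι] {R : Type} [CommRing R]
  {a : ι → n → ℤ} {h : ι → ℤ} {b : ι → n → ℤ} {v : n → ℤ}

omit [DecidableEq n] in
private theorem tra_FG (ha : ∀ i j, ∑ k, a i k * b j k = if i = j then 1 else 0)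
    (hv : ∀ j, evz (a j) (h j) v = 0) (y : ι → R) (j : ι) :
    ∑ k, (a j k : R) * ((v k : R) + ∑ i, (b i k : R) * y i) + (h j : R) = y j := by
  have h1 : ∑ k, (a j k : R) * (v k : R) + (h j : R) = 0 := by
    have := hv j
    unfold evz at this
    have h2 : ((∑ i, a j i * v i + h j : ℤ) : R) = ((0 : ℤ) : R) := by rw [this]
    push_cast at h2
    exact h2
  have h3 : ∀ i, ∑ k, (a j k : R) * (b i k : R) = if j = i then 1 else 0 := by
    intro i
    have h2 : ((∑ k, a j k * b i k : ℤ) : R) = ((if j = i then 1 else 0 : ℤ) : R) := by rw [ha]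
    push_cast at h2
    rw [h2]
  calc ∑ k, (a j k : R) * ((v k : R) + ∑ i, (b i k : R) * y i) + (h j : R)
      = (∑ k, (a j k : R) * (v k : R) + (h j : R)) + ∑ k, (a j k : R) * ∑ i, (b i k : R) * y i := by
        simp only [mul_add, Finset.sum_add_distrib]
        ring
    _ = ∑ i, (∑ k, (a j k : R) * (b i k : R)) * y i := by
        rw [h1, zero_add]
        simp only [Finset.mul_sum, Finset.sum_mul]
        rw [Finset.sum_comm]
        refine Finset.sum_congr rfl fun i _ => Finset.sum_congr rfl fun k _ => by ring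
    _ = y j := by
        simp only [h3, ite_mul, one_mul, zero_mul, Finset.sum_ite_eq, Finset.mem_univ, if_true]

omit [DecidableEq ι] in
private theorem tra_GF (hb : ∀ k l, ∑ j, b j k * a j l = if k = l then 1 else 0)
    (hv : ∀ j, evz (a j) (h j) v = 0) (x : n → R) (k : n) :
    (v k : R) + ∑ j, (b j k : R) * (∑ l, (a j l : R) * x l + (h j : R)) = x k := by
  have h1 : ∀ j, (h j : R) = - ∑ l, (a j l : R) * (v l : R) := by
    intro j
    have := hv j
    unfold evz at this
    have h2 : ((∑ i, a j i * v i + h j : ℤ) : R) = ((0 : ℤ) : R) := by rw [this]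
    push_cast at h2
    linear_combination h2
  have h3 : ∀ l, ∑ j, (b j k : R) * (a j l : R) = if k = l then 1 else 0 := by
    intro l
    have h2 : ((∑ j, b j k * a j l : ℤ) : R) = ((if k = l then 1 else 0 : ℤ) : R) := by rw [hb]
    push_cast at h2
    rw [h2]
  have h4 : ∀ j, ∑ l, (a j l : R) * x l + (h j : R) = ∑ l, (a j l : R) * (x l - v l) := by
    intro j
    rw [h1 j]
    simp only [mul_sub, Finset.sum_sub_distrib]
    ring
  calc (v k : R) + ∑ j, (b j k : R) * (∑ l, (a j l : R) * x l + (h j : R))
      = (v k : R) + ∑ l, (∑ j, (b j k : R) * (a j l : R)) * (x l - v l) := by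
        congr 1
        simp only [h4, Finset.mul_sum, Finset.sum_mul]
        rw [Finset.sum_comm]
        refine Finset.sum_congr rfl fun i _ => Finset.sum_congr rfl fun k _ => by ring
    _ = x k := by
        simp only [h3, ite_mul, one_mul, zero_mul, Finset.sum_ite_eq, Finset.mem_univ, if_true]
        ring

end

theorem hasRUT_coord {n ι : Type} [Fintype n] [Fintype ι] [DecidableEq n] [DecidableEq ι] (a : ι → n → ℤ)
    (h : ι → ℤ) (b : ι → n → ℤ) (v : n → ℤ) (ha : ∀ i j, ∑ k, a i k * b j k = if i = j then 1 else 0)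
    (hb : ∀ k l, ∑ j, b j k * a j l = if k = l then 1 else 0) (hv : ∀ j, evz (a j) (h j) v = 0)
    {Q : Set (ι → ℝ)} {θ : ι → ℤ} (hQ : RT Q θ) (hcov : ∀ (A : Finset (n → ℤ)) (w : (n → ℤ) → ℝ), Covers (hull A) A w) :
    HasRUT {x : n → ℝ | (fun j => ev (a j) (h j) x) ∈ Q} := by
  classical
  obtain ⟨A, w, hRU, rfl, -, -⟩ := hQ
  let G : (ι → ℤ) → (n → ℤ) := fun y k => v k + ∑ j, b j k * y j
  let F : (n → ℤ) → (ι → ℤ) := fun x j => evz (a j) (h j) x
  have hFG : ∀ y, F (G y) = y := by
    intro y
    funext j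
    have := tra_FG (R := ℤ) ha hv y j
    simp only [Int.cast_id] at this
    exact this
  have hGinj : Function.Injective G := fun x y hxy => by
    rw [← hFG x, ← hFG y, hxy]
  -- the real value of `y`
  have hy : ∀ (y : ι → ℤ) (j : ι), (y j : ℝ) = ∑ k, (a j k : ℝ) * (G y k : ℝ) + (h j : ℝ) := by
    intro y j
    have := hFG y
    have h1 : (F (G y) j : ℝ) = (y j : ℝ) := by rw [this]
    rw [← h1]
    simp only [F, evz]
    push_cast
    rfl
  have hG : ∀ (y : ι → ℤ) (k : n), (G y k : ℝ) = (v k : ℝ) + ∑ j, (b j k : ℝ) * (y j : ℝ) := by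
    intro y k
    simp only [G]
    push_cast
    rfl
  set A' : Finset (n → ℤ) := A.image G with hA'
  let w' : (n → ℤ) → ℝ := fun x => w (F x)
  have hsum : ∀ (s : Finset (ι → ℤ)) (f : (n → ℤ) → ℝ), ∑ x ∈ s.image G, f x = ∑ y ∈ s, f (G y) := by
    intro s f
    exact Finset.sum_image (fun x _ y _ hxy => hGinj hxy)
  have hRU' : RU A' w' := by
    intro c e hce
    -- the pulled back affine function
    have hval : ∀ y : ι → ℤ, ∑ j, (∑ k, c k * (b j k : ℝ)) * (y j : ℝ) + (∑ k, c k * (v k : ℝ) + e) =
        ∑ k, c k * (G y k : ℝ) + e := by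
      intro y
      simp only [hG, mul_add, Finset.sum_add_distrib, Finset.mul_sum, Finset.sum_mul]
      rw [Finset.sum_comm]
      have : ∑ k, ∑ j, c k * (b j k : ℝ) * (y j : ℝ) = ∑ k, ∑ j, c k * ((b j k : ℝ) * (y j : ℝ)) :=
        Finset.sum_congr rfl fun k _ => Finset.sum_congr rfl fun j _ => by ring
      rw [this]
      ring
    have hle : ∀ y ∈ A, ∑ j, (∑ k, c k * (b j k : ℝ)) * (y j : ℝ) + (∑ k, c k * (v k : ℝ) + e) ≤ w y := by
      intro y hyA
      rw [hval]
      have := hce (G y) (Finset.mem_image_of_mem G hyA)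
      simp only [w', hFG] at this
      exact this
    have hC : contact A' w' c e =
        (contact A w (fun j => ∑ k, c k * (b j k : ℝ)) (∑ k, c k * (v k : ℝ) + e)).image G := by
      ext x
      simp only [contact, Finset.mem_filter, Finset.mem_image, hA']
      constructor
      · rintro ⟨⟨y, hyA, rfl⟩, hx⟩
        refine ⟨y, ⟨hyA, ?_⟩, rfl⟩
        rw [hval, hx]
        simp only [w', hFG]
      · rintro ⟨y, ⟨hyA, hyw⟩, rfl⟩
        refine ⟨⟨y, hyA, rfl⟩, ?_⟩
        rw [hval] at hyw
        rw [hyw]
        simp only [w', hFG]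
    rw [hC]
    have hU := hRU _ _ hle
    intro d hd0 hd1
    set C := contact A w (fun j => ∑ k, c k * (b j k : ℝ)) (∑ k, c k * (v k : ℝ) + e)
    rw [hsum] at hd0
    have hd1' : ∀ k, IsInt (∑ y ∈ C, d (G y) * (G y k : ℝ)) := by
      intro k
      have := hd1 k
      rwa [hsum] at this
    have key := hU (fun y => d (G y)) hd0 (fun i => by
      choose m hm using hd1'
      obtain ⟨m0, hm0⟩ := hd0
      refine ⟨∑ k, a i k * m k + h i * m0, ?_⟩
      push_cast
      rw [← hm0]
      simp only [← hm]
      have : ∀ y ∈ C, d (G y) * (y i : ℝ) =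
          ∑ k, (a i k : ℝ) * (d (G y) * (G y k : ℝ)) + (h i : ℝ) * d (G y) := by
        intro y _
        rw [hy y i, mul_add, Finset.mul_sum]
        congr 1
        · exact Finset.sum_congr rfl fun k _ => by ring
        · ring
      rw [Finset.sum_congr rfl this, Finset.sum_add_distrib, Finset.sum_comm, ← Finset.mul_sum]
      congr 1
      exact Finset.sum_congr rfl fun k _ => by rw [Finset.mul_sum])
    intro x hx
    obtain ⟨y, hyC, rfl⟩ := Finset.mem_image.1 hx
    exact key y hyC
  have hhull : {x : n → ℝ | (fun j => ev (a j) (h j) x) ∈ hull A} = hull A' := by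
    ext x
    simp only [Set.mem_ofPred_eq]
    constructor
    · intro hx
      obtain ⟨l, l0, l1, l2⟩ := mem_hull.1 hx
      refine mem_hull.2 ⟨fun z => l (F z), ?_, ?_, ?_⟩
      · intro z hz
        obtain ⟨y, hyA, rfl⟩ := Finset.mem_image.1 hz
        simp only [hFG]
        exact l0 y hyA
      · rw [hA', hsum]
        simp only [hFG]
        exact l1
      · intro k
        rw [hA', hsum]
        simp only [hFG]
        have h1 : ∑ y ∈ A, l y * (G y k : ℝ) =
            (v k : ℝ) + ∑ j, (b j k : ℝ) * ∑ y ∈ A, l y * (y j : ℝ) := by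
          simp only [hG, mul_add, Finset.sum_add_distrib, Finset.mul_sum]
          rw [← Finset.sum_mul, l1, one_mul, Finset.sum_comm]
          congr 1
          exact Finset.sum_congr rfl fun k _ => Finset.sum_congr rfl fun j _ => by ring
        rw [h1]
        simp only [l2, ev]
        exact tra_GF hb hv x k
    · intro hx
      obtain ⟨l, l0, l1, l2⟩ := mem_hull.1 hx
      rw [hA', hsum] at l1
      refine mem_hull.2 ⟨fun y => l (G y), ?_, l1, ?_⟩
      · intro y hyA
        exact l0 _ (Finset.mem_image_of_mem G hyA)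
      · intro i
        simp only [ev]
        have h1 : ∀ y ∈ A, l (G y) * (y i : ℝ) =
            ∑ k, (a i k : ℝ) * (l (G y) * (G y k : ℝ)) + (h i : ℝ) * l (G y) := by
          intro y _
          rw [hy y i, mul_add, Finset.mul_sum]
          congr 1
          · exact Finset.sum_congr rfl fun k _ => by ring
          · ring
        rw [Finset.sum_congr rfl h1, Finset.sum_add_distrib, Finset.sum_comm, ← Finset.mul_sum, l1, mul_one]
        congr 1
        refine Finset.sum_congr rfl fun k _ => ?_
        rw [← Finset.mul_sum, ← l2 k, hA', hsum]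
  rw [hhull]
  exact hasRUT_of_RU hRU' (hcov A' w')

end Pool.Agent.SPP
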