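import Pool.Agent.SPP.Rel
import Pool.Agent.SPP.Nf
import Pool.Agent.SPP.Tra
import Pool.Agent.SPP.Cov

/-!
# [SPP-AsmA] from coordinates at a vertex to the normal form
-/

open Finset

set_option autoImplicit false
set_option linter.unusedSectionVars false

namespace Pool.Agent.SPP

open Pool.Agent.SPB

variable {J n : Type} [Fintype J] [Fintype n] [DecidableEq J] [DecidableEq n]

theorem ev_sub (c : n → ℤ) (e : ℤ) (x : n → ℝ) (v : n → ℤ) :
    ev c e x = (evz c e v : ℝ) + ∑ k, (c k : ℝ) * (x k - v k) := by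
  unfold ev evz
  push_cast
  simp only [mul_sub, Finset.sum_sub_distrib]
  ring

/-- coordinates at a vertex -/
theorem Vert.ev_eq {a : J → n → ℤ} {h : J → ℤ} {v : n → ℤ} {b : J → n → ℤ} (hv : Vert a h v b) (c : n → ℤ) (e : ℤ)
    (x : n → ℝ) : ev c e x = (evz c e v : ℝ) +
      ∑ j ∈ tight a h v, ((∑ k, c k * b j k : ℤ) : ℝ) * ev (a j) (h j) x := by
  rw [ev_sub c e x v]
  congr 1
  have h1 : ∀ j ∈ tight a h v, ev (a j) (h j) x = ∑ k, (a j k : ℝ) * (x k - v k) := by
    intro j hj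
    rw [ev_sub (a j) (h j) x v]
    have := mem_tight.1 hj
    rw [ev_emb] at this
    rw [this, zero_add]
  have h0 : ∑ j ∈ tight a h v, ((∑ k, c k * b j k : ℤ) : ℝ) * ev (a j) (h j) x =
      ∑ j ∈ tight a h v, ((∑ k, c k * b j k : ℤ) : ℝ) * ∑ k, (a j k : ℝ) * (x k - v k) :=
    Finset.sum_congr rfl fun j hj => by rw [h1 j hj]
  rw [h0]
  have h2 : ∀ k, (c k : ℝ) = ∑ j ∈ tight a h v, ((∑ l, c l * b j l : ℤ) : ℝ) * (a j k : ℝ) := by
    intro k
    have := congrArg (fun z : ℤ => (z : ℝ)) (hv.expand c k)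
    beta_reduce at this
    rw [this]
    push_cast
    rfl
  simp only [Finset.mul_sum]
  rw [Finset.sum_comm]
  refine Finset.sum_congr rfl fun k _ => ?_
  rw [h2 k, Finset.sum_mul]
  exact Finset.sum_congr rfl fun j _ => by ring

theorem hasRUT_of_RT {ι : Type} [Fintype ι] {P : Set (ι → ℝ)} {θ : ι → ℤ} (h : RT P θ) : HasRUT P := by
  obtain ⟨A, w, hw, rfl, -⟩ := h
  exact hasRUT_of_RU hw (covers_gen A w)

theorem fin_case {a : J → n → ℤ} {h : J → ℤ} (hT : TS a h) {v : n → ℤ} {b : J → n → ℤ} (hv : Vert a h v b)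
    (idx : Fin 3 → J) (hidx : ∀ j, j ∉ tight a h v → ∃ k, idx k = j) (hidx' : ∀ k, idx k ∉ tight a h v)
    (hinj : Function.Injective idx) (D C : Finset J) (hDC : Disjoint D C) (hD : D ⊆ tight a h v)
    (hc0 : ∀ j ∈ tight a h v, ∑ k, a (idx 0) k * b j k = if j ∈ D then -1 else 0)
    (hc1 : ∀ j ∈ tight a h v, j ∉ D → ∑ k, a (idx 1) k * b j k = if j ∈ C then -1 else 0)
    (hc2 : ∀ j ∈ tight a h v, j ∉ D → ∑ k, a (idx 2) k * b j k ≤ if j ∈ C then 0 else -1)
    (hf : ∀ u ∈ D, ∃ x ∈ pol a h, (∀ j ∈ D, j ≠ u → ev (a j) (h j) x = 0) ∧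
      ev (a (idx 0)) (h (idx 0)) x = 0) : HasRUT (pol a h) := by
  classical
  -- coordinates
  let ι := {j : J // j ∈ tight a h v}
  let c : Fin 3 → ι → ℤ := fun k j => ∑ l, a (idx k) l * b j.1 l
  let β : Fin 3 → ℤ := fun k => evz (a (idx k)) (h (idx k)) v
  let S : Finset ι := univ.filter (fun j : ι => j.1 ∈ D)
  let W : Finset ι := univ.filter (fun j : ι => j.1 ∈ C)
  let co : (n → ℝ) → ι → ℝ := fun x j => ev (a j.1) (h j.1) x
  have hco : ∀ (k : Fin 3) (x : n → ℝ), ev (c k) (β k) (co x) = ev (a (idx k)) (h (idx k)) x := by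
    intro k x
    rw [hv.ev_eq (a (idx k)) (h (idx k)) x]
    unfold ev
    rw [add_comm]
    congr 1
    exact Finset.sum_coe_sort (tight a h v) (fun j => ((∑ l, a (idx k) l * b j l : ℤ) : ℝ) *
      (∑ i, (a j i : ℝ) * x i + h j))
  have hmem : ∀ x : n → ℝ, x ∈ pol a h ↔ co x ∈ PI c β univ univ := by
    intro x
    constructor
    · intro hx
      refine ⟨fun j => hx j.1, fun j hj => absurd (Finset.mem_univ j) hj, fun k _ => ?_⟩
      rw [hco]
      exact hx (idx k)
    · intro hx j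
      by_cases hj : j ∈ tight a h v
      · exact hx.1 ⟨j, hj⟩
      · obtain ⟨k, rfl⟩ := hidx j hj
        rw [← hco]
        exact hx.2.2 k (Finset.mem_univ k)
  -- every point in the coordinate space comes from a point
  have hsurj : ∀ y : ι → ℝ, ∃ x : n → ℝ, co x = y := by
    intro y
    refine ⟨fun k => v k + ∑ j : ι, y j * (b j.1 k : ℝ), ?_⟩
    funext i
    show ev (a i.1) (h i.1) _ = y i
    rw [ev_sub _ _ _ v]
    have h1 := mem_tight.1 i.2
    rw [ev_emb] at h1
    rw [h1, zero_add]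
    have h2 : ∑ k, (a i.1 k : ℝ) * (v k + ∑ j : ι, y j * (b j.1 k : ℝ) - v k) =
        ∑ j : ι, y j * ((∑ k, a i.1 k * b j.1 k : ℤ) : ℝ) := by
      push_cast
      simp only [add_sub_cancel_left, Finset.mul_sum]
      rw [Finset.sum_comm]
      exact Finset.sum_congr rfl fun j _ => Finset.sum_congr rfl fun k _ => by ring
    rw [h2, Finset.sum_eq_single i]
    · rw [hv.dual i.1 i.2 i.1 i.2, if_pos rfl]; simp
    · intro j _ hj
      rw [hv.dual i.1 i.2 j.1 j.2, if_neg (fun h => hj (Subtype.ext h.symm))]; simp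
    · intro h
      exact absurd (Finset.mem_univ _) h
  -- smoothness
  have hTS : ∀ (k : Fin 3), ∀ y ∈ PI c β univ univ, ev (c k) (β k) y = 0 → ∃ z : ι → ℤ, (∀ i, y i = 0 → z i = 0) ∧
      (∀ k', k' ≠ k → ev (c k') (β k') y = 0 → ∑ j, c k' j * z j = 0) ∧ ∑ j, c k j * z j = 1 := by
    intro k y hy hyk
    obtain ⟨x, rfl⟩ := hsurj y
    obtain ⟨z, hz⟩ := hT x ((hmem x).2 hy) (fun j => if j = idx k then 1 else 0)
    have hsum : ∀ k', ∑ j : ι, c k' j * (∑ l, a j.1 l * z l) = ∑ l, a (idx k') l * z l := by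
      intro k'
      have e1 : ∑ j : ι, c k' j * (∑ l, a j.1 l * z l) =
          ∑ j ∈ tight a h v, (∑ l, a (idx k') l * b j l) * (∑ l, a j l * z l) :=
        Finset.sum_coe_sort (tight a h v) (fun j => (∑ l, a (idx k') l * b j l) * (∑ l, a j l * z l))
      rw [e1]
      simp only [Finset.mul_sum (s := (univ : Finset n))]
      rw [Finset.sum_comm]
      refine Finset.sum_congr rfl fun l _ => ?_
      rw [hv.expand (a (idx k')) l, Finset.sum_mul]
      exact Finset.sum_congr rfl fun j _ => by ring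
    refine ⟨fun j => ∑ l, a j.1 l * z l, ?_, ?_, ?_⟩
    · intro i hi
      have h1 : ev (a i.1) (h i.1) x = 0 := hi
      beta_reduce
      have hne : i.1 ≠ idx k := fun h' => hidx' k (by rw [← h']; exact i.2)
      rw [hz i.1 h1, if_neg hne]
    · intro k' hk' hev
      rw [hco] at hev
      rw [hsum k', hz _ hev, if_neg (fun h' => hk' (hinj h'))]
    · rw [hco] at hyk
      rw [hsum k, hz _ hyk, if_pos rfl]
  have H : NfH c β S W := by
    refine ⟨?_, ?_, ?_, ?_, ?_, ?_, ?_, ?_, ?_, ?_, ?_⟩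
    · rw [Finset.disjoint_left]
      intro j hj hj'
      rw [Finset.mem_filter] at hj hj'
      exact Finset.disjoint_left.1 hDC hj.2 hj'.2
    · intro k
      have h1 := hv.mem (idx k)
      have h2 := hidx' k
      rw [mem_tight] at h2
      have h3 := lt_of_le_of_ne h1 (Ne.symm h2)
      rw [ev_emb] at h3
      exact_mod_cast h3
    · intro i hi
      rw [Finset.mem_filter] at hi
      show ∑ l, a (idx 0) l * b i.1 l = -1
      rw [hc0 i.1 i.2, if_pos hi.2]
    · intro i hi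
      have hi' : i.1 ∉ D := fun h' => hi (Finset.mem_filter.2 ⟨Finset.mem_univ _, h'⟩)
      show ∑ l, a (idx 0) l * b i.1 l = 0
      rw [hc0 i.1 i.2, if_neg hi']
    · intro i hi
      rw [Finset.mem_filter] at hi
      have hi' : i.1 ∉ D := fun h' => Finset.disjoint_left.1 hDC h' hi.2
      show ∑ l, a (idx 1) l * b i.1 l = -1
      rw [hc1 i.1 i.2 hi', if_pos hi.2]
    · intro i hi hi2
      have hi' : i.1 ∉ D := fun h' => hi (Finset.mem_filter.2 ⟨Finset.mem_univ _, h'⟩)
      have hi2' : i.1 ∉ C := fun h' => hi2 (Finset.mem_filter.2 ⟨Finset.mem_univ _, h'⟩)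
      show ∑ l, a (idx 1) l * b i.1 l = 0
      rw [hc1 i.1 i.2 hi', if_neg hi2']
    · intro i hi
      rw [Finset.mem_filter] at hi
      have hi' : i.1 ∉ D := fun h' => Finset.disjoint_left.1 hDC h' hi.2
      have := hc2 i.1 i.2 hi'
      rw [if_pos hi.2] at this
      exact this
    · intro i hi hi2
      have hi' : i.1 ∉ D := fun h' => hi (Finset.mem_filter.2 ⟨Finset.mem_univ _, h'⟩)
      have hi2' : i.1 ∉ C := fun h' => hi2 (Finset.mem_filter.2 ⟨Finset.mem_univ _, h'⟩)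
      have := hc2 i.1 i.2 hi'
      rw [if_neg hi2'] at this
      exact this
    · intro y hy hy1
      obtain ⟨z, hz1, hz2, hz3⟩ := hTS 1 y hy hy1
      exact ⟨z, hz1, hz2 0 (by decide), hz3⟩
    · intro y hy hy1
      obtain ⟨z, hz1, hz2, hz3⟩ := hTS 2 y hy hy1
      exact ⟨z, hz1, hz2 0 (by decide), hz2 1 (by decide), hz3⟩
    · intro u hu
      rw [Finset.mem_filter] at hu
      obtain ⟨x, hx, hx1, hx2⟩ := hf u.1 hu.2
      refine ⟨co x, (hmem x).1 hx, fun j hj hju => ?_, ?_⟩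
      · rw [Finset.mem_filter] at hj
        exact hx1 j.1 hj.2 (fun h' => hju (Subtype.ext h'))
      · rw [hco]
        exact hx2
  obtain ⟨θ, hθ⟩ := nf (fun A w => covers_gen A w) H
  have hset : pol a h = {x : n → ℝ | (fun j : ι => ev (a j.1) (h j.1) x) ∈ PI c β univ univ} := by
    ext x
    exact hmem x
  rw [hset]
  refine hasRUT_coord (fun j : ι => a j.1) (fun j : ι => h j.1) (fun j : ι => b j.1) v ?_ ?_ ?_ hθ
    (fun A w => covers_gen A w)
  · intro i j
    rw [hv.dual i.1 i.2 j.1 j.2]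
    by_cases hij : i = j
    · rw [if_pos hij, if_pos (congrArg Subtype.val hij)]
    · rw [if_neg hij, if_neg (fun h' => hij (Subtype.ext h'))]
  · intro k l
    rw [← hv.comp k l]
    exact Finset.sum_coe_sort (tight a h v) (fun j => b j k * a j l)
  · intro j
    have := mem_tight.1 j.2
    rw [ev_emb] at this
    exact_mod_cast this

end Pool.Agent.SPP
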