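import Pool.Agent.SPB.Tri
import Pool.Agent.SPB.Cover
import Pool.Agent.SPB.Smo

/-!
# SPP: smooth polytopes with at most `d + 3` facets have regular unimodular triangulations (MP_5fef9b_co, helper19)

* (Cov) the lower faces cover `hull A` for every finite set `A` of lattice points.
* (Stb, Stp) chimneys: if `P` has good heights (`RT`), then so has `{x + t u | x ∈ P, 0 ≤ t ≤ min (g₁ x) (g₂ x)}`.
* (Nf) the normal form `Q = {y ≥ 0, ∑_S y ≤ α, ∑_S p y + ∑_W y ≤ lam, ∑ m y ≤ mu}` with its smoothness has good heights.
* (Sys, Rel) systems of integral inequalities whose tight rows are always part of a basis of the lattice; vertices,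
  zero-sum collections of rows.
* (Tra) transport along unimodular coordinates.
* (Asm) every such system with `d + 3` rows has a regular unimodular triangulation.
* (Ext) smooth polytopes which are intersections of `d + 3` half spaces give such systems.
-/

open Finset

set_option autoImplicit false

namespace Pool.Agent.SPP

open Pool.Agent.SPB

/-- value of the integral affine function with coefficients `a` and constant `b` at a real point -/
def ev {ι : Type} [Fintype ι] (a : ι → ℤ) (b : ℤ) (x : ι → ℝ) : ℝ := ∑ i, (a i : ℝ) * x i + b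

/-- value of the integral affine function with coefficients `a` and constant `b` at a lattice point -/
def evz {ι : Type} [Fintype ι] (a : ι → ℤ) (b : ℤ) (x : ι → ℤ) : ℤ := ∑ i, a i * x i + b

theorem ev_emb {ι : Type} [Fintype ι] (a : ι → ℤ) (b : ℤ) (x : ι → ℤ) : ev a b (emb x) = (evz a b x : ℝ) := by
  unfold ev evz emb
  push_cast
  rfl

/-- `P` is a lattice polytope with heights all whose lower faces are unimodular simplices, on which the functional
`θ` takes values differing by at most one -/
def RT {ι : Type} [Fintype ι] (P : Set (ι → ℝ)) (θ : ι → ℤ) : Prop :=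
  ∃ (A : Finset (ι → ℤ)) (w : (ι → ℤ) → ℝ), RU A w ∧ P = hull A ∧ (∀ x, x ∈ A ↔ emb x ∈ P) ∧
    ∀ (a : ι → ℝ) (b : ℝ), (∀ x ∈ A, ∑ i, a i * (x i : ℝ) + b ≤ w x) →
      ∀ x ∈ contact A w a b, ∀ y ∈ contact A w a b, ∑ i, θ i * x i ≤ ∑ i, θ i * y i + 1

/-- the polytope of a system of integral inequalities -/
def pol {J n : Type} [Fintype n] (a : J → n → ℤ) (h : J → ℤ) : Set (n → ℝ) := {x | ∀ j, 0 ≤ ev (a j) (h j) x}

/-- at every point of the polytope the tight rows are part of a basis of the dual lattice -/
def TS {J n : Type} [Fintype n] (a : J → n → ℤ) (h : J → ℤ) : Prop :=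
  ∀ x ∈ pol a h, ∀ c : J → ℤ, ∃ y : n → ℤ, ∀ j, ev (a j) (h j) x = 0 → ∑ i, a j i * y i = c j

end Pool.Agent.SPP
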