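import Pool.Agent.SPP.Stp

/-!
# [SPP-NfA] faces of the polytopes `{y ≥ 0, g_k y ≥ 0 (k ∈ K)}` and the steps from face to face
-/

open Finset

set_option autoImplicit false
set_option linter.unusedSectionVars false

namespace Pool.Agent.SPP

open Pool.Agent.SPB

variable {ι : Type} [Fintype ι] [DecidableEq ι]

/-- the face of `{y ≥ 0, g_k y ≥ 0 (k ∈ K)}` on which the coordinates outside of `I` vanish -/
def PI (c : Fin 3 → ι → ℤ) (b : Fin 3 → ℤ) (K : Finset (Fin 3)) (I : Finset ι) : Set (ι → ℝ) :=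
  {y | (∀ i, 0 ≤ y i) ∧ (∀ i, i ∉ I → y i = 0) ∧ ∀ k ∈ K, 0 ≤ ev (c k) (b k) y}

theorem ev_prj (c : ι → ℤ) (b : ℤ) (i : ι) (u : ι → ℤ) (y : ι → ℝ) :
    ev c b (prj i u y) = ev c b y - y i * (∑ j, c j * u j : ℤ) := by
  unfold ev
  rw [sum_prj]
  push_cast
  ring

theorem sum_single (c : ι → ℤ) (i : ι) : ∑ j, c j * (Pi.single i (1 : ℤ) : ι → ℤ) j = c i := by
  rw [Finset.sum_eq_single i]
  · simp
  · intro j _ hj
    simp [Pi.single_eq_of_ne hj]
  · intro h
    exact absurd (Finset.mem_univ i) h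

theorem sum_single_sub (c : ι → ℤ) (i j₀ : ι) :
    ∑ j, c j * (Pi.single i (1 : ℤ) - Pi.single j₀ (1 : ℤ) : ι → ℤ) j = c i - c j₀ := by
  simp only [Pi.sub_apply, mul_sub, Finset.sum_sub_distrib]
  rw [sum_single, sum_single]

variable (hcov : ∀ (A : Finset (ι → ℤ)) (w : (ι → ℤ) → ℝ), Covers (hull A) A w)

include hcov

/-- a new coordinate, bounded by the functions `k₁` and `k₂` -/
theorem stepA {c : Fin 3 → ι → ℤ} {b : Fin 3 → ℤ} {K : Finset (Fin 3)} {I : Finset ι} {θ : ι → ℤ}
    (h : RT (PI c b K I) θ) {i : ι} (hi : i ∉ I) (hθ : θ i = 0) {k₁ k₂ : Fin 3} (hk₁ : k₁ ∈ K) (hk₂ : k₂ ∈ K)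
    (hc₁ : c k₁ i = -1) (hc₂ : c k₂ i = -1) (hc : ∀ k ∈ K, k ≠ k₁ → k ≠ k₂ → c k i = 0)
    (hs : ∀ x y : ι → ℤ, emb x ∈ PI c b K I → emb y ∈ PI c b K I → ∑ j, θ j * x j ≤ ∑ j, θ j * y j + 1 →
      ∑ j, θ j * y j ≤ ∑ j, θ j * x j + 1 →
      0 ≤ (evz (c k₁) (b k₁) x - evz (c k₂) (b k₂) x) * (evz (c k₁) (b k₁) y - evz (c k₂) (b k₂) y)) :
    RT (PI c b K (insert i I)) θ := by
  refine h.step hcov i (Pi.single i 1) (by simp) (fun x hx => hx.2.1 i hi) (by rw [sum_single]; exact hθ)
    (c k₁) (c k₂) (b k₁) (b k₂) (fun x hx => hx.2.2 k₁ hk₁) (fun x hx => hx.2.2 k₂ hk₂) hs ?_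
  intro y
  have e : ∀ k, ev (c k) (b k) (fun j => y j - y i * ((Pi.single i (1 : ℤ) : ι → ℤ) j : ℝ)) =
      ev (c k) (b k) y - y i * (c k i : ℝ) := by
    intro k
    have := ev_prj (c k) (b k) i (Pi.single i 1) y
    rw [sum_single] at this
    exact this
  have ei : y i - y i * ((Pi.single i (1 : ℤ) : ι → ℤ) i : ℝ) = 0 := by simp
  have ej : ∀ j, j ≠ i → y j - y i * ((Pi.single i (1 : ℤ) : ι → ℤ) j : ℝ) = y j := by
    intro j hj
    simp [Pi.single_eq_of_ne hj]
  rw [e, e, hc₁, hc₂]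
  constructor
  · rintro ⟨h1, h2, h3⟩
    refine ⟨⟨fun j => ?_, fun j hj => ?_, fun k hk => ?_⟩, h1 i, ?_, ?_⟩
    · beta_reduce
      by_cases hj : j = i
      · subst hj; rw [ei]
      · rw [ej j hj]; exact h1 j
    · beta_reduce
      by_cases hj' : j = i
      · subst hj'; rw [ei]
      · rw [ej j hj']
        exact h2 j (by simp [hj, hj'])
    · rw [e]
      have h4 := h3 k hk
      have h5 := h1 i
      by_cases e1 : k = k₁
      · subst e1
        rw [hc₁]; push_cast; linarith
      · by_cases e2 : k = k₂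
        · subst e2
          rw [hc₂]; push_cast; linarith
        · rw [hc k hk e1 e2]; push_cast; linarith
    · have := h3 k₁ hk₁
      push_cast; linarith
    · have := h3 k₂ hk₂
      push_cast; linarith
  · rintro ⟨⟨h1, h2, h3⟩, h4, h5, h6⟩
    push_cast at h5 h6
    refine ⟨fun j => ?_, fun j hj => ?_, fun k hk => ?_⟩
    · by_cases hj : j = i
      · subst hj; exact h4
      · have := h1 j
        beta_reduce at this
        rw [ej j hj] at this
        exact this
    · have hji : j ≠ i := fun h => hj (by simp [h])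
      have := h2 j (fun h => hj (by simp [h]))
      beta_reduce at this
      rw [ej j hji] at this
      exact this
    · by_cases e1 : k = k₁
      · subst e1
        linarith
      · by_cases e2 : k = k₂
        · subst e2
          linarith
        · have := h3 k hk
          rw [e, hc k hk e1 e2] at this
          push_cast at this
          linarith

/-- several new coordinates, bounded by the function `k₁` -/
theorem addA {c : Fin 3 → ι → ℤ} {b : Fin 3 → ℤ} {K : Finset (Fin 3)} {I : Finset ι} {θ : ι → ℤ}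
    (h : RT (PI c b K I) θ) (X : Finset ι) (hθ : ∀ i ∈ X, i ∉ I → θ i = 0) {k₁ : Fin 3} (hk₁ : k₁ ∈ K)
    (hc₁ : ∀ i ∈ X, i ∉ I → c k₁ i = -1) (hc : ∀ i ∈ X, i ∉ I → ∀ k ∈ K, k ≠ k₁ → c k i = 0) :
    RT (PI c b K (I ∪ X)) θ := by
  induction X using Finset.induction_on with
  | empty => simpa using h
  | insert i X hiX ih =>
    have h1 := ih (fun j hj => hθ j (Finset.mem_insert_of_mem hj)) (fun j hj => hc₁ j (Finset.mem_insert_of_mem hj))
      (fun j hj => hc j (Finset.mem_insert_of_mem hj))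
    rw [Finset.union_insert]
    by_cases hi : i ∈ I
    · rw [Finset.insert_eq_of_mem (Finset.mem_union_left _ hi)]
      exact h1
    · have hm := Finset.mem_insert_self i X
      refine stepA hcov h1 (by simp [hi, hiX]) (hθ i hm hi) hk₁ hk₁ (hc₁ i hm hi) (hc₁ i hm hi)
        (fun k hk hk' _ => hc i hm hi k hk hk') (fun x y _ _ _ _ => ?_)
      rw [sub_self]
      simp

/-- splitting of the coordinate `j₀` -/
theorem stepS {c : Fin 3 → ι → ℤ} {b : Fin 3 → ℤ} {K : Finset (Fin 3)} {I : Finset ι} {θ : ι → ℤ}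
    (h : RT (PI c b K I) θ) {j₀ i : ι} (hj₀ : j₀ ∈ I) (hi : i ∉ I) (hθ : θ i = θ j₀) (hc : ∀ k ∈ K, c k i = c k j₀) :
    RT (PI c b K (insert i I)) θ := by
  have hij : i ≠ j₀ := fun h => hi (h ▸ hj₀)
  have hui : (Pi.single i (1 : ℤ) - Pi.single j₀ (1 : ℤ) : ι → ℤ) i = 1 := by simp [Pi.single_eq_of_ne hij]
  refine h.step hcov i (Pi.single i 1 - Pi.single j₀ 1) hui (fun x hx => hx.2.1 i hi)
    (by rw [sum_single_sub, hθ, sub_self]) (Pi.single j₀ 1) (Pi.single j₀ 1) 0 0 ?_ ?_ ?_ ?_
  · intro x hx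
    have : ev (Pi.single j₀ (1 : ℤ)) 0 x = x j₀ := by
      unfold ev
      rw [Finset.sum_eq_single j₀]
      · simp
      · intro j _ hj
        simp [Pi.single_eq_of_ne hj]
      · intro h
        exact absurd (Finset.mem_univ j₀) h
    rw [this]
    exact hx.1 j₀
  · intro x hx
    have : ev (Pi.single j₀ (1 : ℤ)) 0 x = x j₀ := by
      unfold ev
      rw [Finset.sum_eq_single j₀]
      · simp
      · intro j _ hj
        simp [Pi.single_eq_of_ne hj]
      · intro h
        exact absurd (Finset.mem_univ j₀) h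
    rw [this]
    exact hx.1 j₀
  · intro x y _ _ _ _
    rw [sub_self]
    simp
  · intro y
    have e : ∀ k ∈ K, ev (c k) (b k) (fun j => y j - y i * ((Pi.single i (1 : ℤ) - Pi.single j₀ (1 : ℤ) : ι → ℤ) j : ℝ)) =
        ev (c k) (b k) y := by
      intro k hk
      have := ev_prj (c k) (b k) i (Pi.single i 1 - Pi.single j₀ 1) y
      rw [sum_single_sub, hc k hk, sub_self, Int.cast_zero, mul_zero, sub_zero] at this
      exact this
    have es : ∀ z : ι → ℝ, ev (Pi.single j₀ (1 : ℤ)) 0 z = z j₀ := by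
      intro z
      unfold ev
      rw [Finset.sum_eq_single j₀]
      · simp
      · intro j _ hj
        simp [Pi.single_eq_of_ne hj]
      · intro h
        exact absurd (Finset.mem_univ j₀) h
    have ei : y i - y i * ((Pi.single i (1 : ℤ) - Pi.single j₀ (1 : ℤ) : ι → ℤ) i : ℝ) = 0 := by
      rw [hui]; simp
    have e0 : y j₀ - y i * ((Pi.single i (1 : ℤ) - Pi.single j₀ (1 : ℤ) : ι → ℤ) j₀ : ℝ) = y j₀ + y i := by
      have : (Pi.single i (1 : ℤ) - Pi.single j₀ (1 : ℤ) : ι → ℤ) j₀ = -1 := by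
        simp [Pi.single_eq_of_ne (Ne.symm hij)]
      rw [this]; push_cast; ring
    have ej : ∀ j, j ≠ i → j ≠ j₀ → y j - y i * ((Pi.single i (1 : ℤ) - Pi.single j₀ (1 : ℤ) : ι → ℤ) j : ℝ) = y j := by
      intro j hj hj'
      simp [Pi.single_eq_of_ne hj, Pi.single_eq_of_ne hj']
    rw [es]
    beta_reduce
    rw [e0]
    constructor
    · rintro ⟨h1, h2, h3⟩
      refine ⟨⟨fun j => ?_, fun j hj => ?_, fun k hk => ?_⟩, h1 i, ?_, ?_⟩
      · beta_reduce
        by_cases hj : j = i
        · subst hj; rw [ei]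
        · by_cases hj' : j = j₀
          · subst hj'
            rw [e0]
            exact add_nonneg (h1 _) (h1 _)
          · rw [ej j hj hj']; exact h1 j
      · beta_reduce
        have hj0 : j ≠ j₀ := fun h => hj (h ▸ hj₀)
        by_cases hj' : j = i
        · subst hj'; rw [ei]
        · rw [ej j hj' hj0]
          exact h2 j (by simp [hj, hj'])
      · rw [e k hk]
        exact h3 k hk
      · have := h1 j₀
        linarith
      · have := h1 j₀
        linarith
    · rintro ⟨⟨h1, h2, h3⟩, h4, h5, -⟩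
      refine ⟨fun j => ?_, fun j hj => ?_, fun k hk => ?_⟩
      · by_cases hj : j = i
        · subst hj; exact h4
        · by_cases hj' : j = j₀
          · subst hj'
            linarith
          · have := h1 j
            beta_reduce at this
            rw [ej j hj hj'] at this
            exact this
      · have hji : j ≠ i := fun h => hj (by simp [h])
        have hj0 : j ≠ j₀ := fun h => hj (by simp [h, hj₀])
        have := h2 j (fun h => hj (by simp [h]))
        beta_reduce at this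
        rw [ej j hji hj0] at this
        exact this
      · have := h3 k hk
        rw [e k hk] at this
        exact this

/-- several splittings -/
theorem addS {c : Fin 3 → ι → ℤ} {b : Fin 3 → ℤ} {K : Finset (Fin 3)} {I : Finset ι} {θ : ι → ℤ}
    (h : RT (PI c b K I) θ) {j₀ : ι} (hj₀ : j₀ ∈ I) (X : Finset ι) (hθ : ∀ i ∈ X, i ∉ I → θ i = θ j₀)
    (hc : ∀ i ∈ X, i ∉ I → ∀ k ∈ K, c k i = c k j₀) : RT (PI c b K (I ∪ X)) θ := by
  induction X using Finset.induction_on with
  | empty => simpa using h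
  | insert i X hiX ih =>
    have h1 := ih (fun j hj => hθ j (Finset.mem_insert_of_mem hj)) (fun j hj => hc j (Finset.mem_insert_of_mem hj))
    rw [Finset.union_insert]
    by_cases hi : i ∈ I
    · rw [Finset.insert_eq_of_mem (Finset.mem_union_left _ hi)]
      exact h1
    · have hm := Finset.mem_insert_self i X
      exact stepS hcov h1 (Finset.mem_union_left _ hj₀) (by simp [hi, hiX]) (hθ i hm hi) (hc i hm hi)

end Pool.Agent.SPP
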