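import Pool.Agent.SPP.NfA

/-!
# [SPP-NfB] the bases: a point and an interval, the dilated simplex
-/

open Finset

set_option autoImplicit false
set_option linter.unusedSectionVars false

namespace Pool.Agent.SPP

open Pool.Agent.SPB

variable {ι : Type} [Fintype ι] [DecidableEq ι]

private theorem hull_zero {y : ι → ℝ} : y ∈ hull ({0} : Finset (ι → ℤ)) ↔ y = 0 := by
  unfold hull
  have : emb '' (({0} : Finset (ι → ℤ)) : Set (ι → ℤ)) = {(0 : ι → ℝ)} := by
    rw [Finset.coe_singleton, Set.image_singleton]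
    congr 1
    funext i
    simp [emb]
  rw [this, convexHull_singleton]
  exact Iff.rfl

private theorem uni_zero : Uni ({0} : Finset (ι → ℤ)) := by
  intro c h _ x hx
  rw [Finset.sum_singleton] at h
  rw [Finset.mem_singleton] at hx
  rw [hx]
  exact h

private theorem ev_zero (c : ι → ℤ) (b : ℤ) : ev c b (0 : ι → ℝ) = b := by
  simp [ev]

theorem base0 {c : Fin 3 → ι → ℤ} {b : Fin 3 → ℤ} {K : Finset (Fin 3)} (hb : ∀ k ∈ K, 0 ≤ b k) (θ : ι → ℤ) :
    RT (PI c b K ∅) θ := by
  classical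
  have hm : ∀ y : ι → ℝ, y ∈ PI c b K ∅ ↔ y = 0 := by
    intro y
    constructor
    · intro h
      funext i
      exact h.2.1 i (Finset.notMem_empty i)
    · rintro rfl
      refine ⟨fun i => le_rfl, fun i _ => rfl, fun k hk => ?_⟩
      rw [ev_zero]
      exact_mod_cast hb k hk
  refine ⟨{0}, fun _ => 0, ?_, ?_, ?_, ?_⟩
  · intro a b' _
    refine uni_zero.mono ?_
    unfold contact
    exact Finset.filter_subset _ _
  · ext y
    rw [hm, hull_zero]
  · intro x
    rw [hm, Finset.mem_singleton]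
    constructor
    · rintro rfl
      funext i
      simp [emb]
    · intro h
      funext i
      have := congrFun h i
      simp only [emb, Pi.zero_apply] at this
      exact_mod_cast this
  · intro a b' _ x hx y hy
    unfold contact at hx hy
    have h1 := (Finset.mem_filter.1 hx).1
    have h2 := (Finset.mem_filter.1 hy).1
    rw [Finset.mem_singleton] at h1 h2
    rw [h1, h2]
    linarith

theorem base1 (hcov : ∀ (A : Finset (ι → ℤ)) (w : (ι → ℤ) → ℝ), Covers (hull A) A w)
    {c : Fin 3 → ι → ℤ} {b : Fin 3 → ℤ} {k₀ : Fin 3} {j₀ : ι} (hc : c k₀ j₀ = -1) (hb : 0 ≤ b k₀)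
    {θ : ι → ℤ} (hθ : θ j₀ = 1) : RT (PI c b {k₀} {j₀}) θ := by
  classical
  set u : ι → ℤ := Pi.single j₀ 1 with hu
  have hui : u j₀ = 1 := by simp [hu]
  have huj : ∀ j, j ≠ j₀ → u j = 0 := by
    intro j hj
    simp [hu, Pi.single_eq_of_ne hj]
  obtain ⟨B, hB⟩ : ∃ B : Finset (ι → ℤ), ∀ y, y ∈ B ↔ prj j₀ u y ∈ ({0} : Finset (ι → ℤ)) ∧ 0 ≤ y j₀ ∧
      y j₀ ≤ evz 0 (b k₀) (prj j₀ u y) ∧ y j₀ ≤ evz 0 (b k₀) (prj j₀ u y) := by
    refine ⟨(Finset.Icc 0 (b k₀)).image (fun t => fun j => t * u j), fun y => ?_⟩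
    simp only [Finset.mem_image, Finset.mem_Icc, Finset.mem_singleton]
    have e0 : ∀ q : ι → ℤ, evz 0 (b k₀) q = b k₀ := by
      intro q
      simp [evz]
    rw [e0]
    constructor
    · rintro ⟨t, ⟨ht0, ht1⟩, rfl⟩
      refine ⟨?_, ?_, ?_, ?_⟩
      · funext j
        simp [prj, hui]
      · simpa [hui] using ht0
      · simpa [hui] using ht1
      · simpa [hui] using ht1
    · rintro ⟨h1, h2, h3, -⟩
      refine ⟨y j₀, ⟨h2, h3⟩, ?_⟩
      funext j
      have := congrFun h1 j
      simp only [prj, Pi.zero_apply, Int.cast_id] at this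
      linarith
  have e0 : ∀ q : ι → ℤ, evz 0 (b k₀) q = b k₀ := by
    intro q
    simp [evz]
  have e0' : ∀ q : ι → ℝ, ev 0 (b k₀) q = b k₀ := by
    intro q
    simp [ev]
  have hhull := tot_hull (A := {0}) j₀ u hui (fun q hq => by rw [Finset.mem_singleton.1 hq]; rfl) 0 0 (b k₀) (b k₀) hB
    (fun q _ => by rw [e0]; exact hb) (fun q _ => by rw [e0]; exact hb) (hcov {0} (fun _ => 0))
    (fun a b' _ => Or.inl fun q _ => le_rfl)
  -- the set
  have hprj : ∀ y : ι → ℝ, prj j₀ u y = 0 ↔ ∀ j, j ≠ j₀ → y j = 0 := by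
    intro y
    constructor
    · intro h j hj
      have := congrFun h j
      simp only [prj, Pi.zero_apply, huj j hj, Int.cast_zero, mul_zero, sub_zero] at this
      exact this
    · intro h
      funext j
      by_cases hj : j = j₀
      · subst hj
        simp [prj, hui]
      · simp [prj, huj j hj, h j hj]
  have hev : ∀ y : ι → ℝ, (∀ j, j ≠ j₀ → y j = 0) → ev (c k₀) (b k₀) y = b k₀ - y j₀ := by
    intro y hy
    unfold ev
    rw [Finset.sum_eq_single j₀ (fun j _ hj => by rw [hy j hj, mul_zero]) (fun h => absurd (Finset.mem_univ _) h), hc]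
    push_cast
    ring
  have hset : ∀ y : ι → ℝ, y ∈ PI c b {k₀} {j₀} ↔ y ∈ hull B := by
    intro y
    rw [hhull, hull_zero, hprj, e0']
    constructor
    · rintro ⟨h1, h2, h3⟩
      have h4 : ∀ j, j ≠ j₀ → y j = 0 := fun j hj => h2 j (by simp [hj])
      have h5 := h3 k₀ (Finset.mem_singleton_self _)
      rw [hev y h4] at h5
      exact ⟨h4, h1 j₀, by linarith, by linarith⟩
    · rintro ⟨h1, h2, h3, -⟩
      refine ⟨fun j => ?_, fun j hj => h1 j (by simpa using hj), fun k hk => ?_⟩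
      · by_cases hj : j = j₀
        · subst hj; exact h2
        · rw [h1 j hj]
      · rw [Finset.mem_singleton.1 hk, hev y h1]
        linarith
  have hembB : ∀ x : ι → ℤ, x ∈ B ↔ emb x ∈ PI c b {k₀} {j₀} := by
    intro x
    rw [hset, hhull, hB, ← emb_prj, hull_zero, Finset.mem_singleton, e0, e0']
    have h1 : emb (prj j₀ u x) = (0 : ι → ℝ) ↔ prj j₀ u x = 0 := by
      constructor
      · intro h
        funext i
        have := congrFun h i
        simp only [emb, Pi.zero_apply] at this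
        exact_mod_cast this
      · intro h
        rw [h]
        funext i
        simp [emb]
    rw [h1]
    refine and_congr_right fun _ => ?_
    unfold emb
    norm_cast
  have hcont : ∀ (a : ι → ℝ) (b' : ℝ) (x : ι → ℤ), x ∈ contact B (fun x => ((x j₀ : ℤ) : ℝ) ^ 2) a b' →
      prj j₀ u x = 0 ∧ 0 ≤ x j₀ ∧ x j₀ ≤ b k₀ ∧ ((x j₀ : ℤ) : ℝ) ^ 2 + 0 * (x j₀ : ℤ) - a j₀ * (x j₀ : ℤ) = b' := by
    intro a b' x hx
    unfold contact at hx
    rw [Finset.mem_filter, hB, Finset.mem_singleton, e0] at hx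
    obtain ⟨⟨h1, h2, h3, -⟩, h4⟩ := hx
    refine ⟨h1, h2, h3, ?_⟩
    have h5 : ∀ j, j ≠ j₀ → x j = 0 := by
      intro j hj
      have := congrFun h1 j
      simp only [prj, Pi.zero_apply, huj j hj, Int.cast_id, mul_zero, sub_zero] at this
      exact this
    rw [Finset.sum_eq_single j₀ (fun j _ hj => by rw [h5 j hj]; simp) (fun h => absurd (Finset.mem_univ _) h)] at h4
    linarith
  have hmin : ∀ (a : ι → ℝ) (b' : ℝ), (∀ x ∈ B, ∑ i, a i * (x i : ℝ) + b' ≤ (fun x => ((x j₀ : ℤ) : ℝ) ^ 2) x) →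
      ∀ r : ℤ, 0 ≤ r → r ≤ b k₀ → b' ≤ (r : ℝ) ^ 2 + 0 * r - a j₀ * r := by
    intro a b' h r hr0 hr1
    have h1 := h (fun j => r * u j) (by
      rw [hB, Finset.mem_singleton, e0]
      refine ⟨?_, ?_, ?_, ?_⟩
      · funext j
        simp [prj, hui]
      · simpa [hui] using hr0
      · simpa [hui] using hr1
      · simpa [hui] using hr1)
    beta_reduce at h1
    rw [Finset.sum_eq_single j₀ (fun j _ hj => by rw [huj j hj]; simp) (fun h => absurd (Finset.mem_univ _) h), hui] at h1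
    push_cast at h1
    linarith
  refine ⟨B, fun x => ((x j₀ : ℤ) : ℝ) ^ 2, ?_, ?_, hembB, ?_⟩
  · intro a b' hab
    refine uni_tot (B₀ := {0}) j₀ u hui uni_zero (fun _ => b k₀) (fun _ => 0) (fun _ => b') (a j₀) (fun _ => le_rfl)
      (fun _ => zero_lt_one) ?_ (fun q _ r hr0 hr1 => hmin a b' hab r hr0 hr1) ?_
    · intro q hq q' hq' _
      rw [Finset.mem_singleton.1 hq, Finset.mem_singleton.1 hq']
    · intro y hy
      obtain ⟨h1, h2, h3, h4⟩ := hcont a b' y hy
      exact ⟨by rw [h1]; exact Finset.mem_singleton_self _, h2, h3, h4⟩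
  · ext y
    exact hset y
  · intro a b' hab x hx y hy
    obtain ⟨h1, h2, h3, h4⟩ := hcont a b' x hx
    obtain ⟨k1, k2, k3, k4⟩ := hcont a b' y hy
    have hsum : ∀ z : ι → ℤ, prj j₀ u z = 0 → ∑ i, θ i * z i = z j₀ := by
      intro z hz
      rw [Finset.sum_eq_single j₀ (fun j _ hj => ?_) (fun h => absurd (Finset.mem_univ _) h), hθ, one_mul]
      have := congrFun hz j
      simp only [prj, Pi.zero_apply, huj j hj, Int.cast_id, mul_zero, sub_zero] at this
      rw [this, mul_zero]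
    rw [hsum x h1, hsum y k1]
    rcases lt_trichotomy (x j₀) (y j₀) with h | h | h
    · omega
    · omega
    · have := (two_min (hmin a b' hab) k2 h h3 k4 h4).1
      omega

/-- the dilated simplex -/
theorem simp_rt (hcov : ∀ (A : Finset (ι → ℤ)) (w : (ι → ℤ) → ℝ), Covers (hull A) A w)
    {c : Fin 3 → ι → ℤ} {b : Fin 3 → ℤ} {k₀ : Fin 3} (hb : 0 ≤ b k₀) (S S₁ : Finset ι) (hS : S₁ ⊆ S)
    (hc : ∀ i ∈ S, c k₀ i = -1) : RT (PI c b {k₀} S) (fun i => if i ∈ S₁ then 1 else 0) := by
  classical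
  rcases S₁.eq_empty_or_nonempty with h0 | ⟨j₀, hj₀⟩
  · subst h0
    have h1 := addA hcov (base0 (c := c) (b := b) (K := {k₀}) (fun k hk => by rw [Finset.mem_singleton.1 hk]; exact hb)
      (fun i => if i ∈ (∅ : Finset ι) then 1 else 0)) S (fun i _ _ => by simp) (Finset.mem_singleton_self k₀)
      (fun i hi _ => hc i hi) (fun i _ _ k hk hk' => absurd (Finset.mem_singleton.1 hk) hk')
    simpa using h1
  · have h1 := base1 hcov (c := c) (b := b) (k₀ := k₀) (j₀ := j₀) (hc j₀ (hS hj₀)) hb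
      (θ := fun i => if i ∈ S₁ then 1 else 0) (by simp [hj₀])
    have h2 := addS hcov h1 (Finset.mem_singleton_self j₀) S₁ (fun i hi _ => by simp [hi, hj₀])
      (fun i hi _ k hk => by rw [Finset.mem_singleton.1 hk, hc i (hS hi), hc j₀ (hS hj₀)])
    have h3 := addA hcov h2 S (fun i hi hi' => by
      have : i ∉ S₁ := fun h => hi' (Finset.mem_union_right _ h)
      simp [this]) (Finset.mem_singleton_self k₀)
      (fun i hi _ => hc i hi) (fun i _ _ k hk hk' => absurd (Finset.mem_singleton.1 hk) hk')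
    have e : ({j₀} ∪ S₁) ∪ S = S := by
      ext i
      simp only [Finset.mem_union, Finset.mem_singleton]
      constructor
      · rintro ((rfl | h) | h)
        · exact hS hj₀
        · exact hS h
        · exact h
      · intro h
        exact Or.inr h
    rwa [e] at h3

end Pool.Agent.SPP
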