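import Pool.Agent.SPP.NfB

/-!
# [SPP-NfC] the normal form: what smoothness means for the coefficients
-/

open Finset

set_option autoImplicit false
set_option linter.unusedSectionVars false

namespace Pool.Agent.SPP

open Pool.Agent.SPB

variable {ι : Type} [Fintype ι] [DecidableEq ι]

theorem sum1 {R : Type} [CommRing R] (c z : ι → R) (i : ι) (h : ∀ j, j ≠ i → z j = 0) :
    ∑ j, c j * z j = c i * z i := by
  rw [Finset.sum_eq_single i (fun j _ hj => by rw [h j hj, mul_zero]) (fun h => absurd (Finset.mem_univ _) h)]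

theorem sum2 {R : Type} [CommRing R] (c z : ι → R) (i v : ι) (hiv : i ≠ v) (h : ∀ j, j ≠ i → j ≠ v → z j = 0) :
    ∑ j, c j * z j = c i * z i + c v * z v := by
  rw [← Finset.add_sum_erase univ _ (Finset.mem_univ i)]
  congr 1
  rw [Finset.sum_eq_single v]
  · intro j hj hjv
    rw [h j (Finset.ne_of_mem_erase hj) hjv, mul_zero]
  · intro h
    exact absurd (Finset.mem_erase.2 ⟨Ne.symm hiv, Finset.mem_univ v⟩) h

theorem sum3 {R : Type} [CommRing R] (c z : ι → R) (i v w : ι) (hiv : i ≠ v) (hiw : i ≠ w) (hvw : v ≠ w)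
    (h : ∀ j, j ≠ i → j ≠ v → j ≠ w → z j = 0) : ∑ j, c j * z j = c i * z i + c v * z v + c w * z w := by
  rw [← Finset.add_sum_erase univ _ (Finset.mem_univ i), add_assoc]
  congr 1
  rw [← Finset.add_sum_erase _ _ (Finset.mem_erase.2 ⟨Ne.symm hiv, Finset.mem_univ v⟩)]
  congr 1
  rw [Finset.sum_eq_single w]
  · intro j hj hjw
    have h1 := Finset.ne_of_mem_erase hj
    have h2 := Finset.ne_of_mem_erase (Finset.mem_of_mem_erase hj)
    rw [h j h2 h1 hjw, mul_zero]
  · intro h
    exact absurd (Finset.mem_erase.2 ⟨Ne.symm hvw, Finset.mem_erase.2 ⟨Ne.symm hiw, Finset.mem_univ w⟩⟩) h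

/-- the hypotheses on the normal form -/
structure NfH (c : Fin 3 → ι → ℤ) (b : Fin 3 → ℤ) (S W : Finset ι) : Prop where
  disj : Disjoint S W
  pos : ∀ k, 0 < b k
  c0S : ∀ i ∈ S, c 0 i = -1
  c0 : ∀ i, i ∉ S → c 0 i = 0
  c1W : ∀ i ∈ W, c 1 i = -1
  c1 : ∀ i, i ∉ S → i ∉ W → c 1 i = 0
  c2W : ∀ i ∈ W, c 2 i ≤ 0
  c2 : ∀ i, i ∉ S → i ∉ W → c 2 i ≤ -1
  h1 : ∀ y ∈ PI c b univ univ, ev (c 1) (b 1) y = 0 → ∃ z : ι → ℤ, (∀ i, y i = 0 → z i = 0) ∧
    (ev (c 0) (b 0) y = 0 → ∑ j, c 0 j * z j = 0) ∧ ∑ j, c 1 j * z j = 1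
  h2 : ∀ y ∈ PI c b univ univ, ev (c 2) (b 2) y = 0 → ∃ z : ι → ℤ, (∀ i, y i = 0 → z i = 0) ∧
    (ev (c 0) (b 0) y = 0 → ∑ j, c 0 j * z j = 0) ∧ (ev (c 1) (b 1) y = 0 → ∑ j, c 1 j * z j = 0) ∧
      ∑ j, c 2 j * z j = 1
  hf : ∀ u ∈ S, ∃ y ∈ PI c b univ univ, (∀ j ∈ S, j ≠ u → y j = 0) ∧ ev (c 0) (b 0) y = 0

/-- value of the function `k` at a vertex of the dilated simplex -/
def val (c : Fin 3 → ι → ℤ) (b : Fin 3 → ℤ) (k : Fin 3) (u : Option ι) : ℤ := b k + b 0 * u.elim 0 (c k)

/-- vertices of the dilated simplex -/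
def Va (S : Finset ι) (u : Option ι) : Prop := ∀ v, u = some v → v ∈ S

variable {c : Fin 3 → ι → ℤ} {b : Fin 3 → ℤ} {S W : Finset ι}

theorem mem_PI_univ {y : ι → ℝ} : y ∈ PI c b univ univ ↔ (∀ i, 0 ≤ y i) ∧ 0 ≤ ev (c 0) (b 0) y ∧
    0 ≤ ev (c 1) (b 1) y ∧ 0 ≤ ev (c 2) (b 2) y := by
  unfold PI
  simp only [Set.mem_ofPred_eq, Finset.mem_univ, not_true_eq_false, false_implies, implies_true, true_and,
    Fin.forall_fin_succ]
  simp

/-- the face points: `F₂ ≥ 0` (with zero coordinates in `W` if it vanishes) and `F₃` -/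
theorem NfH.face (H : NfH c b S W) {v : ι} (hv : v ∈ S) : 0 < val c b 1 (some v) ∧ 0 ≤ val c b 2 (some v) := by
  obtain ⟨y, hy, hy0, hy1⟩ := H.hf v hv
  have hyQ := mem_PI_univ.1 hy
  obtain ⟨hyn, -, hy2, hy3⟩ := hyQ
  have hα : (0 : ℝ) < b 0 := by exact_mod_cast H.pos 0
  -- `y v = α`
  have hyv : y v = b 0 := by
    unfold ev at hy1
    rw [Finset.sum_eq_single v] at hy1
    · rw [H.c0S v hv] at hy1
      push_cast at hy1
      linarith
    · intro j _ hj
      by_cases hjS : j ∈ S
      · rw [hy0 j hjS hj, mul_zero]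
      · rw [H.c0 j hjS]; simp
    · intro h
      exact absurd (Finset.mem_univ _) h
  -- expansions
  have hexp : ∀ k, ev (c k) (b k) y = val c b k (some v) + ∑ j ∈ univ.filter (fun j => j ∉ S), (c k j : ℝ) * y j := by
    intro k
    unfold ev val
    simp only [Option.elim_some]
    rw [← Finset.sum_filter_add_sum_filter_not univ (fun j => j ∉ S) (fun j => (c k j : ℝ) * y j)]
    have : ∑ j ∈ univ.filter (fun j => ¬ j ∉ S), (c k j : ℝ) * y j = (c k v : ℝ) * y v := by
      rw [Finset.sum_eq_single v]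
      · intro j hj hjv
        rw [Finset.mem_filter, not_not] at hj
        rw [hy0 j hj.2 hjv, mul_zero]
      · intro h
        exact absurd (by rw [Finset.mem_filter]; simp [hv]) h
    rw [this, hyv]
    push_cast
    ring
  have h2le : ∑ j ∈ univ.filter (fun j => j ∉ S), (c 1 j : ℝ) * y j ≤ 0 := by
    refine Finset.sum_nonpos fun j hj => ?_
    rw [Finset.mem_filter] at hj
    by_cases hjW : j ∈ W
    · rw [H.c1W j hjW]
      have := hyn j
      push_cast; linarith
    · rw [H.c1 j hj.2 hjW]; simp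
  have h3le : ∑ j ∈ univ.filter (fun j => j ∉ S), (c 2 j : ℝ) * y j ≤ 0 := by
    refine Finset.sum_nonpos fun j hj => ?_
    rw [Finset.mem_filter] at hj
    have h4 : (c 2 j : ℝ) ≤ 0 := by
      by_cases hjW : j ∈ W
      · exact_mod_cast H.c2W j hjW
      · have := H.c2 j hj.2 hjW
        have h5 : c 2 j ≤ 0 := by omega
        exact_mod_cast h5
    exact mul_nonpos_of_nonpos_of_nonneg h4 (hyn j)
  have e2 := hexp 1
  have e3 := hexp 2
  constructor
  · have h4 : (0 : ℝ) ≤ (val c b 1 (some v) : ℤ) := by linarith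
    have h5 : 0 ≤ val c b 1 (some v) := by exact_mod_cast h4
    rcases h5.eq_or_lt with h6 | h6
    · exfalso
      rw [← h6] at e2
      push_cast at e2
      have h7 : ∑ j ∈ univ.filter (fun j => j ∉ S), (c 1 j : ℝ) * y j = 0 := by linarith
      have h8 : ∀ j ∈ W, y j = 0 := by
        intro j hj
        have hjS : j ∉ S := fun h => Finset.disjoint_left.1 H.disj h hj
        have h9 := (Finset.sum_eq_zero_iff_of_nonpos (s := univ.filter (fun j => j ∉ S))
          (f := fun j => (c 1 j : ℝ) * y j) (fun i hi => by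
            rw [Finset.mem_filter] at hi
            by_cases hiW : i ∈ W
            · rw [H.c1W i hiW]
              have := hyn i
              push_cast; linarith
            · rw [H.c1 i hi.2 hiW]; simp)).1 h7 j (by rw [Finset.mem_filter]; exact ⟨Finset.mem_univ _, hjS⟩)
        beta_reduce at h9
        rw [H.c1W j hj] at h9
        push_cast at h9
        linarith
      obtain ⟨z, hz0, hz1, hz2⟩ := H.h1 y hy (by rw [e2, h7]; ring)
      have hz1' := hz1 hy1
      have hzW : ∀ j ∈ W, z j = 0 := fun j hj => hz0 j (h8 j hj)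
      have hzS : ∀ j ∈ S, j ≠ v → z j = 0 := fun j hj hjv => hz0 j (hy0 j hj hjv)
      have hzv : z v = 0 := by
        rw [Finset.sum_eq_single v] at hz1'
        · rw [H.c0S v hv] at hz1'
          linarith
        · intro j _ hj
          by_cases hjS : j ∈ S
          · rw [hzS j hjS hj, mul_zero]
          · rw [H.c0 j hjS]; simp
        · intro h
          exact absurd (Finset.mem_univ _) h
      have : ∑ j, c 1 j * z j = 0 := by
        refine Finset.sum_eq_zero fun j _ => ?_
        by_cases hjS : j ∈ S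
        · by_cases hjv : j = v
          · rw [hjv, hzv, mul_zero]
          · rw [hzS j hjS hjv, mul_zero]
        · by_cases hjW : j ∈ W
          · rw [hzW j hjW, mul_zero]
          · rw [H.c1 j hjS hjW]; simp
      omega
    · exact h6
  · have h4 : (0 : ℝ) ≤ (val c b 2 (some v) : ℤ) := by linarith
    exact_mod_cast h4

theorem NfH.val1_pos (H : NfH c b S W) {u : Option ι} (hu : Va S u) : 0 < val c b 1 u := by
  cases u with
  | none => simpa [val] using H.pos 1
  | some v => exact (H.face (hu v rfl)).1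

/-- one vertex `u` of the simplex and one coordinate `i` outside of `S` -/
theorem NfH.key1 (H : NfH c b S W) {u : Option ι} (hu : Va S u) {i : ι} (hi : i ∉ S) {t : ℝ} (ht : 0 ≤ t)
    (h1 : 0 ≤ (val c b 1 u : ℝ) + c 1 i * t) (h2 : (val c b 2 u : ℝ) + c 2 i * t = 0) :
    ∃ l : ℤ, (t = 0 → l = 0) ∧ ((val c b 1 u : ℝ) + c 1 i * t = 0 → l * c 1 i = 0) ∧ l * c 2 i = 1 := by
  have hα : (0 : ℝ) < b 0 := by exact_mod_cast H.pos 0
  cases u with
  | none =>
    simp only [val, Option.elim_none, mul_zero, add_zero] at h1 h2 ⊢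
    set x : ι → ℝ := fun j => if j = i then t else 0 with hx
    have hxi : x i = t := by simp [hx]
    have hxj : ∀ j, j ≠ i → x j = 0 := fun j hj => by simp [hx, hj]
    have hev : ∀ k, ev (c k) (b k) x = b k + c k i * t := by
      intro k
      unfold ev
      rw [sum1 _ x i hxj, hxi]
      ring
    obtain ⟨z, hz0, -, hz2, hz3⟩ := H.h2 x (mem_PI_univ.2 ⟨fun j => by
      by_cases hj : j = i
      · rw [hj, hxi]; exact ht
      · rw [hxj j hj], by rw [hev, H.c0 i hi]; push_cast; linarith, by rw [hev]; exact h1, by rw [hev, h2]⟩)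
      (by rw [hev, h2])
    have hzj : ∀ j, j ≠ i → z j = 0 := fun j hj => hz0 j (hxj j hj)
    refine ⟨z i, fun h => hz0 i (by rw [hxi, h]), fun h => ?_, ?_⟩
    · have := hz2 (by rw [hev, h])
      rw [sum1 _ z i hzj] at this
      linarith
    · rw [sum1 _ z i hzj] at hz3
      linarith
  | some v =>
    have hv := hu v rfl
    have hiv : i ≠ v := fun h => hi (h ▸ hv)
    simp only [val, Option.elim_some] at h1 h2 ⊢
    push_cast at h1 h2 ⊢
    set x : ι → ℝ := fun j => if j = i then t else if j = v then (b 0 : ℝ) else 0 with hx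
    have hxi : x i = t := by simp [hx]
    have hxv : x v = b 0 := by simp [hx, Ne.symm hiv]
    have hxj : ∀ j, j ≠ i → j ≠ v → x j = 0 := fun j hj hj' => by simp [hx, hj, hj']
    have hev : ∀ k, ev (c k) (b k) x = b k + b 0 * c k v + c k i * t := by
      intro k
      unfold ev
      rw [sum2 _ x i v hiv hxj, hxi, hxv]
      ring
    have hev0 : ev (c 0) (b 0) x = 0 := by
      rw [hev, H.c0 i hi, H.c0S v hv]; push_cast; ring
    obtain ⟨z, hz0, hz1, hz2, hz3⟩ := H.h2 x (mem_PI_univ.2 ⟨fun j => by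
      by_cases hj : j = i
      · rw [hj, hxi]; exact ht
      · by_cases hj' : j = v
        · rw [hj', hxv]; exact hα.le
        · rw [hxj j hj hj'], by rw [hev0], by rw [hev]; exact h1, by rw [hev, h2]⟩)
      (by rw [hev, h2])
    have hzj : ∀ j, j ≠ i → j ≠ v → z j = 0 := fun j hj hj' => hz0 j (hxj j hj hj')
    have hz1' := hz1 hev0
    rw [sum2 _ z i v hiv hzj, H.c0 i hi, H.c0S v hv] at hz1'
    have hzv : z v = 0 := by linarith
    refine ⟨z i, fun h => hz0 i (by rw [hxi, h]), fun h => ?_, ?_⟩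
    · have := hz2 (by rw [hev, h])
      rw [sum2 _ z i v hiv hzj, hzv] at this
      linarith
    · rw [sum2 _ z i v hiv hzj, hzv] at hz3
      linarith

/-- `F₃` is positive at the vertices of the simplex -/
theorem NfH.val2_pos (H : NfH c b S W) {u : Option ι} (hu : Va S u) : 0 < val c b 2 u := by
  cases u with
  | none => simpa [val] using H.pos 2
  | some v =>
    have hv := hu v rfl
    obtain ⟨h1, h2⟩ := H.face hv
    rcases h2.eq_or_lt with h3 | h3
    · exfalso
      have hα : (0 : ℝ) < b 0 := by exact_mod_cast H.pos 0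
      set x : ι → ℝ := fun j => if j = v then (b 0 : ℝ) else 0 with hx
      have hxv : x v = b 0 := by simp [hx]
      have hxj : ∀ j, j ≠ v → x j = 0 := fun j hj => by simp [hx, hj]
      have hev : ∀ k, ev (c k) (b k) x = (val c b k (some v) : ℝ) := by
        intro k
        unfold ev val
        rw [sum1 _ x v hxj, hxv]
        push_cast
        simp only [Option.elim_some]
        ring
      have hev0 : ev (c 0) (b 0) x = 0 := by
        rw [hev]
        unfold val
        simp only [Option.elim_some]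
        rw [H.c0S v hv]; push_cast; ring
      obtain ⟨z, hz0, hz1, -, hz3⟩ := H.h2 x (mem_PI_univ.2 ⟨fun j => by
        by_cases hj' : j = v
        · rw [hj', hxv]; exact hα.le
        · rw [hxj j hj'], by rw [hev0], by rw [hev]; exact_mod_cast h1.le, by rw [hev, ← h3]; simp⟩)
        (by rw [hev, ← h3]; simp)
      have hzj : ∀ j, j ≠ v → z j = 0 := fun j hj => hz0 j (hxj j hj)
      have hz1' := hz1 hev0
      rw [sum1 _ z v hzj, H.c0S v hv] at hz1'
      have hzv : z v = 0 := by linarith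
      rw [sum1 _ z v hzj, hzv] at hz3
      omega
    · exact h3

/-- the coefficients of `F₃` outside of `S ∪ W` -/
theorem NfH.c2_eq (H : NfH c b S W) {i : ι} (hi : i ∉ S) (hi' : i ∉ W) : c 2 i = -1 := by
  have h0 := H.c2 i hi hi'
  have h0' : (c 2 i : ℝ) < 0 := by
    have : c 2 i < 0 := by omega
    exact_mod_cast this
  have hb : (0 : ℝ) < b 2 := by exact_mod_cast H.pos 2
  have hb1 : (0 : ℝ) < b 1 := by exact_mod_cast H.pos 1
  obtain ⟨l, -, -, hl⟩ := H.key1 (u := none) (fun v hv => by cases hv) hi (t := (b 2 : ℝ) / (- c 2 i))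
    (div_nonneg hb.le (by linarith)) (by
      rw [H.c1 i hi hi']
      simp only [val, Option.elim_none, mul_zero, add_zero]
      push_cast
      linarith) (by
      simp only [val, Option.elim_none, mul_zero, add_zero]
      have : (c 2 i : ℝ) ≠ 0 := h0'.ne
      field_simp
      ring)
  rcases Int.isUnit_iff.1 (IsUnit.of_mul_eq_one_right l hl) with h | h
  · omega
  · exact h

/-- `F₃ ≠ 0` at the vertices of the base -/
theorem NfH.phi_ne (H : NfH c b S W) {u : Option ι} (hu : Va S u) {i : ι} (hi : i ∈ W) :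
    val c b 2 u + val c b 1 u * c 2 i ≠ 0 := by
  intro h
  have hiS : i ∉ S := fun h' => Finset.disjoint_left.1 H.disj h' hi
  have h1 := H.val1_pos hu
  have hL : (0 : ℝ) < (val c b 1 u : ℤ) := by exact_mod_cast h1
  obtain ⟨l, -, hl1, hl2⟩ := H.key1 hu hiS (t := (val c b 1 u : ℝ)) hL.le (by
    rw [H.c1W i hi]; push_cast; linarith) (by
    have : ((val c b 2 u + val c b 1 u * c 2 i : ℤ) : ℝ) = 0 := by rw [h]; simp
    push_cast at this
    linarith)
  have h2 := hl1 (by rw [H.c1W i hi]; push_cast; ring)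
  rw [H.c1W i hi] at h2
  have h3 : l = 0 := by linarith
  rw [h3] at hl2
  omega

/-- a negative value of `F₃` at a vertex of the base -/
theorem NfH.phi_neg (H : NfH c b S W) {u : Option ι} (hu : Va S u) {i : ι} (hi : i ∈ W)
    (h : val c b 2 u + val c b 1 u * c 2 i < 0) : c 2 i = -1 := by
  have hiS : i ∉ S := fun h' => Finset.disjoint_left.1 H.disj h' hi
  have h1 := H.val1_pos hu
  have h2 := H.val2_pos hu
  have hL : (0 : ℝ) < (val c b 1 u : ℤ) := by exact_mod_cast h1
  have hM : (0 : ℝ) < (val c b 2 u : ℤ) := by exact_mod_cast h2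
  have h3 : ((val c b 2 u + val c b 1 u * c 2 i : ℤ) : ℝ) < 0 := by exact_mod_cast h
  push_cast at h3
  have h4 : (c 2 i : ℝ) < 0 := by
    by_contra hcon
    push Not at hcon
    have := mul_nonneg hL.le hcon
    linarith
  obtain ⟨l, -, -, hl⟩ := H.key1 hu hiS (t := (val c b 2 u : ℝ) / (- c 2 i)) (div_nonneg hM.le (by linarith)) (by
    rw [H.c1W i hi]
    push_cast
    have : (val c b 2 u : ℝ) / (- c 2 i) ≤ val c b 1 u := by
      rw [div_le_iff₀ (by linarith)]
      linarith
    linarith) (by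
    have : (c 2 i : ℝ) ≠ 0 := h4.ne
    field_simp
    ring)
  rcases Int.isUnit_iff.1 (IsUnit.of_mul_eq_one_right l hl) with h | h
  · have h5 : c 2 i < 0 := by exact_mod_cast h4
    omega
  · exact h

end Pool.Agent.SPP
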