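import Pool.Agent.SPP.NfC

/-!
# [SPP-NfD] the normal form: sign changes of `F₃ - F₂` between vertices of the simplex
-/

open Finset

set_option autoImplicit false
set_option linter.unusedSectionVars false

namespace Pool.Agent.SPP

open Pool.Agent.SPB

variable {ι : Type} [Fintype ι] [DecidableEq ι] {c : Fin 3 → ι → ℤ} {b : Fin 3 → ℤ} {S W : Finset ι}

/-- `F₃ - F₂` at the vertices of the simplex -/
def psi (c : Fin 3 → ι → ℤ) (b : Fin 3 → ℤ) (u : Option ι) : ℤ := val c b 2 u - val c b 1 u

theorem psi_some (v : ι) : psi c b (some v) = psi c b none + b 0 * (c 2 v - c 1 v) := by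
  unfold psi val
  simp only [Option.elim_some, Option.elim_none]
  ring

private theorem tau {p q : ℝ} (h : p * q < 0) : ∃ t : ℝ, 0 < t ∧ t < 1 ∧ (1 - t) * p + t * q = 0 := by
  have hne : p - q ≠ 0 := by
    intro h0
    have : p = q := by linarith
    rw [this] at h
    nlinarith [mul_self_nonneg q]
  refine ⟨p / (p - q), ?_, ?_, ?_⟩
  · rcases lt_or_ge p 0 with hp | hp
    · have hq : 0 < q := by
        by_contra hcon
        push Not at hcon
        nlinarith
      exact div_pos_of_neg_of_neg hp (by linarith)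
    · have hp' : 0 < p := by
        rcases hp.eq_or_lt with h0 | h0
        · rw [← h0] at h; simp at h
        · exact h0
      have hq : q < 0 := by
        by_contra hcon
        push Not at hcon
        nlinarith
      exact div_pos hp' (by linarith)
  · rcases lt_or_ge p 0 with hp | hp
    · have hq : 0 < q := by
        by_contra hcon
        push Not at hcon
        nlinarith
      rw [div_lt_one_of_neg (by linarith)]
      linarith
    · have hp' : 0 < p := by
        rcases hp.eq_or_lt with h0 | h0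
        · rw [← h0] at h; simp at h
        · exact h0
      have hq : q < 0 := by
        by_contra hcon
        push Not at hcon
        nlinarith
      rw [div_lt_one (by linarith)]
      linarith
  · field_simp
    ring

theorem NfH.keyN (H : NfH c b S W) {i : ι} (hi : i ∈ W) (hci : c 2 i = -1) {v : ι} (hv : v ∈ S)
    (h : psi c b none * psi c b (some v) < 0) : c 2 v - c 1 v = 1 ∨ c 2 v - c 1 v = -1 := by
  have hiS : i ∉ S := fun h' => Finset.disjoint_left.1 H.disj h' hi
  have hα : (0 : ℝ) < b 0 := by exact_mod_cast H.pos 0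
  have hb1 : (0 : ℝ) < b 1 := by exact_mod_cast H.pos 1
  have h1v : (0 : ℝ) < (val c b 1 (some v) : ℤ) := by exact_mod_cast (H.val1_pos (u := some v) (fun w hw => by
    cases hw; exact hv))
  have hr : ((psi c b none : ℤ) : ℝ) * ((psi c b (some v) : ℤ) : ℝ) < 0 := by exact_mod_cast h
  obtain ⟨τ, ht0, ht1, ht⟩ := tau hr
  have hiv : i ≠ v := fun h => hiS (h ▸ hv)
  unfold psi at ht
  simp only [val, Option.elim_some, Option.elim_none, mul_zero, add_zero] at ht h1v
  push_cast at ht h1v
  set t : ℝ := (1 - τ) * b 1 + τ * (b 1 + b 0 * c 1 v) with htd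
  have htp : 0 < t := add_pos (mul_pos (by linarith) hb1) (mul_pos ht0 h1v)
  set x : ι → ℝ := fun j => if j = i then t else if j = v then τ * (b 0 : ℝ) else 0 with hx
  have hxi : x i = t := by simp [hx]
  have hxv : x v = τ * b 0 := by simp [hx, Ne.symm hiv]
  have hxj : ∀ j, j ≠ i → j ≠ v → x j = 0 := fun j hj hj' => by simp [hx, hj, hj']
  have hev : ∀ k, ev (c k) (b k) x = b k + τ * b 0 * c k v + c k i * t := by
    intro k
    unfold ev
    rw [sum2 _ x i v hiv hxj, hxi, hxv]
    ring
  have hev0 : ev (c 0) (b 0) x = (1 - τ) * b 0 := by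
    rw [hev, H.c0 i hiS, H.c0S v hv]; push_cast; ring
  have hev1 : ev (c 1) (b 1) x = 0 := by
    rw [hev, H.c1W i hi, htd]; push_cast; ring
  have hev2 : ev (c 2) (b 2) x = 0 := by
    rw [hev, hci, htd]; push_cast; linarith
  obtain ⟨z, hz0, -, hz2, hz3⟩ := H.h2 x (mem_PI_univ.2 ⟨fun j => by
    by_cases hj : j = i
    · rw [hj, hxi]; exact htp.le
    · by_cases hj' : j = v
      · rw [hj', hxv]; exact (mul_pos ht0 hα).le
      · rw [hxj j hj hj'], by rw [hev0]; exact (mul_pos (by linarith) hα).le, by rw [hev1], by rw [hev2]⟩) hev2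
  have hzj : ∀ j, j ≠ i → j ≠ v → z j = 0 := fun j hj hj' => hz0 j (hxj j hj hj')
  have hz2' := hz2 hev1
  rw [sum2 _ z i v hiv hzj, H.c1W i hi] at hz2'
  rw [sum2 _ z i v hiv hzj, hci] at hz3
  have h3 : (c 2 v - c 1 v) * z v = 1 := by linarith
  exact Int.isUnit_iff.1 (IsUnit.of_mul_eq_one (z v) h3)

theorem NfH.keyS (H : NfH c b S W) {i : ι} (hi : i ∈ W) (hci : c 2 i = -1) {v w : ι} (hv : v ∈ S) (hw : w ∈ S)
    (h : psi c b (some w) * psi c b (some v) < 0) :
    (c 2 v - c 1 v) - (c 2 w - c 1 w) = 1 ∨ (c 2 v - c 1 v) - (c 2 w - c 1 w) = -1 := by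
  have hiS : i ∉ S := fun h' => Finset.disjoint_left.1 H.disj h' hi
  have hα : (0 : ℝ) < b 0 := by exact_mod_cast H.pos 0
  have h1v : (0 : ℝ) < (val c b 1 (some v) : ℤ) := by exact_mod_cast (H.val1_pos (u := some v) (fun w hw => by
    cases hw; exact hv))
  have h1w : (0 : ℝ) < (val c b 1 (some w) : ℤ) := by exact_mod_cast (H.val1_pos (u := some w) (fun v hv => by
    cases hv; exact hw))
  have hr : ((psi c b (some w) : ℤ) : ℝ) * ((psi c b (some v) : ℤ) : ℝ) < 0 := by exact_mod_cast h
  obtain ⟨τ, ht0, ht1, ht⟩ := tau hr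
  have hiv : i ≠ v := fun h => hiS (h ▸ hv)
  have hiw : i ≠ w := fun h => hiS (h ▸ hw)
  have hvw : v ≠ w := by
    rintro rfl
    have := mul_self_nonneg (psi c b (some v))
    omega
  unfold psi at ht
  simp only [val, Option.elim_some] at ht h1v h1w
  push_cast at ht h1v h1w
  set t : ℝ := (1 - τ) * (b 1 + b 0 * c 1 w) + τ * (b 1 + b 0 * c 1 v) with htd
  have htp : 0 < t := add_pos (mul_pos (by linarith) h1w) (mul_pos ht0 h1v)
  set x : ι → ℝ := fun j => if j = i then t else if j = v then τ * (b 0 : ℝ) else if j = w then (1 - τ) * (b 0 : ℝ)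
    else 0 with hx
  have hxi : x i = t := by simp [hx]
  have hxv : x v = τ * b 0 := by simp [hx, Ne.symm hiv]
  have hxw : x w = (1 - τ) * b 0 := by simp [hx, Ne.symm hiw, Ne.symm hvw]
  have hxj : ∀ j, j ≠ i → j ≠ v → j ≠ w → x j = 0 := fun j hj hj' hj'' => by simp [hx, hj, hj', hj'']
  have hev : ∀ k, ev (c k) (b k) x = b k + τ * b 0 * c k v + (1 - τ) * b 0 * c k w + c k i * t := by
    intro k
    unfold ev
    rw [sum3 _ x i v w hiv hiw hvw hxj, hxi, hxv, hxw]
    ring
  have hev0 : ev (c 0) (b 0) x = 0 := by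
    rw [hev, H.c0 i hiS, H.c0S v hv, H.c0S w hw]; push_cast; ring
  have hev1 : ev (c 1) (b 1) x = 0 := by
    rw [hev, H.c1W i hi, htd]; push_cast; ring
  have hev2 : ev (c 2) (b 2) x = 0 := by
    rw [hev, hci, htd]; push_cast; linarith
  obtain ⟨z, hz0, hz1, hz2, hz3⟩ := H.h2 x (mem_PI_univ.2 ⟨fun j => by
    by_cases hj : j = i
    · rw [hj, hxi]; exact htp.le
    · by_cases hj' : j = v
      · rw [hj', hxv]; exact (mul_pos ht0 hα).le
      · by_cases hj'' : j = w
        · rw [hj'', hxw]; exact (mul_pos (by linarith) hα).le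
        · rw [hxj j hj hj' hj''], by rw [hev0], by rw [hev1], by rw [hev2]⟩) hev2
  have hzj : ∀ j, j ≠ i → j ≠ v → j ≠ w → z j = 0 := fun j hj hj' hj'' => hz0 j (hxj j hj hj' hj'')
  have hz1' := hz1 hev0
  have hz2' := hz2 hev1
  rw [sum3 _ z i v w hiv hiw hvw hzj, H.c0 i hiS, H.c0S v hv, H.c0S w hw] at hz1'
  rw [sum3 _ z i v w hiv hiw hvw hzj, H.c1W i hi] at hz2'
  rw [sum3 _ z i v w hiv hiw hvw hzj, hci] at hz3
  have e1 : z w = - z v := by linarith
  rw [e1] at hz2' hz3
  have h3 : ((c 2 v - c 1 v) - (c 2 w - c 1 w)) * z v = 1 := by linarith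
  exact Int.isUnit_iff.1 (IsUnit.of_mul_eq_one (z v) h3)

/-- vertices with different signs of `F₃ - F₂` -/
theorem NfH.psi_diff (H : NfH c b S W) {i : ι} (hi : i ∈ W) (hci : c 2 i = -1) {u u' : Option ι} (hu : Va S u)
    (hu' : Va S u') (h : 0 < psi c b u) (h' : psi c b u' < 0) : psi c b u - psi c b u' = b 0 := by
  have hα := H.pos 0
  have hprod : psi c b u * psi c b u' < 0 := mul_neg_of_pos_of_neg h h'
  cases u with
  | none =>
    cases u' with
    | none => omega
    | some v =>
      have hk := H.keyN hi hci (hu' v rfl) hprod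
      rw [psi_some] at h' ⊢
      rcases hk with hk | hk
      · rw [hk] at h'; omega
      · rw [hk]; ring
  | some v =>
    cases u' with
    | none =>
      have hk := H.keyN hi hci (hu v rfl) (by rw [mul_comm]; exact hprod)
      rw [psi_some] at h ⊢
      rcases hk with hk | hk
      · rw [hk]; ring
      · rw [hk] at h; omega
    | some w =>
      have hk := H.keyS hi hci (hu v rfl) (hu' w rfl) (by rw [mul_comm]; exact hprod)
      have e : psi c b (some v) - psi c b (some w) = b 0 * ((c 2 v - c 1 v) - (c 2 w - c 1 w)) := by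
        rw [psi_some, psi_some]; ring
      rcases hk with hk | hk
      · rw [e, hk]; ring
      · rw [hk] at e; omega

end Pool.Agent.SPP
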