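import Pool.Agent.SPP.Sys

/-!
# [SPP-Rel] zero-sum collections of rows
-/

open Finset

set_option autoImplicit false
set_option linter.unusedSectionVars false

namespace Pool.Agent.SPP

open Pool.Agent.SPB

variable {J n : Type} [Fintype J] [Fintype n] [DecidableEq J] [DecidableEq n]

/-- `D` is a face -/
def IsF (a : J → n → ℤ) (h : J → ℤ) (D : Finset J) : Prop := ∃ x ∈ pol a h, ∀ j ∈ D, ev (a j) (h j) x = 0

/-- nonnegative (outside of `D`) relations of the rows -/
private structure R (a : J → n → ℤ) (h : J → ℤ) (D : Finset J) (r : J → ℤ) : Prop where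
  rel : ∀ k, ∑ j, r j * a j k = 0
  nonneg : ∀ j, j ∉ D → 0 ≤ r j
  face : ∀ j, j ∉ D → r j ≠ 0 → IsF a h (insert j D)
  ne : ∃ j, j ∉ D ∧ r j ≠ 0

private theorem wt {a : J → n → ℤ} {h : J → ℤ} {D : Finset J} {r : J → ℤ} (hr : ∀ k, ∑ j, r j * a j k = 0)
    {x : n → ℝ} (hx : ∀ j ∈ D, ev (a j) (h j) x = 0) :
    ((∑ j, r j * h j : ℤ) : ℝ) = ∑ j ∈ univ.filter (fun j => j ∉ D), (r j : ℝ) * ev (a j) (h j) x := by
  have h1 : ∑ j ∈ univ.filter (fun j => j ∉ D), (r j : ℝ) * ev (a j) (h j) x =
      ∑ j, (r j : ℝ) * ev (a j) (h j) x := by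
    rw [Finset.sum_filter]
    refine Finset.sum_congr rfl fun j _ => ?_
    by_cases hj : j ∈ D
    · rw [hx j hj]; simp
    · rw [if_pos hj]
  rw [h1]
  unfold ev
  simp only [mul_add, Finset.sum_add_distrib]
  have h2 : ∑ j, (r j : ℝ) * ∑ i, (a j i : ℝ) * x i = ∑ i, ((∑ j, r j * a j i : ℤ) : ℝ) * x i := by
    push_cast
    simp only [Finset.mul_sum, Finset.sum_mul]
    rw [Finset.sum_comm]
    refine Finset.sum_congr rfl fun j _ => Finset.sum_congr rfl fun i _ => by ring
  rw [h2]
  simp only [hr, Int.cast_zero, zero_mul, Finset.sum_const_zero, zero_add]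
  push_cast
  rfl

private theorem R.pos {a : J → n → ℤ} {h : J → ℤ} (hK : IsCompact (pol a h)) (hT : TS a h) {D : Finset J}
    (hD : IsF a h D) {r : J → ℤ} (hr : R a h D r) : 0 < ∑ j, r j * h j := by
  obtain ⟨j, hj, hrj⟩ := hr.ne
  obtain ⟨x, hx, hxD, hxj⟩ := exists_pos hK hT D hD hj
  have h1 := wt hr.rel hxD
  have h2 : (0 : ℝ) < ∑ j ∈ univ.filter (fun j => j ∉ D), (r j : ℝ) * ev (a j) (h j) x := by
    refine Finset.sum_pos' (fun i hi => ?_) ⟨j, by simp [hj], ?_⟩
    · rw [Finset.mem_filter] at hi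
      exact mul_nonneg (by exact_mod_cast hr.nonneg i hi.2) (hx i)
    · refine mul_pos ?_ hxj
      have := hr.nonneg j hj
      have h3 : 0 < r j := lt_of_le_of_ne this (Ne.symm hrj)
      exact_mod_cast h3
  rw [← h1] at h2
  exact_mod_cast h2

theorem exists_coll {a : J → n → ℤ} {h : J → ℤ} (hK : IsCompact (pol a h)) (hT : TS a h) (D : Finset J)
    {v : n → ℤ} {b : J → n → ℤ} (hv : Vert a h v b) (hD : D ⊆ tight a h v) (hne : D ≠ tight a h v) :
    ∃ (C : Finset J) (m : J → ℤ), C.Nonempty ∧ Disjoint C D ∧ (∀ j ∈ C, m j = 1) ∧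
      (∀ j, j ∉ C → j ∉ D → m j = 0) ∧ (∀ k, ∑ j, m j * a j k = 0) ∧ ¬ IsF a h (D ∪ C) ∧
      (∀ j ∈ C, IsF a h (D ∪ C.erase j)) ∧ ∀ j ∈ C, IsF a h (insert j D) := by
  classical
  have hDF : IsF a h D := ⟨emb v, hv.mem, fun j hj => mem_tight.1 (hD hj)⟩
  -- a relation exists
  have hex : ∃ r, R a h D r := by
    obtain ⟨j, hj, hjD⟩ : ∃ j ∈ tight a h v, j ∉ D := by
      by_contra hcon
      push Not at hcon
      exact hne (Finset.Subset.antisymm hD hcon)
    obtain ⟨v', b', hv', hD', hn'⟩ := exists_vert hK hT D hDF (fun k => - a j k)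
    refine ⟨fun i => (if i = j then 1 else 0) + if i ∈ tight a h v' then ∑ l, (- a j l) * b' i l else 0, ?_, ?_, ?_, ?_⟩
    · intro k
      have h1 := hv'.expand (fun k => - a j k) k
      simp only [add_mul, Finset.sum_add_distrib, ite_mul, one_mul, zero_mul, Finset.sum_ite_eq', Finset.mem_univ,
        if_true]
      rw [← Finset.sum_filter]
      have h2 : univ.filter (fun i => i ∈ tight a h v') = tight a h v' := by ext; simp
      rw [h2, ← h1]
      ring
    · intro i hi
      beta_reduce
      have h1 : (0 : ℤ) ≤ if i = j then 1 else 0 := by split_ifs <;> norm_num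
      have h2 : (0 : ℤ) ≤ if i ∈ tight a h v' then ∑ l, (- a j l) * b' i l else 0 := by
        split_ifs with h3
        · exact hn' i h3 hi
        · exact le_rfl
      exact add_nonneg h1 h2
    · intro i hi hne'
      by_cases h1 : i = j
      · subst h1
        refine ⟨emb v, hv.mem, fun l hl => ?_⟩
        rcases Finset.mem_insert.1 hl with rfl | hl
        · exact mem_tight.1 hj
        · exact mem_tight.1 (hD hl)
      · by_cases h2 : i ∈ tight a h v'
        · refine ⟨emb v', hv'.mem, fun l hl => ?_⟩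
          rcases Finset.mem_insert.1 hl with rfl | hl
          · exact mem_tight.1 h2
          · exact mem_tight.1 (hD' hl)
        · exact absurd (by simp [h1, h2]) hne'
    · refine ⟨j, hjD, ?_⟩
      have h2 : (0 : ℤ) ≤ if j ∈ tight a h v' then ∑ l, (- a j l) * b' j l else 0 := by
        split_ifs with h3
        · exact hn' j h3 hjD
        · exact le_rfl
      beta_reduce
      rw [if_pos rfl]
      omega
  -- a relation of minimal weight
  obtain ⟨r, hr, hmin⟩ : ∃ r, R a h D r ∧ ∀ r', R a h D r' → ∑ j, r j * h j ≤ ∑ j, r' j * h j := by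
    have hex' : ∃ N : ℕ, ∃ r, R a h D r ∧ (∑ j, r j * h j).toNat = N := by
      obtain ⟨r, hr⟩ := hex
      exact ⟨_, r, hr, rfl⟩
    obtain ⟨r, hr, hN⟩ := Nat.find_spec hex'
    refine ⟨r, hr, fun r' hr' => ?_⟩
    have h1 := Nat.find_min' hex' ⟨r', hr', rfl⟩
    rw [← hN] at h1
    have h2 := hr.pos hK hT hDF
    have h3 := hr'.pos hK hT hDF
    omega
  -- minimal nonface in the support
  set S : Finset J := univ.filter (fun j => j ∉ D ∧ r j ≠ 0) with hS
  have hSn : ¬ IsF a h (D ∪ S) := by
    rintro ⟨x, hx, hx0⟩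
    have h1 := wt (h := h) hr.rel (fun j hj => hx0 j (Finset.mem_union_left _ hj))
    have h0 : ∑ j ∈ univ.filter (fun j => j ∉ D), (r j : ℝ) * ev (a j) (h j) x = 0 := by
      refine Finset.sum_eq_zero fun i hi => ?_
      rw [Finset.mem_filter] at hi
      by_cases h0 : r i = 0
      · rw [h0]; simp
      · rw [hx0 i (Finset.mem_union_right _ (by rw [hS, Finset.mem_filter]; exact ⟨Finset.mem_univ _, hi.2, h0⟩))]
        simp
    rw [h0] at h1
    have h2 := hr.pos hK hT hDF
    have h3 : ∑ j, r j * h j = 0 := by exact_mod_cast h1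
    omega
  obtain ⟨C, hC, hCmin⟩ := (S.powerset.filter (fun C => ¬ IsF a h (D ∪ C))).exists_min_image (fun C => C.card)
    ⟨S, by simp [hSn]⟩
  rw [Finset.mem_filter, Finset.mem_powerset] at hC
  obtain ⟨hCS, hCn⟩ := hC
  have hCD : ∀ j ∈ C, j ∉ D ∧ r j ≠ 0 := by
    intro j hj
    have := hCS hj
    rw [hS, Finset.mem_filter] at this
    exact this.2
  have hCe : ∀ j ∈ C, IsF a h (D ∪ C.erase j) := by
    intro j hj
    by_contra hcon
    have h1 := hCmin (C.erase j) (by
      rw [Finset.mem_filter, Finset.mem_powerset]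
      exact ⟨(Finset.erase_subset _ _).trans hCS, hcon⟩)
    have h2 := Finset.card_erase_lt_of_mem hj
    omega
  obtain ⟨v', b', hv', hD', hn'⟩ := exists_vert hK hT D hDF (fun k => ∑ j ∈ C, a j k)
  set m : J → ℤ := fun i => if i ∈ tight a h v' then ∑ l, (∑ j ∈ C, a j l) * b' i l else 0 with hm
  have hm0 : ∀ i, i ∉ D → 0 ≤ m i := by
    intro i hi
    rw [hm]
    beta_reduce
    split_ifs with h1
    · exact hn' i h1 hi
    · exact le_rfl
  have hmt : ∀ i, m i ≠ 0 → i ∈ tight a h v' := by
    intro i hi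
    by_contra h1
    exact hi (by rw [hm]; simp [h1])
  have hmsum : ∀ k, ∑ i, m i * a i k = ∑ j ∈ C, a j k := by
    intro k
    have h1 := hv'.expand (fun k => ∑ j ∈ C, a j k) k
    rw [hm]
    simp only [ite_mul, zero_mul]
    rw [← Finset.sum_filter]
    have h2 : univ.filter (fun i => i ∈ tight a h v') = tight a h v' := by ext; simp
    rw [h2]
    exact h1.symm
  set r' : J → ℤ := fun i => r i - (if i ∈ C then 1 else 0) + m i with hr'
  have hr'0 : ∀ i, i ∉ D → 0 ≤ r i - (if i ∈ C then 1 else 0) := by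
    intro i hi
    have h1 := hr.nonneg i hi
    split_ifs with h2
    · have := (hCD i h2).2
      omega
    · omega
  have hzero : ∀ i, i ∉ D → r' i = 0 := by
    by_contra hcon
    push Not at hcon
    have hR : R a h D r' := by
      refine ⟨?_, ?_, ?_, hcon⟩
      · intro k
        have e : ∀ i, r' i * a i k = r i * a i k - (if i ∈ C then a i k else 0) + m i * a i k := by
          intro i
          rw [hr']
          beta_reduce
          split_ifs <;> ring
        simp only [e, Finset.sum_add_distrib, Finset.sum_sub_distrib, hr.rel k, hmsum k]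
        rw [← Finset.sum_filter]
        have h2 : univ.filter (fun i => i ∈ C) = C := by ext; simp
        rw [h2]
        ring
      · intro i hi
        exact add_nonneg (hr'0 i hi) (hm0 i hi)
      · intro i hi hri
        by_cases h1 : r i = 0
        · have h2 : i ∉ C := fun h => (hCD i h).2 h1
          have h3 : m i ≠ 0 := by
            intro h4
            apply hri
            rw [hr']
            simp [h1, h2, h4]
          refine ⟨emb v', hv'.mem, fun l hl => ?_⟩
          rcases Finset.mem_insert.1 hl with rfl | hl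
          · exact mem_tight.1 (hmt _ h3)
          · exact mem_tight.1 (hD' hl)
        · exact hr.face i hi h1
    have h1 := hmin r' hR
    have hx : ∀ j ∈ D, ev (a j) (h j) (emb v') = 0 := fun j hj => mem_tight.1 (hD' hj)
    have h2 := wt (h := h) hr.rel hx
    have h3 := wt (h := h) hR.rel hx
    have h4 : ∑ j ∈ univ.filter (fun j => j ∉ D), (r' j : ℝ) * ev (a j) (h j) (emb v') =
        ∑ j ∈ univ.filter (fun j => j ∉ D), (r j : ℝ) * ev (a j) (h j) (emb v') -
          ∑ j ∈ C, ev (a j) (h j) (emb v') := by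
      have e1 : ∑ j ∈ C, ev (a j) (h j) (emb v') =
          ∑ j ∈ univ.filter (fun j => j ∉ D), if j ∈ C then ev (a j) (h j) (emb v') else 0 := by
        rw [← Finset.sum_filter, Finset.filter_filter]
        refine Finset.sum_congr ?_ fun _ _ => rfl
        ext j
        simp only [Finset.mem_filter, Finset.mem_univ, true_and]
        exact ⟨fun h => ⟨(hCD j h).1, h⟩, fun h => h.2⟩
      rw [e1, ← Finset.sum_sub_distrib]
      refine Finset.sum_congr rfl fun j _ => ?_
      have e2 : (m j : ℝ) * ev (a j) (h j) (emb v') = 0 := by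
        by_cases h5 : m j = 0
        · rw [h5]; simp
        · rw [mem_tight.1 (hmt j h5), mul_zero]
      have e3 : (r' j : ℝ) = r j - (if j ∈ C then 1 else 0) + m j := by
        rw [hr']
        push_cast
        rfl
      rw [e3, add_mul, e2]
      split_ifs <;> ring
    have h5 : 0 < ∑ j ∈ C, ev (a j) (h j) (emb v') := by
      refine Finset.sum_pos' (fun j _ => hv'.mem j) ?_
      by_contra hcon2
      push Not at hcon2
      apply hCn
      refine ⟨emb v', hv'.mem, fun j hj => ?_⟩
      rcases Finset.mem_union.1 hj with hj | hj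
      · exact hx j hj
      · exact le_antisymm (hcon2 j hj) (hv'.mem j)
    rw [h4, ← h2] at h3
    have h6 : ((∑ j, r' j * h j : ℤ) : ℝ) < ((∑ j, r j * h j : ℤ) : ℝ) := by linarith
    have h7 : ∑ j, r' j * h j < ∑ j, r j * h j := by exact_mod_cast h6
    omega
  have hfin : ∀ i, i ∉ D → r i = if i ∈ C then 1 else 0 := by
    intro i hi
    have h1 := hzero i hi
    have h2 := hr'0 i hi
    have h3 := hm0 i hi
    have h4 : r i - (if i ∈ C then 1 else 0) + m i = 0 := h1
    omega
  refine ⟨C, r, ?_, ?_, ?_, ?_, hr.rel, hCn, hCe, ?_⟩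
  · rw [Finset.nonempty_iff_ne_empty]
    rintro rfl
    exact hCn (by simpa using hDF)
  · rw [Finset.disjoint_left]
    exact fun j hj => (hCD j hj).1
  · intro j hj
    rw [hfin j (hCD j hj).1, if_pos hj]
  · intro j hj hjD
    rw [hfin j hjD, if_neg hj]
  · intro j hj
    exact hr.face j (hCD j hj).1 (hCD j hj).2

end Pool.Agent.SPP
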