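import Pool.Agent.SPP.Defs

/-!
# [SPP-Stb] uniform stability of the lower faces

Adaptation of the proof of `stab` (SPB/Stab; copy its private lemmas `stab_bary`, `stab_mem`). For each nonempty `B ⊆ A` let `x_B` be its barycentre, `(a₀, b₀)` from `Covers`: `φ₀ ≤ w` on `A`, `x_B ∈ hull C`, `C = contact A w a₀ b₀`; `G B = ∑_{x ∈ B} (w x - φ₀ x) ≥ 0`;
`ε > 0` with `2 ε #B < G B` for all `B` with `G B > 0`. Let `|w' - w - f| ≤ ε` on `A`, `φ ≤ w'` on `A` with contact set `B ≠ ∅`, and `ψ ≤ f` on `A`, `ψ = f` on `C` (hypothesis for `(a₀, b₀)`). `avg_B w' = φ(x_B) = ∑_C μ_c φ(c) ≤ ∑ μ_c w'(c) ≤ ∑ μ_c (w c + f c) + ε = φ₀(x_B) + ψ(x_B) + ε`,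
`avg_B w' ≥ avg_B w + avg_B f - ε ≥ avg_B w + ψ(x_B) - ε`. So `G B ≤ 2 ε #B`, `G B = 0`, `B ⊆ C`. (`B = ∅`: any admissible `(a₀, b₀)`, e.g. `a₀ = 0` and `b₀` small.)
-/

open Finset

set_option autoImplicit false

namespace Pool.Agent.SPP

open Pool.Agent.SPB

/-- values of an affine function at the barycentre -/
private lemma stab_bary {ι : Type} [Fintype ι] (B : Finset (ι → ℤ)) (a : ι → ℝ) (b : ℝ)
    (z : ι → ℝ) (m : (ι → ℤ) → ℝ) (m1 : ∑ y ∈ B, m y = 1)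
    (hz : ∀ i, ∑ y ∈ B, m y * (y i : ℝ) = z i) :
    ∑ y ∈ B, m y * (∑ i, a i * (y i : ℝ) + b) = ∑ i, a i * z i + b := by
  have e1 : ∀ y ∈ B, m y * (∑ i, a i * (y i : ℝ) + b) =
      ∑ i, a i * (m y * (y i : ℝ)) + m y * b := by
    intro y _
    rw [mul_add, Finset.mul_sum]
    congr 1
    apply Finset.sum_congr rfl
    intro i _
    ring
  rw [Finset.sum_congr rfl e1, Finset.sum_add_distrib, Finset.sum_comm, ← Finset.sum_mul, m1,
    one_mul]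
  congr 1
  apply Finset.sum_congr rfl
  intro i _
  rw [← Finset.mul_sum, hz i]

/-- the barycentre lies in the hull -/
private lemma stab_mem {ι : Type} {A B : Finset (ι → ℤ)} (hBA : B ⊆ A) (hB : B.Nonempty) :
    (fun i => ∑ y ∈ B, (#B : ℝ)⁻¹ * (y i : ℝ)) ∈ hull A := by
  classical
  have hc : (#B : ℝ) ≠ 0 := by
    have := hB.card_pos
    positivity
  rw [mem_hull]
  refine ⟨fun y => if y ∈ B then (#B : ℝ)⁻¹ else 0, fun y _ => ?_, ?_, fun i => ?_⟩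
  · beta_reduce
    split_ifs
    · positivity
    · exact le_rfl
  · rw [← Finset.sum_filter, Finset.filter_mem_eq_inter, Finset.inter_eq_right.2 hBA,
      Finset.sum_const, nsmul_eq_mul, mul_inv_cancel₀ hc]
  · have e1 : ∀ y ∈ A, (if y ∈ B then (#B : ℝ)⁻¹ else 0) * (y i : ℝ) =
        if y ∈ B then (#B : ℝ)⁻¹ * (y i : ℝ) else 0 := by
      intro y _
      split_ifs <;> simp
    rw [Finset.sum_congr rfl e1, ← Finset.sum_filter, Finset.filter_mem_eq_inter,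
      Finset.inter_eq_right.2 hBA]

theorem stabU {ι : Type} [Fintype ι] {A : Finset (ι → ℤ)} {w : (ι → ℤ) → ℝ} (hc : Covers (hull A) A w) :
    ∃ ε > 0, ∀ w' f : (ι → ℤ) → ℝ, (∀ x ∈ A, |w' x - w x - f x| ≤ ε) →
      (∀ (a : ι → ℝ) (b : ℝ), (∀ x ∈ A, ∑ i, a i * (x i : ℝ) + b ≤ w x) → ∃ (a' : ι → ℝ) (b' : ℝ),
        (∀ x ∈ A, ∑ i, a' i * (x i : ℝ) + b' ≤ f x) ∧
          ∀ x ∈ contact A w a b, ∑ i, a' i * (x i : ℝ) + b' = f x) →
      ∀ (a : ι → ℝ) (b : ℝ), (∀ x ∈ A, ∑ i, a i * (x i : ℝ) + b ≤ w' x) → ∃ (a₀ : ι → ℝ) (b₀ : ℝ),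
        (∀ x ∈ A, ∑ i, a₀ i * (x i : ℝ) + b₀ ≤ w x) ∧ contact A w' a b ⊆ contact A w a₀ b₀ := by
  classical
  have hch : ∀ B : Finset (ι → ℤ), ∃ (a : ι → ℝ) (b : ℝ), B ⊆ A → B.Nonempty →
      (∀ x ∈ A, ∑ i, a i * (x i : ℝ) + b ≤ w x) ∧
      (fun i => ∑ y ∈ B, (#B : ℝ)⁻¹ * (y i : ℝ)) ∈ hull (contact A w a b) := by
    intro B
    by_cases hB : B ⊆ A ∧ B.Nonempty
    · obtain ⟨a, b, h1, h2⟩ := hc _ (stab_mem hB.1 hB.2)
      exact ⟨a, b, fun _ _ => ⟨h1, h2⟩⟩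
    · exact ⟨0, 0, fun h1 h2 => absurd ⟨h1, h2⟩ hB⟩
  choose fa fb hf using hch
  let G : Finset (ι → ℤ) → ℝ := fun B => ∑ x ∈ B, (w x - (∑ i, fa B i * (x i : ℝ) + fb B))
  obtain ⟨ε, hε0, hε⟩ : ∃ ε : ℝ, 0 < ε ∧ ∀ B ∈ A.powerset, 0 < G B → 2 * ε * #B < G B := by
    have hev : ∀ᶠ ε in nhdsWithin (0 : ℝ) (Set.Ioi 0),
        ∀ B ∈ A.powerset, 0 < G B → 2 * ε * #B < G B := by
      rw [Filter.eventually_all_finset]
      intro B _
      by_cases hG : 0 < G B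
      · have hcont : Filter.Tendsto (fun ε : ℝ => 2 * ε * (#B : ℝ)) (nhdsWithin 0 (Set.Ioi 0))
            (nhds (2 * 0 * (#B : ℝ))) := by
          apply Filter.Tendsto.mono_left _ nhdsWithin_le_nhds
          exact Continuous.tendsto (by fun_prop) 0
        rw [mul_zero, zero_mul] at hcont
        filter_upwards [hcont.eventually (gt_mem_nhds hG)] with ε h1 _
        exact h1
      · exact Filter.Eventually.of_forall fun ε h1 => absurd h1 hG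
    obtain ⟨ε, h1, h2⟩ := (hev.and self_mem_nhdsWithin).exists
    exact ⟨ε, h2, h1⟩
  refine ⟨ε, hε0, fun w' f hw' hf' a b hab => ?_⟩
  set B := contact A w' a b with hBdef
  have hmB : ∀ x, x ∈ B ↔ x ∈ A ∧ ∑ i, a i * (x i : ℝ) + b = w' x := by
    intro x
    rw [hBdef, contact, Finset.mem_filter]
  have hBA : B ⊆ A := fun x hx => ((hmB x).1 hx).1
  rcases B.eq_empty_or_nonempty with h0 | hBn
  · rw [h0]
    refine ⟨0, -∑ y ∈ A, |w y|, fun x hx => ?_, fun x hx => absurd hx (Finset.notMem_empty x)⟩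
    have h1 : |w x| ≤ ∑ y ∈ A, |w y| :=
      Finset.single_le_sum (f := fun y => |w y|) (fun y _ => abs_nonneg _) hx
    simp only [Pi.zero_apply, zero_mul, Finset.sum_const_zero, zero_add]
    have h2 := neg_abs_le (w x)
    linarith
  obtain ⟨hle, hmem⟩ := hf B hBA hBn
  obtain ⟨c, e, hce, hceq⟩ := hf' (fa B) (fb B) hle
  obtain ⟨m, m0, m1, m2⟩ := mem_hull.1 hmem
  have hcard : (0 : ℝ) < #B := by
    have := hBn.card_pos
    exact_mod_cast this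
  set z : ι → ℝ := fun i => ∑ y ∈ B, (#B : ℝ)⁻¹ * (y i : ℝ) with hz
  have b1 : ∑ _y ∈ B, (#B : ℝ)⁻¹ = 1 := by
    rw [Finset.sum_const, nsmul_eq_mul, mul_inv_cancel₀ hcard.ne']
  -- averages over `B`
  have a1 := stab_bary B a b z (fun _ => (#B : ℝ)⁻¹) b1 (fun i => rfl)
  have a2 := stab_bary B (fa B) (fb B) z (fun _ => (#B : ℝ)⁻¹) b1 (fun i => rfl)
  have a2' := stab_bary B c e z (fun _ => (#B : ℝ)⁻¹) b1 (fun i => rfl)
  -- averages over the contact set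
  have a3 := stab_bary _ a b z m m1 m2
  have a4 := stab_bary _ (fa B) (fb B) z m m1 m2
  have a4' := stab_bary _ c e z m m1 m2
  have hC : ∀ x, x ∈ contact A w (fa B) (fb B) ↔
      x ∈ A ∧ ∑ i, fa B i * (x i : ℝ) + fb B = w x := by
    intro x
    rw [contact, Finset.mem_filter]
  have h5 : ∑ i, a i * z i + b ≤ (∑ i, fa B i * z i + fb B) + (∑ i, c i * z i + e) + ε := by
    rw [← a3, ← a4, ← a4']
    have e1 : ε = ∑ y ∈ contact A w (fa B) (fb B), m y * ε := by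
      rw [← Finset.sum_mul, m1, one_mul]
    conv_rhs => rw [e1]
    rw [← Finset.sum_add_distrib, ← Finset.sum_add_distrib]
    apply Finset.sum_le_sum
    intro y hy
    rw [← mul_add, ← mul_add]
    apply mul_le_mul_of_nonneg_left _ (m0 y hy)
    obtain ⟨hyA, hyw⟩ := (hC y).1 hy
    rw [hyw, hceq y hy]
    have h6 := hab y hyA
    have h7 := (abs_le.1 (hw' y hyA)).2
    linarith
  have e2 : ∑ x ∈ B, w' x = #B * (∑ i, a i * z i + b) := by
    rw [← a1, ← Finset.mul_sum, ← mul_assoc, mul_inv_cancel₀ hcard.ne', one_mul]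
    exact Finset.sum_congr rfl fun x hx => ((hmB x).1 hx).2.symm
  have e3 : ∑ x ∈ B, (∑ i, fa B i * (x i : ℝ) + fb B) = #B * (∑ i, fa B i * z i + fb B) := by
    rw [← a2, ← Finset.mul_sum, ← mul_assoc, mul_inv_cancel₀ hcard.ne', one_mul]
  have e3' : ∑ x ∈ B, (∑ i, c i * (x i : ℝ) + e) = #B * (∑ i, c i * z i + e) := by
    rw [← a2', ← Finset.mul_sum, ← mul_assoc, mul_inv_cancel₀ hcard.ne', one_mul]
  have h8 : ∑ x ∈ B, w' x ≤ ∑ x ∈ B, (∑ i, fa B i * (x i : ℝ) + fb B) +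
      ∑ x ∈ B, (∑ i, c i * (x i : ℝ) + e) + #B * ε := by
    rw [e2, e3, e3', ← mul_add, ← mul_add]
    exact mul_le_mul_of_nonneg_left h5 hcard.le
  have h9 : ∑ x ∈ B, w x + ∑ x ∈ B, f x ≤ ∑ x ∈ B, w' x + #B * ε := by
    have e4 : (#B : ℝ) * ε = ∑ x ∈ B, ε := by
      rw [Finset.sum_const, nsmul_eq_mul]
    rw [e4, ← Finset.sum_add_distrib, ← Finset.sum_add_distrib]
    apply Finset.sum_le_sum
    intro x hx
    have h7 := (abs_le.1 (hw' x (hBA hx))).1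
    linarith
  have h10 : ∑ x ∈ B, (∑ i, c i * (x i : ℝ) + e) ≤ ∑ x ∈ B, f x :=
    Finset.sum_le_sum fun x hx => hce x (hBA hx)
  have hG : G B ≤ 2 * ε * #B := by
    show ∑ x ∈ B, (w x - (∑ i, fa B i * (x i : ℝ) + fb B)) ≤ _
    rw [Finset.sum_sub_distrib]
    nlinarith
  have hG0 : ¬ 0 < G B := fun h1 =>
    absurd (hε B (Finset.mem_powerset.2 hBA) h1) (not_lt.2 hG)
  have hpos : ∀ x ∈ B, 0 ≤ w x - (∑ i, fa B i * (x i : ℝ) + fb B) := fun x hx =>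
    sub_nonneg.2 (hle x (hBA hx))
  have hzero : ∀ x ∈ B, w x - (∑ i, fa B i * (x i : ℝ) + fb B) = 0 :=
    (Finset.sum_eq_zero_iff_of_nonneg hpos).1
      (le_antisymm (not_lt.1 hG0) (Finset.sum_nonneg hpos))
  refine ⟨fa B, fb B, hle, fun x hx => (hC x).2 ⟨hBA hx, ?_⟩⟩
  exact (sub_eq_zero.1 (hzero x hx)).symm

end Pool.Agent.SPP
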