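import Pool.Agent.SPP.StpA

/-!
# [SPP-StpC] chimneys: the hull
-/

open Finset

set_option autoImplicit false

namespace Pool.Agent.SPP

open Pool.Agent.SPB

theorem tot_hull {ι : Type} [Fintype ι] {A B : Finset (ι → ℤ)} (i : ι) (u : ι → ℤ) (hui : u i = 1)
    (hAi : ∀ q ∈ A, q i = 0) (a₁ a₂ : ι → ℤ) (b₁ b₂ : ℤ)
    (hB : ∀ y, y ∈ B ↔ prj i u y ∈ A ∧ 0 ≤ y i ∧ y i ≤ evz a₁ b₁ (prj i u y) ∧ y i ≤ evz a₂ b₂ (prj i u y))
    (h₁ : ∀ q ∈ A, 0 ≤ evz a₁ b₁ q) (h₂ : ∀ q ∈ A, 0 ≤ evz a₂ b₂ q) {η : (ι → ℤ) → ℝ}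
    (hcov : Covers (hull A) A η)
    (hsgn : ∀ (a : ι → ℝ) (b : ℝ), (∀ x ∈ A, ∑ j, a j * (x j : ℝ) + b ≤ η x) →
      (∀ q ∈ contact A η a b, evz a₁ b₁ q ≤ evz a₂ b₂ q) ∨ (∀ q ∈ contact A η a b, evz a₂ b₂ q ≤ evz a₁ b₁ q))
    (y : ι → ℝ) : y ∈ hull B ↔ prj i u y ∈ hull A ∧ 0 ≤ y i ∧ y i ≤ ev a₁ b₁ (prj i u y) ∧
      y i ≤ ev a₂ b₂ (prj i u y) := by
  classical
  have hconvA : Convex ℝ (hull A) := convex_convexHull ℝ _
  have hconvB : Convex ℝ (hull B) := convex_convexHull ℝ _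
  constructor
  · intro hy
    obtain ⟨l, hl0, hl1, hl⟩ := mem_hull.1 hy
    have hp : ∀ j, ∑ z ∈ B, l z * ((prj i u z j : ℤ) : ℝ) = prj i u y j := by
      intro j
      simp only [prj]
      rw [← hl j, ← hl i, Finset.sum_mul, ← Finset.sum_sub_distrib]
      refine Finset.sum_congr rfl fun z _ => ?_
      push_cast
      ring
    refine ⟨?_, ?_, ?_, ?_⟩
    · have := hconvA.sum_mem hl0 hl1 (fun z hz => subset_convexHull ℝ _
        (⟨prj i u z, ((hB z).1 hz).1, rfl⟩ : emb (prj i u z) ∈ emb '' (A : Set (ι → ℤ))))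
      convert this using 1
      funext j
      rw [← hp j, Finset.sum_apply]
      exact Finset.sum_congr rfl fun z _ => rfl
    · rw [← hl i]
      refine Finset.sum_nonneg fun z hz => mul_nonneg (hl0 z hz) ?_
      exact_mod_cast ((hB z).1 hz).2.1
    · rw [ev_comb hl1 hp, ← hl i]
      refine Finset.sum_le_sum fun z hz => mul_le_mul_of_nonneg_left ?_ (hl0 z hz)
      exact_mod_cast ((hB z).1 hz).2.2.1
    · rw [ev_comb hl1 hp, ← hl i]
      refine Finset.sum_le_sum fun z hz => mul_le_mul_of_nonneg_left ?_ (hl0 z hz)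
      exact_mod_cast ((hB z).1 hz).2.2.2
  · rintro ⟨hx, hy0, hy1, hy2⟩
    obtain ⟨a, b, hab, hxC⟩ := hcov _ hx
    -- the smaller of the two functions
    obtain ⟨a₀, b₀, hle, hmin, hA0⟩ : ∃ (a₀ : ι → ℤ) (b₀ : ℤ), y i ≤ ev a₀ b₀ (prj i u y) ∧
        (∀ q ∈ contact A η a b, evz a₀ b₀ q ≤ evz a₁ b₁ q ∧ evz a₀ b₀ q ≤ evz a₂ b₂ q) ∧
        ∀ q ∈ A, 0 ≤ evz a₀ b₀ q := by
      rcases hsgn a b hab with h | h
      · exact ⟨a₁, b₁, hy1, fun q hq => ⟨le_rfl, h q hq⟩, h₁⟩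
      · exact ⟨a₂, b₂, hy2, fun q hq => ⟨h q hq, le_rfl⟩, h₂⟩
    have hCA : ∀ q ∈ contact A η a b, q ∈ A := by
      intro q hq
      unfold contact at hq
      exact (Finset.mem_filter.1 hq).1
    obtain ⟨l, hl0, hl1, hl⟩ := mem_hull.1 hxC
    have he : ev a₀ b₀ (prj i u y) = ∑ q ∈ contact A η a b, l q * (evz a₀ b₀ q : ℝ) := ev_comb hl1 hl a₀ b₀
    obtain ⟨s, hs0, hs1, hs⟩ : ∃ s : ℝ, 0 ≤ s ∧ s ≤ 1 ∧ y i = s * ev a₀ b₀ (prj i u y) := by
      rcases (hy0.trans hle).eq_or_lt with h0 | h0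
      · exact ⟨0, le_rfl, zero_le_one, by linarith⟩
      · exact ⟨y i / ev a₀ b₀ (prj i u y), div_nonneg hy0 h0.le, (div_le_one h0).2 hle,
          (div_mul_cancel₀ _ h0.ne').symm⟩
    have hmem : ∀ q ∈ contact A η a b, (1 - s) • emb q + s • emb (fun j => q j + evz a₀ b₀ q * u j) ∈ hull B := by
      intro q hq
      have hqA := hCA q hq
      have hpq : prj i u q = q := by
        funext j
        simp [prj, hAi q hqA]
      have hpq2 : prj i u (fun j => q j + evz a₀ b₀ q * u j) = q := by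
        funext j
        simp [prj, hAi q hqA, hui]
      refine hconvB ?_ ?_ (by linarith) hs0 (by ring)
      · refine subset_convexHull ℝ _ ⟨q, ?_, rfl⟩
        rw [Finset.mem_coe, hB, hpq, hAi q hqA]
        exact ⟨hqA, le_rfl, h₁ q hqA, h₂ q hqA⟩
      · refine subset_convexHull ℝ _ ⟨_, ?_, rfl⟩
        rw [Finset.mem_coe, hB, hpq2]
        simp only [hAi q hqA, hui, mul_one, zero_add]
        exact ⟨hqA, hA0 q hqA, (hmin q hq).1, (hmin q hq).2⟩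
    have hsum := hconvB.sum_mem hl0 hl1 hmem
    convert hsum using 1
    funext j
    rw [Finset.sum_apply]
    have e1 : ∀ q ∈ contact A η a b, (l q • ((1 - s) • emb q + s • emb (fun j => q j + evz a₀ b₀ q * u j))) j =
        l q * (q j : ℝ) + s * (l q * (evz a₀ b₀ q : ℝ)) * (u j : ℝ) := by
      intro q _
      simp only [emb, Pi.smul_apply, Pi.add_apply, smul_eq_mul]
      push_cast
      ring
    rw [Finset.sum_congr rfl e1, Finset.sum_add_distrib, hl j, ← Finset.sum_mul, ← Finset.mul_sum, ← he, ← hs]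
    simp [prj]

end Pool.Agent.SPP
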