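import Pool.Agent.SPP.StpB
import Pool.Agent.SPP.StpC

/-!
# [SPP-Stp] chimneys

`u i = 1`, `P ⊆ {x i = 0}`; `P' = {y | y - (y i) u ∈ P, 0 ≤ y i ≤ g₁, g₂ (y - (y i) u)}`.
-/

open Finset

set_option autoImplicit false

namespace Pool.Agent.SPP

open Pool.Agent.SPB

private theorem mem_contact' {ι : Type} [Fintype ι] {A : Finset (ι → ℤ)} {w : (ι → ℤ) → ℝ} {a : ι → ℝ} {b : ℝ}
    {x : ι → ℤ} : x ∈ contact A w a b ↔ x ∈ A ∧ ∑ i, a i * (x i : ℝ) + b = w x := by
  classical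
  unfold contact
  rw [Finset.mem_filter]

theorem RT.step {ι : Type} [Fintype ι] (hcov : ∀ (A : Finset (ι → ℤ)) (w : (ι → ℤ) → ℝ), Covers (hull A) A w)
    {P P' : Set (ι → ℝ)} {θ : ι → ℤ} (hP : RT P θ) (i : ι) (u : ι → ℤ) (hui : u i = 1) (hPi : ∀ x ∈ P, x i = 0)
    (hθ : ∑ j, θ j * u j = 0) (a₁ a₂ : ι → ℤ) (b₁ b₂ : ℤ)
    (h₁ : ∀ x ∈ P, 0 ≤ ev a₁ b₁ x) (h₂ : ∀ x ∈ P, 0 ≤ ev a₂ b₂ x)
    (hs : ∀ x y : ι → ℤ, emb x ∈ P → emb y ∈ P → ∑ j, θ j * x j ≤ ∑ j, θ j * y j + 1 →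
      ∑ j, θ j * y j ≤ ∑ j, θ j * x j + 1 → 0 ≤ (evz a₁ b₁ x - evz a₂ b₂ x) * (evz a₁ b₁ y - evz a₂ b₂ y))
    (hP' : ∀ y : ι → ℝ, y ∈ P' ↔ (fun j => y j - y i * (u j : ℝ)) ∈ P ∧ 0 ≤ y i ∧
      y i ≤ ev a₁ b₁ (fun j => y j - y i * (u j : ℝ)) ∧ y i ≤ ev a₂ b₂ (fun j => y j - y i * (u j : ℝ))) :
    RT P' θ := by
  classical
  obtain ⟨A, η, hη, rfl, hA, hthin⟩ := hP
  have hAi : ∀ q ∈ A, q i = 0 := by
    intro q hq
    have := hPi (emb q) ((hA q).1 hq)
    unfold emb at this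
    exact_mod_cast this
  have h₁' : ∀ q ∈ A, 0 ≤ evz a₁ b₁ q := by
    intro q hq
    have := h₁ (emb q) ((hA q).1 hq)
    rw [ev_emb] at this
    exact_mod_cast this
  have h₂' : ∀ q ∈ A, 0 ≤ evz a₂ b₂ q := by
    intro q hq
    have := h₂ (emb q) ((hA q).1 hq)
    rw [ev_emb] at this
    exact_mod_cast this
  -- sign of the difference on contact sets
  have hsgn : ∀ (a : ι → ℝ) (b : ℝ), (∀ x ∈ A, ∑ j, a j * (x j : ℝ) + b ≤ η x) →
      (∀ q ∈ contact A η a b, evz a₁ b₁ q ≤ evz a₂ b₂ q) ∨ (∀ q ∈ contact A η a b, evz a₂ b₂ q ≤ evz a₁ b₁ q) := by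
    intro a b hab
    by_contra hcon
    push Not at hcon
    obtain ⟨⟨x, hx, hx'⟩, y, hy, hy'⟩ := hcon
    have hxA := (mem_contact'.1 hx).1
    have hyA := (mem_contact'.1 hy).1
    have h3 := hs x y ((hA x).1 hxA) ((hA y).1 hyA) (hthin a b hab x hx y hy) (hthin a b hab y hy x hx)
    have h4 : 0 < evz a₁ b₁ x - evz a₂ b₂ x := by linarith
    have h5 : evz a₁ b₁ y - evz a₂ b₂ y < 0 := by linarith
    have h6 := mul_neg_of_pos_of_neg h4 h5
    linarith
  set κ : (ι → ℤ) → ℤ := fun q => min (evz a₁ b₁ q) (evz a₂ b₂ q) with hκ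
  have hκ0 : ∀ q ∈ A, 0 ≤ κ q := fun q hq => le_min (h₁' q hq) (h₂' q hq)
  -- the lattice points
  obtain ⟨B, hB⟩ : ∃ B : Finset (ι → ℤ), ∀ y, y ∈ B ↔ prj i u y ∈ A ∧ 0 ≤ y i ∧ y i ≤ evz a₁ b₁ (prj i u y) ∧
      y i ≤ evz a₂ b₂ (prj i u y) := by
    refine ⟨A.biUnion (fun q => (Finset.Icc 0 (κ q)).image (fun t => fun j => q j + t * u j)), fun y => ?_⟩
    simp only [Finset.mem_biUnion, Finset.mem_image, Finset.mem_Icc]
    constructor
    · rintro ⟨q, hq, t, ⟨ht0, ht1⟩, rfl⟩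
      have e1 : prj i u (fun j => q j + t * u j) = q := by
        funext j
        simp [prj, hAi q hq, hui]
      rw [e1]
      simp only [hAi q hq, hui, mul_one, zero_add]
      exact ⟨hq, ht0, ht1.trans (min_le_left _ _), ht1.trans (min_le_right _ _)⟩
    · rintro ⟨h3, h4, h5, h6⟩
      refine ⟨_, h3, y i, ⟨h4, le_min h5 h6⟩, ?_⟩
      funext j
      simp [prj]
  have hBκ : ∀ y ∈ B, prj i u y ∈ A ∧ 0 ≤ y i ∧ y i ≤ κ (prj i u y) := fun y hy =>
    ⟨((hB y).1 hy).1, ((hB y).1 hy).2.1, le_min ((hB y).1 hy).2.2.1 ((hB y).1 hy).2.2.2⟩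
  have hBm : ∀ q ∈ A, ∀ t : ℤ, 0 ≤ t → t ≤ κ q → (fun j => q j + t * u j) ∈ B ∧
      prj i u (fun j => q j + t * u j) = q ∧ (fun j => q j + t * u j) i = t := by
    intro q hq t ht0 ht1
    have e1 : prj i u (fun j => q j + t * u j) = q := by
      funext j
      simp [prj, hAi q hq, hui]
    have e2 : (fun j => q j + t * u j) i = t := by
      simp [hAi q hq, hui]
    have e3 : q i + t * u i = t := e2
    refine ⟨?_, e1, e2⟩
    rw [hB, e1]
    beta_reduce
    rw [e3]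
    exact ⟨hq, ht0, ht1.trans (min_le_left _ _), ht1.trans (min_le_right _ _)⟩
  have hhull := tot_hull i u hui hAi a₁ a₂ b₁ b₂ hB h₁' h₂' (hcov A η) hsgn
  obtain ⟨δ, hδ0, hδ1, hinj⟩ := exists_delta A
  -- bound of the fibre heights
  obtain ⟨W, hW0, hW⟩ : ∃ W : ℝ, 0 ≤ W ∧ ∀ q ∈ A, ((κ q : ℤ) : ℝ) ^ 2 + δ q * (κ q : ℤ) ≤ W := by
    have hnn : ∀ q ∈ A, 0 ≤ ((κ q : ℤ) : ℝ) ^ 2 + δ q * (κ q : ℤ) := by
      intro q hq
      have h3 : (0 : ℝ) ≤ (κ q : ℤ) := by exact_mod_cast hκ0 q hq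
      have := hδ0 q
      positivity
    exact ⟨∑ q ∈ A, (((κ q : ℤ) : ℝ) ^ 2 + δ q * (κ q : ℤ)), Finset.sum_nonneg hnn,
      fun q hq => Finset.single_le_sum (f := fun q => ((κ q : ℤ) : ℝ) ^ 2 + δ q * (κ q : ℤ)) hnn hq⟩
  obtain ⟨ε, hε, hst⟩ := stabU (hcov A η)
  obtain ⟨N, hN, hNW⟩ : ∃ N : ℝ, 0 < N ∧ W ≤ ε * N := by
    refine ⟨W / ε + 1, by positivity, ?_⟩
    rw [mul_add, mul_div_cancel₀ _ (ne_of_gt hε)]
    linarith
  have hcore : ∀ (g : ι → ℝ) (b : ℝ), (∀ x ∈ B, ∑ j, g j * (x j : ℝ) + b ≤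
      N * η (prj i u x) + ((x i : ℤ) : ℝ) ^ 2 + δ (prj i u x) * (x i : ℤ)) →
      Uni (contact B (fun x => N * η (prj i u x) + ((x i : ℤ) : ℝ) ^ 2 + δ (prj i u x) * (x i : ℤ)) g b) ∧
      ∃ (a₀ : ι → ℝ) (b₀ : ℝ), (∀ x ∈ A, ∑ j, a₀ j * (x j : ℝ) + b₀ ≤ η x) ∧
        ∀ y ∈ contact B (fun x => N * η (prj i u x) + ((x i : ℤ) : ℝ) ^ 2 + δ (prj i u x) * (x i : ℤ)) g b,
          prj i u y ∈ contact A η a₀ b₀ := by
    intro g b hg
    set s : ℝ := ∑ j, g j * (u j : ℝ) with hs'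
    choose m hm using fun q : ι → ℤ => (show ∃ m : ℝ, q ∈ A →
        (∀ r : ℤ, 0 ≤ r → r ≤ κ q → m ≤ (r : ℝ) ^ 2 + δ q * r - s * r) ∧
        ∃ r : ℤ, 0 ≤ r ∧ r ≤ κ q ∧ (r : ℝ) ^ 2 + δ q * r - s * r = m by
      by_cases hq : q ∈ A
      · obtain ⟨m, hm⟩ := exists_fmin (κ q) (hκ0 q hq) (δ q) s
        exact ⟨m, fun _ => hm⟩
      · exact ⟨0, fun h => absurd h hq⟩)
    have hsum : ∀ (q : ι → ℤ) (t : ℤ), ∑ j, g j * (((q j + t * u j : ℤ) : ℤ) : ℝ) = ∑ j, g j * (q j : ℝ) + t * s := by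
      intro q t
      rw [hs', Finset.mul_sum, ← Finset.sum_add_distrib]
      refine Finset.sum_congr rfl fun j _ => ?_
      push_cast
      ring
    have hle : ∀ q ∈ A, ∑ j, g j * (q j : ℝ) + b ≤ N * η q + m q := by
      intro q hq
      obtain ⟨r, hr0, hr1, hr2⟩ := (hm q hq).2
      obtain ⟨k1, k2, k3⟩ := hBm q hq r hr0 hr1
      have h3 := hg _ k1
      have k4 : q i + r * u i = r := k3
      rw [hsum, k2] at h3
      beta_reduce at h3
      rw [k4] at h3
      linarith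
    have hcon : ∀ y ∈ contact B (fun x => N * η (prj i u x) + ((x i : ℤ) : ℝ) ^ 2 + δ (prj i u x) * (x i : ℤ)) g b,
        prj i u y ∈ A ∧ 0 ≤ y i ∧ y i ≤ κ (prj i u y) ∧
        ((y i : ℤ) : ℝ) ^ 2 + δ (prj i u y) * (y i : ℤ) - s * (y i : ℤ) = m (prj i u y) ∧
        ∑ j, g j * ((prj i u y j : ℤ) : ℝ) + b = N * η (prj i u y) + m (prj i u y) := by
      intro y hy
      rw [mem_contact'] at hy
      obtain ⟨hyB, hye⟩ := hy
      obtain ⟨k1, k2, k3⟩ := hBκ y hyB
      have h3 := hle _ k1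
      have h4 := (hm _ k1).1 (y i) k2 k3
      have h5 : ∑ j, g j * (y j : ℝ) = ∑ j, g j * ((prj i u y j : ℤ) : ℝ) + (y i : ℤ) * s := by
        rw [hs', Finset.mul_sum, ← Finset.sum_add_distrib]
        refine Finset.sum_congr rfl fun j _ => ?_
        simp only [prj]
        push_cast
        ring
      rw [h5] at hye
      refine ⟨k1, k2, k3, ?_, ?_⟩
      · linarith
      · linarith
    set B₀ := A.filter (fun q => ∑ j, g j * (q j : ℝ) + b = N * η q + m q) with hB0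
    -- the compatible function
    set f : (ι → ℤ) → ℝ := fun q => if 0 ≤ s then - (s / N) * (κ q : ℤ) else 0 with hf
    have hst' := hst (fun q => η q + m q / N) f (by
      intro q hq
      obtain ⟨k1, r, hr0, hr1, hr2⟩ := hm q hq
      have hκq : (0 : ℝ) ≤ (κ q : ℤ) := by exact_mod_cast hκ0 q hq
      have hr0' : (0 : ℝ) ≤ (r : ℤ) := by exact_mod_cast hr0
      have hr1' : (r : ℝ) ≤ (κ q : ℤ) := by exact_mod_cast hr1
      have hd := hδ0 q
      rw [hf]
      beta_reduce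
      split_ifs with h3
      · have e1 : η q + m q / N - η q - - (s / N) * (κ q : ℤ) = (m q + s * (κ q : ℤ)) / N := by
          field_simp
          ring
        have k2 := k1 (κ q) (hκ0 q hq) le_rfl
        have k3 : 0 ≤ m q + s * (κ q : ℤ) := by
          rw [← hr2]
          have := mul_le_mul_of_nonneg_left hr1' h3
          have := mul_nonneg hd hr0'
          nlinarith
        rw [e1, abs_of_nonneg (div_nonneg k3 hN.le), div_le_iff₀ hN]
        have := hW q hq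
        linarith
      · push Not at h3
        have k2 := k1 0 le_rfl (hκ0 q hq)
        have k3 : 0 ≤ m q := by
          rw [← hr2]
          have := mul_nonneg hd hr0'
          nlinarith
        have k4 : m q = 0 := by
          refine le_antisymm ?_ k3
          simpa using k2
        rw [k4]
        simp [hε.le]) (by
      intro a₀ b₀ hab
      rw [hf]
      by_cases h3 : 0 ≤ s
      · have h4 : 0 ≤ s / N := div_nonneg h3 hN.le
        have key : ∀ (a' : ι → ℤ) (b' : ℤ), (∀ q ∈ A, κ q ≤ evz a' b' q) →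
            (∀ q ∈ contact A η a₀ b₀, evz a' b' q = κ q) →
            ∃ (a' : ι → ℝ) (b' : ℝ), (∀ x ∈ A, ∑ i, a' i * (x i : ℝ) + b' ≤
              (fun q => if 0 ≤ s then - (s / N) * ((κ q : ℤ) : ℝ) else 0) x) ∧
              ∀ x ∈ contact A η a₀ b₀, ∑ i, a' i * (x i : ℝ) + b' =
                (fun q => if 0 ≤ s then - (s / N) * ((κ q : ℤ) : ℝ) else 0) x := by
          intro a' b' k1 k2
          refine ⟨fun j => - (s / N) * (a' j : ℝ), - (s / N) * (b' : ℝ), ?_, ?_⟩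
          · intro x hx
            have e1 : ∑ j, - (s / N) * (a' j : ℝ) * (x j : ℝ) + - (s / N) * (b' : ℝ) =
                - (s / N) * (evz a' b' x : ℤ) := by
              unfold evz
              push_cast
              rw [mul_add, Finset.mul_sum]
              congr 1
              exact Finset.sum_congr rfl fun j _ => by ring
            rw [e1]
            beta_reduce
            rw [if_pos h3]
            have k3 : ((κ x : ℤ) : ℝ) ≤ (evz a' b' x : ℤ) := by exact_mod_cast k1 x hx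
            have := mul_le_mul_of_nonneg_left k3 h4
            linarith
          · intro x hx
            have e1 : ∑ j, - (s / N) * (a' j : ℝ) * (x j : ℝ) + - (s / N) * (b' : ℝ) =
                - (s / N) * (evz a' b' x : ℤ) := by
              unfold evz
              push_cast
              rw [mul_add, Finset.mul_sum]
              congr 1
              exact Finset.sum_congr rfl fun j _ => by ring
            rw [e1, k2 x hx]
            beta_reduce
            rw [if_pos h3]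
        rcases hsgn a₀ b₀ hab with h5 | h5
        · exact key a₁ b₁ (fun q _ => min_le_left _ _) (fun q hq => (min_eq_left (h5 q hq)).symm)
        · exact key a₂ b₂ (fun q _ => min_le_right _ _) (fun q hq => (min_eq_right (h5 q hq)).symm)
      · refine ⟨0, 0, ?_, ?_⟩
        · intro x _
          beta_reduce
          rw [if_neg h3]
          simp
        · intro x _
          beta_reduce
          rw [if_neg h3]
          simp) (fun j => g j / N) (b / N) (by
      intro q hq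
      have e1 : ∑ j, g j / N * (q j : ℝ) + b / N = (∑ j, g j * (q j : ℝ) + b) / N := by
        rw [add_div, Finset.sum_div]
        congr 1
        exact Finset.sum_congr rfl fun j _ => by ring
      rw [e1, div_le_iff₀ hN]
      have e2 : (η q + m q / N) * N = N * η q + m q := by
        field_simp
      rw [e2]
      exact hle q hq)
    obtain ⟨a₀, b₀, hab, hsub⟩ := hst'
    have hB0C : ∀ q ∈ B₀, q ∈ contact A η a₀ b₀ := by
      intro q hq
      rw [hB0, Finset.mem_filter] at hq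
      refine hsub (mem_contact'.2 ⟨hq.1, ?_⟩)
      have e1 : ∑ j, g j / N * (q j : ℝ) + b / N = (∑ j, g j * (q j : ℝ) + b) / N := by
        rw [add_div, Finset.sum_div]
        congr 1
        exact Finset.sum_congr rfl fun j _ => by ring
      rw [e1, hq.2]
      field_simp
    have hB0A : ∀ q ∈ B₀, q ∈ A := fun q hq => (mem_contact'.1 (hB0C q hq)).1
    have hcon' : ∀ y ∈ contact B (fun x => N * η (prj i u x) + ((x i : ℤ) : ℝ) ^ 2 + δ (prj i u x) * (x i : ℤ)) g b,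
        prj i u y ∈ B₀ := by
      intro y hy
      obtain ⟨k1, -, -, -, k2⟩ := hcon y hy
      rw [hB0, Finset.mem_filter]
      exact ⟨k1, k2⟩
    refine ⟨?_, a₀, b₀, hab, fun y hy => hB0C _ (hcon' y hy)⟩
    refine uni_tot (B₀ := B₀) i u hui ((hη a₀ b₀ hab).mono hB0C) κ δ m s hδ0 hδ1
      (fun q hq q' hq' => hinj q (hB0A q hq) q' (hB0A q' hq')) (fun q hq => (hm q (hB0A q hq)).1) ?_
    intro y hy
    obtain ⟨-, k2, k3, k4, -⟩ := hcon y hy
    exact ⟨hcon' y hy, k2, k3, k4⟩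
  refine ⟨B, fun x => N * η (prj i u x) + ((x i : ℤ) : ℝ) ^ 2 + δ (prj i u x) * (x i : ℤ),
    fun g b hg => (hcore g b hg).1, ?_, ?_, ?_⟩
  · ext y
    rw [hP', hhull]
    exact Iff.rfl
  · intro y
    rw [hP', hB, hA, emb_prj]
    have e1 : (fun j => emb y j - emb y i * (u j : ℝ)) = emb (prj i u y) := (emb_prj i u y).symm
    rw [e1, ev_emb, ev_emb, ← emb_prj]
    refine and_congr_right fun _ => ?_
    unfold emb
    norm_cast
  · intro g b hg x hx y hy
    obtain ⟨-, a₀, b₀, hab, hsub⟩ := hcore g b hg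
    have h3 := hthin a₀ b₀ hab _ (hsub x hx) _ (hsub y hy)
    rw [sum_prj, sum_prj] at h3
    simp only [Int.cast_id] at h3
    rw [hθ] at h3
    simpa using h3

end Pool.Agent.SPP
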