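import Pool.Agent.SPP.Stb

/-!
# [SPP-StpA] chimneys: preparations
-/

open Finset

set_option autoImplicit false

namespace Pool.Agent.SPP

open Pool.Agent.SPB

theorem isInt_int (n : ℤ) : IsInt n := ⟨n, rfl⟩

theorem isInt_add {x y : ℝ} (hx : IsInt x) (hy : IsInt y) : IsInt (x + y) := by
  obtain ⟨n, rfl⟩ := hx
  obtain ⟨m, rfl⟩ := hy
  exact ⟨n + m, by push_cast; ring⟩

theorem isInt_sub {x y : ℝ} (hx : IsInt x) (hy : IsInt y) : IsInt (x - y) := by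
  obtain ⟨n, rfl⟩ := hx
  obtain ⟨m, rfl⟩ := hy
  exact ⟨n - m, by push_cast; ring⟩

theorem isInt_mul {x y : ℝ} (hx : IsInt x) (hy : IsInt y) : IsInt (x * y) := by
  obtain ⟨n, rfl⟩ := hx
  obtain ⟨m, rfl⟩ := hy
  exact ⟨n * m, by push_cast; ring⟩

theorem isInt_sum {κ : Type} (s : Finset κ) {f : κ → ℝ} (h : ∀ i ∈ s, IsInt (f i)) : IsInt (∑ i ∈ s, f i) := by
  classical
  induction s using Finset.induction_on with
  | empty => exact ⟨0, by simp⟩
  | insert a s ha ih =>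
    rw [Finset.sum_insert ha]
    exact isInt_add (h a (Finset.mem_insert_self a s)) (ih fun i hi => h i (Finset.mem_insert_of_mem hi))

/-- two minimisers of `t² + δ t - s t` on `[0, κ] ∩ ℤ` are neighbours -/
theorem two_min {κ : ℤ} {δ s m : ℝ} (hmin : ∀ r : ℤ, 0 ≤ r → r ≤ κ → m ≤ (r : ℝ) ^ 2 + δ * r - s * r) {t t' : ℤ}
    (h0 : 0 ≤ t) (ht : t < t') (ht' : t' ≤ κ) (e : (t : ℝ) ^ 2 + δ * t - s * t = m)
    (e' : (t' : ℝ) ^ 2 + δ * t' - s * t' = m) : t' = t + 1 ∧ s = 2 * t + 1 + δ := by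
  have h1 : ((t' : ℝ) - t) * (t + t' + δ - s) = 0 := by linarith
  have h2 : (t : ℝ) < t' := by exact_mod_cast ht
  have h3 : (t : ℝ) + t' + δ - s = 0 := by
    rcases mul_eq_zero.1 h1 with h | h
    · linarith
    · exact h
  have h4 := hmin (t + 1) (by omega) (by omega)
  push_cast at h4
  have h5 : (t' : ℝ) ≤ t + 1 := by nlinarith
  have h6 : t' ≤ t + 1 := by exact_mod_cast h5
  have h7 : t' = t + 1 := by omega
  refine ⟨h7, ?_⟩
  rw [h7] at h3
  push_cast at h3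
  linarith

/-- generic numbers -/
theorem exists_delta {ι : Type} (A : Finset (ι → ℤ)) : ∃ δ : (ι → ℤ) → ℝ, (∀ q, 0 ≤ δ q) ∧ (∀ q, δ q < 1) ∧
    ∀ q ∈ A, ∀ q' ∈ A, δ q = δ q' → q = q' := by
  classical
  refine ⟨fun q => if h : q ∈ A then ((A.equivFin ⟨q, h⟩ : ℕ) : ℝ) / (A.card + 1) else 0, ?_, ?_, ?_⟩
  · intro q
    beta_reduce
    split_ifs with h
    · positivity
    · exact le_rfl
  · intro q
    beta_reduce
    split_ifs with h
    · rw [div_lt_one (by positivity)]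
      have := (A.equivFin ⟨q, h⟩).2
      have : ((A.equivFin ⟨q, h⟩ : ℕ) : ℝ) < A.card := by exact_mod_cast this
      linarith
    · norm_num
  · intro q hq q' hq' h
    beta_reduce at h
    rw [dif_pos hq, dif_pos hq', div_left_inj' (by positivity)] at h
    have h1 : (A.equivFin ⟨q, hq⟩ : ℕ) = (A.equivFin ⟨q', hq'⟩ : ℕ) := by exact_mod_cast h
    have h2 := A.equivFin.injective (Fin.ext h1)
    exact congrArg Subtype.val h2

/-- the minimum of the fibre heights -/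
theorem exists_fmin (κ : ℤ) (hκ : 0 ≤ κ) (δ s : ℝ) : ∃ m : ℝ,
    (∀ r : ℤ, 0 ≤ r → r ≤ κ → m ≤ (r : ℝ) ^ 2 + δ * r - s * r) ∧
      ∃ r : ℤ, 0 ≤ r ∧ r ≤ κ ∧ (r : ℝ) ^ 2 + δ * r - s * r = m := by
  obtain ⟨r, hr, hm⟩ := (Finset.Icc 0 κ).exists_min_image (fun r : ℤ => (r : ℝ) ^ 2 + δ * r - s * r)
    ⟨0, by simp [hκ]⟩
  rw [Finset.mem_Icc] at hr
  exact ⟨_, fun r' h1 h2 => hm r' (Finset.mem_Icc.2 ⟨h1, h2⟩), r, hr.1, hr.2, rfl⟩

/-- the projection along `u` -/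
def prj {ι α : Type} [Ring α] (i : ι) (u : ι → ℤ) (y : ι → α) : ι → α := fun j => y j - y i * (u j : α)

theorem emb_prj {ι : Type} (i : ι) (u : ι → ℤ) (y : ι → ℤ) : emb (prj i u y) = prj i u (emb y) := by
  funext j
  simp [emb, prj]

theorem sum_prj {ι α : Type} [Fintype ι] [CommRing α] (i : ι) (u : ι → ℤ) (y : ι → α) (g : ι → α) :
    ∑ j, g j * prj i u y j = ∑ j, g j * y j - y i * ∑ j, g j * (u j : α) := by
  unfold prj
  simp only [mul_sub, Finset.sum_sub_distrib, Finset.mul_sum]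
  congr 1
  exact Finset.sum_congr rfl fun j _ => by ring

theorem hull_coord_zero {ι : Type} {C : Finset (ι → ℤ)} {i : ι} {x : ι → ℝ} (hx : x ∈ hull C)
    (h : ∀ q ∈ C, q i = 0) : x i = 0 := by
  obtain ⟨l, -, -, h2⟩ := mem_hull.1 hx
  rw [← h2 i]
  exact Finset.sum_eq_zero fun q hq => by rw [h q hq]; simp

/-- the value of an affine function at a convex combination -/
theorem ev_comb {ι τ : Type} [Fintype ι] {s : Finset τ} {f : τ → ι → ℤ} {p : ι → ℝ} {l : τ → ℝ}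
    (h1 : ∑ y ∈ s, l y = 1) (h2 : ∀ i, ∑ y ∈ s, l y * (f y i : ℝ) = p i) (a : ι → ℤ) (b : ℤ) :
    ev a b p = ∑ y ∈ s, l y * (evz a b (f y) : ℝ) := by
  unfold ev evz
  push_cast
  have h3 : ∑ y ∈ s, l y * (∑ i, (a i : ℝ) * (f y i : ℝ) + b) =
      ∑ y ∈ s, ∑ i, (a i : ℝ) * (l y * (f y i : ℝ)) + b * ∑ y ∈ s, l y := by
    rw [Finset.mul_sum, ← Finset.sum_add_distrib]
    refine Finset.sum_congr rfl fun y _ => ?_
    rw [mul_add, Finset.mul_sum]
    congr 1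
    · exact Finset.sum_congr rfl fun i _ => by ring
    · ring
  rw [h3, h1, mul_one, Finset.sum_comm]
  congr 1
  refine Finset.sum_congr rfl fun i _ => ?_
  rw [← Finset.mul_sum, h2]

end Pool.Agent.SPP
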