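import Pool.Agent.SPP.StpA

/-!
# [SPP-StpB] chimneys: the contact sets are unimodular
-/

open Finset

set_option autoImplicit false

namespace Pool.Agent.SPP

open Pool.Agent.SPB

theorem uni_tot {ι : Type} [Fintype ι] {B₀ C' : Finset (ι → ℤ)} (i : ι) (u : ι → ℤ) (hui : u i = 1) (hB : Uni B₀)
    (κ : (ι → ℤ) → ℤ) (δ m : (ι → ℤ) → ℝ) (s : ℝ) (hδ0 : ∀ q, 0 ≤ δ q) (hδ1 : ∀ q, δ q < 1)
    (hinj : ∀ q ∈ B₀, ∀ q' ∈ B₀, δ q = δ q' → q = q')
    (hm : ∀ q ∈ B₀, ∀ r : ℤ, 0 ≤ r → r ≤ κ q → m q ≤ (r : ℝ) ^ 2 + δ q * r - s * r)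
    (hC : ∀ y ∈ C', prj i u y ∈ B₀ ∧ 0 ≤ y i ∧ y i ≤ κ (prj i u y) ∧
      ((y i : ℤ) : ℝ) ^ 2 + δ (prj i u y) * (y i : ℤ) - s * (y i : ℤ) = m (prj i u y)) : Uni C' := by
  classical
  intro c hc0 hc1 y hy
  -- integral fibre sums
  have hμ : ∀ q ∈ B₀, IsInt (∑ x ∈ C' with prj i u x = q, c x) := by
    refine hB (fun q => ∑ x ∈ C' with prj i u x = q, c x) ?_ ?_
    · rw [Finset.sum_fiberwise_of_maps_to (fun x hx => (hC x hx).1)]
      exact hc0
    · intro j
      have e : ∑ q ∈ B₀, (∑ x ∈ C' with prj i u x = q, c x) * (q j : ℝ) =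
          ∑ x ∈ C', c x * (x j : ℝ) - (∑ x ∈ C', c x * (x i : ℝ)) * (u j : ℝ) := by
        have e1 : ∀ q ∈ B₀, (∑ x ∈ C' with prj i u x = q, c x) * (q j : ℝ) =
            ∑ x ∈ C' with prj i u x = q, (c x * (x j : ℝ) - c x * (x i : ℝ) * (u j : ℝ)) := by
          intro q _
          rw [Finset.sum_mul]
          refine Finset.sum_congr rfl fun x hx => ?_
          rw [Finset.mem_filter] at hx
          rw [← hx.2]
          simp only [prj]
          push_cast
          ring
        rw [Finset.sum_congr rfl e1, Finset.sum_fiberwise_of_maps_to (fun x hx => (hC x hx).1),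
          Finset.sum_sub_distrib, Finset.sum_mul]
      rw [e]
      exact isInt_sub (hc1 j) (isInt_mul (hc1 i) (isInt_int (u j)))
  -- a point is determined by its projection and the coordinate `i`
  have hext : ∀ x z : ι → ℤ, prj i u x = prj i u z → x i = z i → x = z := by
    intro x z h1 h2
    funext j
    have := congrFun h1 j
    simp only [prj, h2] at this
    simpa using this
  -- two points in a fibre
  have hpair : ∀ x ∈ C', ∀ z ∈ C', prj i u x = prj i u z → x i < z i →
      z i = x i + 1 ∧ s = 2 * (x i : ℤ) + 1 + δ (prj i u x) := by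
    intro x hx z hz hxz hlt
    obtain ⟨h1, h2, h3, h4⟩ := hC x hx
    obtain ⟨k1, k2, k3, k4⟩ := hC z hz
    rw [← hxz] at k3 k4
    exact two_min (hm _ h1) h2 hlt k3 h4 k4
  -- at most one fibre has two points
  have huniq : ∀ x ∈ C', ∀ z ∈ C', ∀ x' ∈ C', ∀ z' ∈ C', prj i u x = prj i u z → x i < z i →
      prj i u x' = prj i u z' → x' i < z' i → prj i u x = prj i u x' ∧ x i = x' i := by
    intro x hx z hz x' hx' z' hz' h1 h2 h3 h4
    have a1 := (hpair x hx z hz h1 h2).2
    have a2 := (hpair x' hx' z' hz' h3 h4).2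
    have b0 := hδ0 (prj i u x)
    have b1 := hδ1 (prj i u x)
    have b2 := hδ0 (prj i u x')
    have b3 := hδ1 (prj i u x')
    have e1 : 2 * ((x i : ℤ) : ℝ) - 2 * ((x' i : ℤ) : ℝ) = δ (prj i u x') - δ (prj i u x) := by linarith
    have e2 : x i = x' i := by
      have l1 : 2 * ((x i : ℤ) : ℝ) - 2 * ((x' i : ℤ) : ℝ) < 1 := by linarith
      have l2 : -1 < 2 * ((x i : ℤ) : ℝ) - 2 * ((x' i : ℤ) : ℝ) := by linarith
      have l3 : 2 * x i - 2 * x' i < 1 := by exact_mod_cast l1
      have l4 : -1 < 2 * x i - 2 * x' i := by exact_mod_cast l2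
      omega
    refine ⟨hinj _ (hC x hx).1 _ (hC x' hx').1 ?_, e2⟩
    rw [e2] at e1
    linarith
  by_cases hs : ∀ z ∈ C', prj i u z = prj i u y → z = y
  · have h1 := hμ _ (hC y hy).1
    have h2 : C'.filter (fun x => prj i u x = prj i u y) = {y} := by
      ext x
      rw [Finset.mem_filter, Finset.mem_singleton]
      exact ⟨fun h => hs x h.1 h.2, fun h => by subst h; exact ⟨hy, rfl⟩⟩
    rw [h2, Finset.sum_singleton] at h1
    exact h1
  · push Not at hs
    obtain ⟨z, hz, hzy, hne⟩ := hs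
    have hi : z i ≠ y i := fun h => hne (hext z y hzy h)
    -- the lower and the upper point
    obtain ⟨x₁, x₂, hx₁, hx₂, hx₁₂, hlt, hyx⟩ : ∃ x₁ x₂, x₁ ∈ C' ∧ x₂ ∈ C' ∧ prj i u x₁ = prj i u x₂ ∧ x₁ i < x₂ i ∧
        (y = x₁ ∨ y = x₂) := by
      rcases lt_or_gt_of_ne hi with h | h
      · exact ⟨z, y, hz, hy, hzy, h, Or.inr rfl⟩
      · exact ⟨y, z, hy, hz, hzy.symm, h, Or.inl rfl⟩
    have hne12 : x₁ ≠ x₂ := fun h => by rw [h] at hlt; exact lt_irrefl _ hlt
    obtain ⟨hx21, -⟩ := hpair x₁ hx₁ x₂ hx₂ hx₁₂ hlt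
    -- the fibre
    have hfib : C'.filter (fun x => prj i u x = prj i u x₁) = {x₁, x₂} := by
      ext x
      rw [Finset.mem_filter, Finset.mem_insert, Finset.mem_singleton]
      constructor
      · rintro ⟨hx, hxp⟩
        by_contra hcon
        push Not at hcon
        obtain ⟨c1, c2⟩ := hcon
        have d1 : x i ≠ x₁ i := fun h => c1 (hext x x₁ hxp h)
        have d2 : x i ≠ x₂ i := fun h => c2 (hext x x₂ (hxp.trans hx₁₂) h)
        rcases lt_or_gt_of_ne d1 with d | d
        · have := (huniq x hx x₁ hx₁ x₁ hx₁ x₂ hx₂ hxp d hx₁₂ hlt).2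
          omega
        · have := (hpair x₁ hx₁ x hx hxp.symm d).1
          omega
      · rintro (rfl | rfl)
        · exact ⟨hx₁, rfl⟩
        · exact ⟨hx₂, hx₁₂.symm⟩
    -- all other points are single
    have hoth : ∀ x ∈ C', prj i u x ≠ prj i u x₁ → IsInt (c x) := by
      intro x hx hxp
      have h1 := hμ _ (hC x hx).1
      have h2 : C'.filter (fun z => prj i u z = prj i u x) = {x} := by
        ext z
        rw [Finset.mem_filter, Finset.mem_singleton]
        constructor
        · rintro ⟨hz, hzp⟩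
          by_contra hcon
          have d1 : z i ≠ x i := fun h => hcon (hext z x hzp h)
          rcases lt_or_gt_of_ne d1 with d | d
          · have := (huniq z hz x hx x₁ hx₁ x₂ hx₂ hzp d hx₁₂ hlt).1
            exact hxp (hzp.symm.trans this)
          · have := (huniq x hx z hz x₁ hx₁ x₂ hx₂ hzp.symm d hx₁₂ hlt).1
            exact hxp this
        · rintro rfl
          exact ⟨hx, rfl⟩
      rw [h2, Finset.sum_singleton] at h1
      exact h1
    have s1 : IsInt (c x₁ + c x₂) := by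
      have := hμ _ (hC x₁ hx₁).1
      rw [hfib, Finset.sum_pair hne12] at this
      exact this
    have s2 : IsInt (c x₁ * (x₁ i : ℝ) + c x₂ * (x₂ i : ℝ)) := by
      have h1 := hc1 i
      rw [← Finset.sum_filter_add_sum_filter_not C' (fun x => prj i u x = prj i u x₁), hfib,
        Finset.sum_pair hne12] at h1
      have h2 : IsInt (∑ x ∈ C' with ¬ prj i u x = prj i u x₁, c x * (x i : ℝ)) := by
        refine isInt_sum _ fun x hx => ?_
        rw [Finset.mem_filter] at hx
        exact isInt_mul (hoth x hx.1 hx.2) (isInt_int _)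
      have h3 := isInt_sub h1 h2
      rwa [add_sub_cancel_right] at h3
    have s3 : IsInt (c x₂) := by
      have h1 := isInt_sub s2 (isInt_mul s1 (isInt_int (x₁ i)))
      have h2 : c x₁ * (x₁ i : ℝ) + c x₂ * (x₂ i : ℝ) - (c x₁ + c x₂) * ((x₁ i : ℤ) : ℝ) = c x₂ := by
        rw [hx21]
        push_cast
        ring
      rwa [h2] at h1
    have s4 : IsInt (c x₁) := by
      have := isInt_sub s1 s3
      rwa [add_sub_cancel_right] at this
    rcases hyx with rfl | rfl
    · exact s4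
    · exact s3

end Pool.Agent.SPP
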