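import Pool.Agent.SPP.Defs

/-!
# [SPP-Sys] vertices of systems
-/

open Finset

set_option autoImplicit false
set_option linter.unusedSectionVars false

namespace Pool.Agent.SPP

open Pool.Agent.SPB

variable {J n : Type} [Fintype J] [Fintype n] [DecidableEq J] [DecidableEq n]

/-- the rows which are tight at the lattice point `v` -/
def tight (a : J → n → ℤ) (h : J → ℤ) (v : n → ℤ) : Finset J := univ.filter (fun j => evz (a j) (h j) v = 0)

/-- `v` is a lattice point of the polytope, the rows which are tight at `v` are a basis of the dual lattice; `b` is the dual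
basis -/
structure Vert (a : J → n → ℤ) (h : J → ℤ) (v : n → ℤ) (b : J → n → ℤ) : Prop where
  mem : emb v ∈ pol a h
  dual : ∀ i ∈ tight a h v, ∀ j ∈ tight a h v, ∑ k, a i k * b j k = if i = j then 1 else 0
  comp : ∀ k l, ∑ j ∈ tight a h v, b j k * a j l = if k = l then 1 else 0

theorem mem_tight {a : J → n → ℤ} {h : J → ℤ} {v : n → ℤ} {j : J} : j ∈ tight a h v ↔ ev (a j) (h j) (emb v) = 0 := by
  unfold tight
  rw [Finset.mem_filter, ev_emb]
  simp

theorem ev_add_smul (c : n → ℤ) (e : ℤ) (x y : n → ℝ) (t : ℝ) :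
    ev c e (x + t • y) = ev c e x + t * ∑ i, (c i : ℝ) * y i := by
  unfold ev
  rw [Finset.mul_sum, add_right_comm, ← Finset.sum_add_distrib]
  congr 1
  refine Finset.sum_congr rfl fun i _ => ?_
  simp only [Pi.add_apply, Pi.smul_apply, smul_eq_mul]
  ring

theorem ev_continuous (c : n → ℤ) (e : ℤ) : Continuous (fun x : n → ℝ => ev c e x) := by
  unfold ev
  fun_prop

/-- a small step inside of the polytope -/
theorem move {a : J → n → ℤ} {h : J → ℤ} {x : n → ℝ} (hx : x ∈ pol a h) (y : n → ℝ)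
    (hy : ∀ j, ev (a j) (h j) x = 0 → 0 ≤ ∑ i, (a j i : ℝ) * y i) :
    ∀ᶠ t in nhdsWithin (0 : ℝ) (Set.Ioi 0), x + t • y ∈ pol a h := by
  unfold pol
  simp only [Set.mem_ofPred_eq]
  rw [Filter.eventually_all]
  intro j
  rcases (hx j).eq_or_lt with h0 | h0
  · filter_upwards [self_mem_nhdsWithin] with t ht
    rw [ev_add_smul, ← h0, zero_add]
    exact mul_nonneg (le_of_lt ht) (hy j h0.symm)
  · have hc : Filter.Tendsto (fun t : ℝ => ev (a j) (h j) (x + t • y)) (nhdsWithin 0 (Set.Ioi 0))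
        (nhds (ev (a j) (h j) (x + (0 : ℝ) • y))) := by
      apply Filter.Tendsto.mono_left _ nhdsWithin_le_nhds
      have : Continuous (fun t : ℝ => ev (a j) (h j) (x + t • y)) := by
        simp only [ev_add_smul]
        fun_prop
      exact this.tendsto 0
    rw [zero_smul, add_zero] at hc
    filter_upwards [hc.eventually (lt_mem_nhds h0)] with t ht
    exact ht.le

theorem exists_vert {a : J → n → ℤ} {h : J → ℤ} (hK : IsCompact (pol a h)) (hT : TS a h) (D : Finset J)
    (hD : ∃ x ∈ pol a h, ∀ j ∈ D, ev (a j) (h j) x = 0) (c : n → ℤ) :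
    ∃ (v : n → ℤ) (b : J → n → ℤ), Vert a h v b ∧ D ⊆ tight a h v ∧
      ∀ j ∈ tight a h v, j ∉ D → 0 ≤ ∑ k, c k * b j k := by
  obtain ⟨x₀, hx₀, hx₀D⟩ := hD
  have hcl : IsClosed {x : n → ℝ | ∀ j ∈ D, ev (a j) (h j) x = 0} := by
    have : {x : n → ℝ | ∀ j ∈ D, ev (a j) (h j) x = 0} = ⋂ j ∈ D, {x : n → ℝ | ev (a j) (h j) x = 0} := by
      ext x; simp
    rw [this]
    exact isClosed_biInter fun j _ => isClosed_eq (ev_continuous _ _) continuous_const
  have hF : IsCompact (pol a h ∩ {x : n → ℝ | ∀ j ∈ D, ev (a j) (h j) x = 0}) := hK.inter_right hcl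
  obtain ⟨x₁, hx₁, hmin⟩ := hF.exists_isMinOn ⟨x₀, hx₀, hx₀D⟩
    (f := fun x : n → ℝ => ev c 0 x) (ev_continuous _ _).continuousOn
  have hmin' : ∀ x ∈ pol a h, (∀ j ∈ D, ev (a j) (h j) x = 0) → ev c 0 x₁ ≤ ev c 0 x :=
    fun x h1 h2 => hmin ⟨h1, h2⟩
  have hM : IsCompact ((pol a h ∩ {x : n → ℝ | ∀ j ∈ D, ev (a j) (h j) x = 0}) ∩ {x | ev c 0 x = ev c 0 x₁}) :=
    hF.inter_right (isClosed_eq (ev_continuous _ _) continuous_const)
  obtain ⟨v, hv⟩ := hM.extremePoints_nonempty ⟨x₁, hx₁, rfl⟩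
  rw [mem_extremePoints] at hv
  obtain ⟨⟨⟨hvP, hvD⟩, hvc⟩, hve⟩ := hv
  have hvD' : ∀ j ∈ D, ev (a j) (h j) v = 0 := hvD
  have hvc' : ev c 0 v = ev c 0 x₁ := hvc
  have hvmin : ∀ x ∈ pol a h, (∀ j ∈ D, ev (a j) (h j) x = 0) → ev c 0 v ≤ ev c 0 x := by
    intro x h1 h2
    rw [hvc']
    exact hmin' x h1 h2
  -- trivial kernel
  have ker : ∀ y : n → ℝ, (∀ j, ev (a j) (h j) v = 0 → ∑ i, (a j i : ℝ) * y i = 0) → y = 0 := by
    intro y hy
    have m1 := move hvP y (fun j hj => (hy j hj).ge)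
    have m2 := move hvP (-y) (fun j hj => by
      simp only [Pi.neg_apply, mul_neg, Finset.sum_neg_distrib, hy j hj, neg_zero]
      exact le_rfl)
    obtain ⟨t, ⟨ht1, ht2⟩, ht0⟩ := ((m1.and m2).and self_mem_nhdsWithin).exists
    have ht0 : 0 < t := ht0
    have f1 : ∀ j ∈ D, ev (a j) (h j) (v + t • y) = 0 := by
      intro j hj
      rw [ev_add_smul, hvD' j hj, hy j (hvD' j hj)]
      ring
    have f2 : ∀ j ∈ D, ev (a j) (h j) (v + t • (-y)) = 0 := by
      intro j hj
      rw [ev_add_smul, hvD' j hj]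
      simp only [Pi.neg_apply, mul_neg, Finset.sum_neg_distrib, hy j (hvD' j hj)]
      ring
    have g1 := hvmin _ ht1 f1
    have g2 := hvmin _ ht2 f2
    rw [ev_add_smul] at g1 g2
    simp only [Pi.neg_apply, mul_neg, Finset.sum_neg_distrib] at g2
    have g3 : ∑ i, (c i : ℝ) * y i = 0 := by
      by_contra hne
      rcases lt_or_gt_of_ne hne with h4 | h4
      · nlinarith [mul_neg_of_pos_of_neg ht0 h4]
      · nlinarith [mul_pos ht0 h4]
    have e1 : v + t • y = v := by
      refine (hve (v + t • y) ⟨⟨ht1, f1⟩, ?_⟩ (v + t • (-y)) ⟨⟨ht2, f2⟩, ?_⟩ ?_).1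
      · show ev c 0 (v + t • y) = ev c 0 x₁
        rw [ev_add_smul, g3, hvc']; ring
      · show ev c 0 (v + t • (-y)) = ev c 0 x₁
        rw [ev_add_smul]
        simp only [Pi.neg_apply, mul_neg, Finset.sum_neg_distrib, g3, hvc']; ring
      · refine ⟨1 / 2, 1 / 2, by norm_num, by norm_num, by norm_num, ?_⟩
        module
    have e2 : t • y = 0 := by simpa using e1
    rcases smul_eq_zero.1 e2 with h5 | h5
    · exact absurd h5 ht0.ne'
    · exact h5
  -- integrality
  obtain ⟨v', hv'⟩ := hT v hvP (fun j => - h j)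
  have hvv : emb v' = v := by
    have := ker (emb v' - v) (fun j hj => by
      have h1 := hv' j hj
      have h2 : ∑ i, (a j i : ℝ) * (v' i : ℝ) = - (h j : ℝ) := by
        have := congrArg (fun z : ℤ => (z : ℝ)) h1
        push_cast at this
        exact this
      unfold ev at hj
      simp only [Pi.sub_apply, mul_sub, Finset.sum_sub_distrib, emb]
      linarith)
    exact sub_eq_zero.1 this
  subst hvv
  choose b hb using fun j => hT (emb v') hvP (fun i => if i = j then 1 else 0)
  have hdual : ∀ i ∈ tight a h v', ∀ j, ∑ k, a i k * b j k = if i = j then 1 else 0 := by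
    intro i hi j
    exact hb j i (mem_tight.1 hi)
  have hcomp : ∀ k l, ∑ j ∈ tight a h v', b j k * a j l = if k = l then 1 else 0 := by
    intro k l
    have h1 := ker (fun k' => (if k' = l then 1 else 0) - ∑ j ∈ tight a h v', (b j k' : ℝ) * (a j l : ℝ)) (fun i hi => by
      have hi' : i ∈ tight a h v' := mem_tight.2 hi
      simp only [mul_sub, Finset.sum_sub_distrib, mul_ite, mul_one, mul_zero, Finset.sum_ite_eq', Finset.mem_univ,
        if_true]
      have e1 : ∑ x, (a i x : ℝ) * ∑ j ∈ tight a h v', (b j x : ℝ) * (a j l : ℝ) =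
          ∑ j ∈ tight a h v', (∑ x, (a i x : ℝ) * (b j x : ℝ)) * (a j l : ℝ) := by
        simp only [Finset.mul_sum, Finset.sum_mul]
        rw [Finset.sum_comm]
        refine Finset.sum_congr rfl fun j _ => Finset.sum_congr rfl fun x _ => by ring
      rw [e1]
      have e2 : ∀ j ∈ tight a h v', (∑ x, (a i x : ℝ) * (b j x : ℝ)) * (a j l : ℝ) =
          if j = i then (a j l : ℝ) else 0 := by
        intro j _
        have := congrArg (fun z : ℤ => (z : ℝ)) (hdual i hi' j)
        push_cast at this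
        rw [this]
        by_cases hij : i = j
        · subst hij; simp
        · rw [if_neg hij, if_neg (Ne.symm hij)]; simp
      rw [Finset.sum_congr rfl e2, Finset.sum_ite_eq' _ i, if_pos hi']
      ring)
    have h2 := congrFun h1 k
    simp only [Pi.zero_apply] at h2
    have h3 : ((∑ j ∈ tight a h v', b j k * a j l : ℤ) : ℝ) = ((if k = l then 1 else 0 : ℤ) : ℝ) := by
      push_cast
      linarith
    exact_mod_cast h3
  refine ⟨v', b, ⟨hvP, fun i hi j _ => hdual i hi j, hcomp⟩, fun j hj => mem_tight.2 (hvD' j hj), ?_⟩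
  intro j hj hjD
  have m1 := move hvP (emb (b j)) (fun i hi => by
    have := congrArg (fun z : ℤ => (z : ℝ)) (hb j i hi)
    push_cast at this
    unfold emb
    rw [this]
    split_ifs <;> norm_num)
  obtain ⟨t, ht1, ht0⟩ := (m1.and self_mem_nhdsWithin).exists
  have ht0 : 0 < t := ht0
  have g1 := hvmin _ ht1 (fun i hi => by
    rw [ev_add_smul, hvD' i hi]
    have := congrArg (fun z : ℤ => (z : ℝ)) (hb j i (hvD' i hi))
    push_cast at this
    unfold emb
    have hij : i ≠ j := by
      rintro rfl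
      exact hjD hi
    rw [this, if_neg hij]
    ring)
  rw [ev_add_smul] at g1
  have g2 : 0 ≤ ∑ i, (c i : ℝ) * emb (b j) i := by
    by_contra hneg
    push Not at hneg
    nlinarith [mul_neg_of_pos_of_neg ht0 hneg]
  have g3 : ((∑ k, c k * b j k : ℤ) : ℝ) = ∑ i, (c i : ℝ) * emb (b j) i := by
    push_cast
    rfl
  rw [← g3] at g2
  exact_mod_cast g2

theorem Vert.card {a : J → n → ℤ} {h : J → ℤ} {v : n → ℤ} {b : J → n → ℤ} (hv : Vert a h v b) :
    (tight a h v).card = Fintype.card n := by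
  have h1 : ∑ j ∈ tight a h v, ∑ k, a j k * b j k = ((tight a h v).card : ℤ) := by
    rw [Finset.sum_congr rfl fun j hj => hv.dual j hj j hj]
    simp
  have h2 : ∑ j ∈ tight a h v, ∑ k, a j k * b j k = (Fintype.card n : ℤ) := by
    rw [Finset.sum_comm]
    have : ∀ k ∈ (univ : Finset n), ∑ j ∈ tight a h v, a j k * b j k = 1 := by
      intro k _
      have := hv.comp k k
      rw [if_pos rfl] at this
      rw [← this]
      exact Finset.sum_congr rfl fun j _ => by ring
    rw [Finset.sum_congr rfl this]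
    simp
  have := h1.symm.trans h2
  exact_mod_cast this

/-- expansion of a functional -/
theorem Vert.expand {a : J → n → ℤ} {h : J → ℤ} {v : n → ℤ} {b : J → n → ℤ} (hv : Vert a h v b) (c : n → ℤ) (k : n) :
    c k = ∑ j ∈ tight a h v, (∑ l, c l * b j l) * a j k := by
  have h1 : ∑ j ∈ tight a h v, (∑ l, c l * b j l) * a j k = ∑ l, c l * ∑ j ∈ tight a h v, b j l * a j k := by
    simp only [Finset.mul_sum, Finset.sum_mul]
    rw [Finset.sum_comm]
    refine Finset.sum_congr rfl fun j _ => Finset.sum_congr rfl fun x _ => by ring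
  rw [h1]
  have h2 : ∀ l ∈ (univ : Finset n), c l * ∑ j ∈ tight a h v, b j l * a j k = if l = k then c l else 0 := by
    intro l _
    rw [hv.comp l k]
    split_ifs <;> simp
  rw [Finset.sum_congr rfl h2]
  simp

/-- every row outside of a face is positive somewhere on the face -/
theorem exists_pos {a : J → n → ℤ} {h : J → ℤ} (hK : IsCompact (pol a h)) (hT : TS a h) (D : Finset J)
    (hD : ∃ x ∈ pol a h, ∀ j ∈ D, ev (a j) (h j) x = 0) {j : J} (hj : j ∉ D) :
    ∃ x ∈ pol a h, (∀ i ∈ D, ev (a i) (h i) x = 0) ∧ 0 < ev (a j) (h j) x := by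
  obtain ⟨x, hx, hxD⟩ := hD
  rcases (hx j).eq_or_lt with h0 | h0
  · obtain ⟨y, hy⟩ := hT x hx (fun i => if i = j then 1 else 0)
    have hy' : ∀ i, ev (a i) (h i) x = 0 → ∑ k, (a i k : ℝ) * emb y k = if i = j then 1 else 0 := by
      intro i hi
      have := congrArg (fun z : ℤ => (z : ℝ)) (hy i hi)
      push_cast at this
      unfold emb
      exact this
    have m1 := move hx (emb y) (fun i hi => by
      rw [hy' i hi]
      split_ifs <;> norm_num)
    obtain ⟨t, ht1, ht0⟩ := (m1.and self_mem_nhdsWithin).exists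
    have ht0 : 0 < t := ht0
    refine ⟨_, ht1, fun i hi => ?_, ?_⟩
    · have hij : i ≠ j := by
        rintro rfl
        exact hj hi
      rw [ev_add_smul, hxD i hi, hy' i (hxD i hi), if_neg hij]
      ring
    · rw [ev_add_smul, ← h0, hy' j h0.symm, if_pos rfl]
      linarith
  · exact ⟨x, hx, hxD, h0⟩

end Pool.Agent.SPP
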